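import Mathlib.Algebra.BigOperators.Group.List.Basic
import Mathlib.Algebra.Group.Idempotent
import Mathlib.Algebra.Group.Hom.Defs
import Mathlib.Data.List.Chain
import Mathlib.Logic.Relation

/-! Idempotent generated monoids over a monoid `S`: regular elements and stack normal forms. -/

set_option autoImplicit false

namespace Pool.Agent.Work.MP_5b5e81_al

variable {S M : Type} [Monoid S] [Monoid M]

/-- `a * e` is `R`-related to `a`. -/
def KR (a e : S) : Prop := ∃ y, a * e * y = a

/-- `e * b` is `L`-related to `b`. -/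
def KL (e b : S) : Prop := ∃ y, y * (e * b) = b

theorem KR.of_mul {a x y : S} (h : KR a (x * y)) : KR a x := by
  obtain ⟨z, hz⟩ := h
  exact ⟨y * z, by simpa [mul_assoc] using hz⟩

theorem KR.of_mul' {a x y : S} (h : KR a (x * y)) : KR (a * x) y := by
  obtain ⟨z, hz⟩ := h
  refine ⟨z * x, ?_⟩
  calc a * x * y * (z * x) = (a * (x * y) * z) * x := by simp [mul_assoc]
    _ = a * x := by rw [hz]

theorem KR.trans {a x y : S} (h : KR a x) (h' : KR (a * x) y) : KR a (x * y) := by
  obtain ⟨z, hz⟩ := h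
  obtain ⟨w, hw⟩ := h'
  refine ⟨w * z, ?_⟩
  calc a * (x * y) * (w * z) = (a * x * y * w) * z := by simp [mul_assoc]
    _ = a := by rw [hw, hz]

theorem KR.mul_left {a x : S} (h : KR a x) (u : S) : KR (u * a) x := by
  obtain ⟨z, hz⟩ := h
  refine ⟨z, ?_⟩
  calc u * a * x * z = u * (a * x * z) := by simp [mul_assoc]
    _ = u * a := by rw [hz]

theorem KL.of_mul {b x y : S} (h : KL (x * y) b) : KL y b := by
  obtain ⟨z, hz⟩ := h
  exact ⟨z * x, by simpa [mul_assoc] using hz⟩

theorem KL.of_mul' {b x y : S} (h : KL (x * y) b) : KL x (y * b) := by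
  obtain ⟨z, hz⟩ := h
  refine ⟨y * z, ?_⟩
  calc y * z * (x * (y * b)) = y * (z * (x * y * b)) := by simp [mul_assoc]
    _ = y * b := by rw [hz]

theorem KL.trans {b x y : S} (h : KL y b) (h' : KL x (y * b)) : KL (x * y) b := by
  obtain ⟨z, hz⟩ := h
  obtain ⟨w, hw⟩ := h'
  refine ⟨z * w, ?_⟩
  calc z * w * (x * y * b) = z * (w * (x * (y * b))) := by simp [mul_assoc]
    _ = b := by rw [hw, hz]

theorem KL.mul_right {b x : S} (h : KL x b) (u : S) : KL x (b * u) := by
  obtain ⟨z, hz⟩ := h
  refine ⟨z, ?_⟩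
  calc z * (x * (b * u)) = (z * (x * b)) * u := by simp [mul_assoc]
    _ = b * u := by rw [hz]

theorem KR.iff_left {e y : S} (h : KL e y) (b : S) : KR (e * y) b ↔ KR y b := by
  refine ⟨fun h' => ?_, fun h' => h'.mul_left e⟩
  obtain ⟨v, hv⟩ := h
  rw [← hv]
  exact h'.mul_left v

theorem KL.iff_right {c q : S} (h : KR c q) (a : S) : KL a (c * q) ↔ KL a c := by
  refine ⟨fun h' => ?_, fun h' => h'.mul_right q⟩
  obtain ⟨v, hv⟩ := h
  rw [← hv]
  exact h'.mul_right v

theorem KL.iff_left {e y : S} (h : KL e y) (c : S) : KL (e * y) c ↔ KL y c :=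
  ⟨fun h' => h'.of_mul, fun h' => h'.trans (h.mul_right c)⟩

theorem KR.iff_right {a e : S} (h : KR a e) (x : S) : KR x (a * e) ↔ KR x a :=
  ⟨fun h' => h'.of_mul, fun h' => h'.trans (h.mul_left x)⟩

theorem KL.iff_mid {e y : S} (h : KL e y) (a : S) : KL (a * e) y ↔ KL a (e * y) :=
  ⟨fun h' => h'.of_mul', fun h' => h.trans h'⟩

theorem KR.iff_mid {a e : S} (h : KR a e) (y : S) : KR (a * e) y ↔ KR a (e * y) :=
  ⟨fun h' => h.trans h', fun h' => h'.of_mul'⟩

variable (S M) in
/-- A monoid `M` generated by copies of the idempotents of `S` subject to (at least) the basic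
relations, with a projection to `S`. -/
structure Setup where
  /-- projection -/
  π : M →* S
  /-- generators -/
  ι : S → M
  π_ι : ∀ e, IsIdempotentElem e → π (ι e) = e
  basic : ∀ e f, IsIdempotentElem e → IsIdempotentElem f →
    (e * f = e ∨ e * f = f ∨ f * e = e ∨ f * e = f) → ι e * ι f = ι (e * f)
  gen : ∀ a : M, ∃ l : List S, (∀ e ∈ l, IsIdempotentElem e) ∧ a = (l.map ι).prod

namespace Setup

variable (T : Setup S M)

theorem b1 {e f : S} (he : IsIdempotentElem e) (hf : IsIdempotentElem f) (h : e * f = e) :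
    T.ι e * T.ι f = T.ι e := by rw [T.basic e f he hf (Or.inl h), h]

theorem b2 {e f : S} (he : IsIdempotentElem e) (hf : IsIdempotentElem f) (h : e * f = f) :
    T.ι e * T.ι f = T.ι f := by rw [T.basic e f he hf (Or.inr (Or.inl h)), h]

theorem b3 {e f : S} (he : IsIdempotentElem e) (hf : IsIdempotentElem f) (h : f * e = e) :
    T.ι e * T.ι f = T.ι (e * f) := T.basic e f he hf (Or.inr (Or.inr (Or.inl h)))

theorem b4 {e f : S} (he : IsIdempotentElem e) (hf : IsIdempotentElem f) (h : f * e = f) :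
    T.ι e * T.ι f = T.ι (e * f) := T.basic e f he hf (Or.inr (Or.inr (Or.inr h)))

/-- Regular elements of `M`. -/
def Reg (a : M) : Prop :=
  (∃ e, IsIdempotentElem e ∧ T.ι e * a = a ∧ ∃ x, a * x = T.ι e) ∧
  (∃ f, IsIdempotentElem f ∧ a * T.ι f = a ∧ ∃ x, x * a = T.ι f)

theorem reg_ι {e : S} (he : IsIdempotentElem e) : T.Reg (T.ι e) :=
  ⟨⟨e, he, T.b1 he he he, 1, mul_one _⟩, ⟨e, he, T.b1 he he he, 1, one_mul _⟩⟩

variable {T}

theorem Reg.fixR {a : M} (ha : T.Reg a) {e : S} (he : IsIdempotentElem e)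
    (h : T.π a * e = T.π a) : a * T.ι e = a := by
  obtain ⟨f, hf, h1, x, hx⟩ := ha.2
  have h2 : f * e = f := by
    rw [← T.π_ι f hf, ← hx, map_mul, mul_assoc, h]
  rw [← h1, mul_assoc, T.b1 hf he h2]

theorem Reg.fixL {a : M} (ha : T.Reg a) {e : S} (he : IsIdempotentElem e)
    (h : e * T.π a = T.π a) : T.ι e * a = a := by
  obtain ⟨f, hf, h1, x, hx⟩ := ha.1
  have h2 : e * f = f := by
    rw [← T.π_ι f hf, ← hx, map_mul, ← mul_assoc, h]
  rw [← h1, ← mul_assoc, T.b2 he hf h2]

/-- The sandwich argument on the right. -/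
theorem Reg.sandR {a : M} (ha : T.Reg a) {e : S} (he : IsIdempotentElem e) (h : KR (T.π a) e) :
    ∃ k, IsIdempotentElem k ∧ IsIdempotentElem (k * e) ∧ k * e * k = k ∧
      a * T.ι k = a ∧ (∃ x, x * a = T.ι k) ∧ T.ι k * T.ι e = T.ι (k * e) := by
  obtain ⟨f, hf, h1, x, hx⟩ := ha.2
  obtain ⟨y, hy⟩ := h
  have h2 : f * e * y = f := by
    rw [← T.π_ι f hf, ← hx, map_mul]
    calc T.π x * T.π a * e * y = T.π x * (T.π a * e * y) := by simp [mul_assoc]
      _ = _ := by rw [hy]
  have hk : IsIdempotentElem (e * y * f) := by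
    unfold IsIdempotentElem
    calc e * y * f * (e * y * f) = e * y * (f * e * y) * f := by simp [mul_assoc]
      _ = e * y * (f * f) := by rw [h2]; simp [mul_assoc]
      _ = _ := by rw [hf.eq]
  have hek : e * (e * y * f) = e * y * f := by rw [← mul_assoc, ← mul_assoc, he.eq]
  have hfk : f * (e * y * f) = f := by rw [← mul_assoc, ← mul_assoc, h2, hf.eq]
  have hkf : e * y * f * f = e * y * f := by rw [mul_assoc _ f f, hf.eq]
  have hkek : e * y * f * e * (e * y * f) = e * y * f := by
    rw [mul_assoc _ e, hek, hk.eq]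
  refine ⟨e * y * f, hk, ?_, hkek, ?_, ⟨T.ι (e * y * f) * x, ?_⟩, T.b3 hk he hek⟩
  · unfold IsIdempotentElem
    rw [← mul_assoc, hkek]
  · rw [← h1, mul_assoc, T.b1 hf hk hfk]
  · rw [mul_assoc, hx, T.b1 hk hf hkf]

/-- The sandwich argument on the left. -/
theorem Reg.sandL {a : M} (ha : T.Reg a) {e : S} (he : IsIdempotentElem e) (h : KL e (T.π a)) :
    ∃ k, IsIdempotentElem k ∧ IsIdempotentElem (e * k) ∧ k * (e * k) = k ∧
      T.ι k * a = a ∧ (∃ x, a * x = T.ι k) ∧ T.ι e * T.ι k = T.ι (e * k) := by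
  obtain ⟨f, hf, h1, x, hx⟩ := ha.1
  obtain ⟨y, hy⟩ := h
  have h2 : y * (e * f) = f := by
    rw [← T.π_ι f hf, ← hx, map_mul]
    calc y * (e * (T.π a * T.π x)) = (y * (e * T.π a)) * T.π x := by simp [mul_assoc]
      _ = _ := by rw [hy]
  have hk : IsIdempotentElem (f * y * e) := by
    unfold IsIdempotentElem
    calc f * y * e * (f * y * e) = f * (y * (e * f)) * y * e := by simp [mul_assoc]
      _ = (f * f) * y * e := by rw [h2]
      _ = _ := by rw [hf.eq]
  have hke : f * y * e * e = f * y * e := by rw [mul_assoc _ e e, he.eq]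
  have hkf : f * y * e * f = f := by rw [mul_assoc, mul_assoc, h2, hf.eq]
  have hfk : f * (f * y * e) = f * y * e := by rw [← mul_assoc, ← mul_assoc, hf.eq]
  have hkek : f * y * e * (e * (f * y * e)) = f * y * e := by
    rw [← mul_assoc, hke, hk.eq]
  refine ⟨f * y * e, hk, ?_, hkek, ?_, ⟨x * T.ι (f * y * e), ?_⟩, T.b4 he hk hke⟩
  · unfold IsIdempotentElem
    rw [mul_assoc, hkek]
  · rw [← h1, ← mul_assoc, T.b2 hk hf hkf]
  · rw [← mul_assoc, hx, T.b2 hf hk hfk]

theorem Reg.stepR {a : M} (ha : T.Reg a) {e : S} (he : IsIdempotentElem e) (h : KR (T.π a) e) :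
    T.Reg (a * T.ι e) ∧ KR a (T.ι e) := by
  obtain ⟨k, hk, hke, hkek, h1, ⟨x, hx⟩, h2⟩ := ha.sandR he h
  have h3 : a * T.ι e = a * T.ι (k * e) := by rw [← h2, ← mul_assoc, h1]
  have h4 : a * T.ι e * T.ι k = a := by
    rw [h3, mul_assoc, T.b2 hke hk hkek, h1]
  refine ⟨⟨?_, k * e, hke, ?_, x, ?_⟩, T.ι k, h4⟩
  · obtain ⟨f, hf, h5, y, hy⟩ := ha.1
    exact ⟨f, hf, by rw [← mul_assoc, h5], T.ι k * y, by rw [← mul_assoc, h4, hy]⟩
  · rw [h3, mul_assoc, T.b1 hke hke hke]
  · rw [← mul_assoc, hx, h2]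

theorem Reg.stepL {a : M} (ha : T.Reg a) {e : S} (he : IsIdempotentElem e) (h : KL e (T.π a)) :
    T.Reg (T.ι e * a) ∧ KL (T.ι e) a := by
  obtain ⟨k, hk, hke, hkek, h1, ⟨x, hx⟩, h2⟩ := ha.sandL he h
  have h3 : T.ι e * a = T.ι (e * k) * a := by rw [← h2, mul_assoc, h1]
  have h4 : T.ι k * (T.ι e * a) = a := by
    rw [h3, ← mul_assoc, T.b1 hk hke hkek, h1]
  refine ⟨⟨⟨e * k, hke, ?_, x, ?_⟩, ?_⟩, T.ι k, h4⟩
  · rw [h3, ← mul_assoc, T.b1 hke hke hke]
  · rw [mul_assoc, hx, h2]
  · obtain ⟨f, hf, h5, y, hy⟩ := ha.2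
    exact ⟨f, hf, by rw [mul_assoc, h5], y * T.ι k, by rw [mul_assoc, h4, hy]⟩

theorem Reg.mulR {a : M} (ha : T.Reg a) (w : M) (h : KR (T.π a) (T.π w)) :
    T.Reg (a * w) ∧ KR a w := by
  obtain ⟨l, hl, rfl⟩ := T.gen w
  induction l generalizing a with
  | nil => exact ⟨by simpa using ha, 1, by simp⟩
  | cons e l ih =>
    have he := hl e (by simp)
    simp only [List.map_cons, List.prod_cons, map_mul, T.π_ι e he] at h ⊢
    obtain ⟨h1, h2⟩ := ha.stepR he h.of_mul
    have h3 := ih h1 (fun f hf => hl f (by simp [hf])) (by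
      rw [map_mul, T.π_ι e he]; exact h.of_mul')
    exact ⟨by rw [← mul_assoc]; exact h3.1, h2.trans h3.2⟩

theorem Reg.mulL {a : M} (ha : T.Reg a) (w : M) (h : KL (T.π w) (T.π a)) :
    T.Reg (w * a) ∧ KL w a := by
  obtain ⟨l, hl, rfl⟩ := T.gen w
  induction l with
  | nil => exact ⟨by simpa using ha, 1, by simp⟩
  | cons e l ih =>
    have he := hl e (by simp)
    simp only [List.map_cons, List.prod_cons, map_mul, T.π_ι e he] at h ⊢
    have h3 := ih (fun f hf => hl f (by simp [hf])) h.of_mul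
    obtain ⟨h1, h2⟩ := h3.1.stepL he (by rw [map_mul]; exact h.of_mul')
    exact ⟨by rw [mul_assoc]; exact h1, h3.2.trans h2⟩

theorem Reg.inv {a : M} (ha : T.Reg a) : ∃ x, a * x * a = a := by
  obtain ⟨e, -, h1, x, hx⟩ := ha.1
  exact ⟨x, by rw [hx, h1]⟩

/-- lifting the `R`-order -/
theorem Reg.liftR {a b : M} (ha : T.Reg a) (hb : T.Reg b) (h : ∃ x, T.π a = T.π b * x) :
    ∃ x, a = b * x := by
  obtain ⟨f, hf, h1, y, hy⟩ := hb.1
  obtain ⟨x, hx⟩ := h
  have h2 : f * T.π a = T.π a := by
    rw [hx, ← mul_assoc, ← T.π_ι f hf, ← map_mul, h1]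
  exact ⟨y * a, by rw [← mul_assoc, hy, ha.fixL hf h2]⟩

/-- lifting the `L`-order -/
theorem Reg.liftL {a b : M} (ha : T.Reg a) (hb : T.Reg b) (h : ∃ x, T.π a = x * T.π b) :
    ∃ x, a = x * b := by
  obtain ⟨f, hf, h1, y, hy⟩ := hb.2
  obtain ⟨x, hx⟩ := h
  have h2 : T.π a * f = T.π a := by
    rw [hx, mul_assoc, ← T.π_ι f hf, ← map_mul, h1]
  exact ⟨a * y, by rw [mul_assoc, hy, ha.fixR hf h2]⟩

variable (T)

open Classical in
/-- absorb the top of the stack into `c` as long as the `L`-class of `c` is kept -/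
noncomputable def absorb : List M → M → List M
  | [], c => [c]
  | a :: s, c => if KL (T.π a) (T.π c) then absorb s (a * c) else c :: a :: s

open Classical in
/-- push a regular element on the stack -/
noncomputable def act : List M → M → List M
  | [], b => [b]
  | a :: s, b => if KR (T.π a) (T.π b) then (a * b) :: s else T.absorb (a :: s) b

/-- moving an idempotent between neighbours -/
inductive Step : List M → List M → Prop
  | here (a b : M) (e : S) (s : List M) : IsIdempotentElem e → T.Reg a → T.Reg b →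
      KR (T.π a) e → KL e (T.π b) → Step (b :: (a * T.ι e) :: s) ((T.ι e * b) :: a :: s)
  | there (z : M) {s s' : List M} : Step s s' → Step (z :: s) (z :: s')

variable {T}

theorem absorb_pos {a c : M} (s : List M) (h : KL (T.π a) (T.π c)) :
    T.absorb (a :: s) c = T.absorb s (a * c) := by simp [absorb, h]

theorem absorb_neg {a c : M} (s : List M) (h : ¬ KL (T.π a) (T.π c)) :
    T.absorb (a :: s) c = c :: a :: s := by simp [absorb, h]

theorem act_pos {a b : M} (s : List M) (h : KR (T.π a) (T.π b)) :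
    T.act (a :: s) b = (a * b) :: s := by simp [act, h]

theorem act_neg {a b : M} (s : List M) (h : ¬ KR (T.π a) (T.π b)) :
    T.act (a :: s) b = T.absorb (a :: s) b := by simp [act, h]

open Relation

theorem Step.absorb {s s' : List M} (h : T.Step s s') :
    ∀ c, T.Reg c → EqvGen T.Step (T.absorb s c) (T.absorb s' c) := by
  induction h with
  | here a y e r he ha hy h1 h2 =>
    intro c hc
    have e1 : KL (T.π (T.ι e * y)) (T.π c) ↔ KL (T.π y) (T.π c) := by
      rw [map_mul, T.π_ι e he]; exact h2.iff_left _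
    by_cases k1 : KL (T.π y) (T.π c)
    · rw [absorb_pos _ k1, absorb_pos _ (e1.mpr k1)]
      have h3 : KL e (T.π (y * c)) := by rw [map_mul]; exact h2.mul_right _
      have e2 : KL (T.π (a * T.ι e)) (T.π (y * c)) ↔ KL (T.π a) (T.π (T.ι e * y * c)) := by
        rw [map_mul, T.π_ι e he, mul_assoc, map_mul _ (T.ι e), T.π_ι e he]
        exact h3.iff_mid _
      by_cases k2 : KL (T.π (a * T.ι e)) (T.π (y * c))
      · rw [absorb_pos _ k2, absorb_pos _ (e2.mp k2)]
        simp only [mul_assoc]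
        exact EqvGen.refl _
      · rw [absorb_neg _ k2, absorb_neg _ (fun h => k2 (e2.mpr h)), mul_assoc]
        exact EqvGen.rel _ _ (Step.here a (y * c) e r he ha (hc.mulL y k1).1 h1 h3)
    · rw [absorb_neg _ k1, absorb_neg _ (fun h => k1 (e1.mp h))]
      exact EqvGen.rel _ _ (Step.there c (Step.here a y e r he ha hy h1 h2))
  | there z h ih =>
    intro c hc
    by_cases k1 : KL (T.π z) (T.π c)
    · rw [absorb_pos _ k1, absorb_pos _ k1]
      exact ih _ (hc.mulL z k1).1
    · rw [absorb_neg _ k1, absorb_neg _ k1]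
      exact EqvGen.rel _ _ (Step.there c (Step.there z h))

theorem Step.act {s s' : List M} (h : T.Step s s') (b : M) (hb : T.Reg b) :
    EqvGen T.Step (T.act s b) (T.act s' b) := by
  have h' := h.absorb b hb
  cases h with
  | here a y e r he ha hy h1 h2 =>
    have e1 : KR (T.π (T.ι e * y)) (T.π b) ↔ KR (T.π y) (T.π b) := by
      rw [map_mul, T.π_ι e he]; exact KR.iff_left h2 _
    by_cases k1 : KR (T.π y) (T.π b)
    · rw [act_pos _ k1, act_pos _ (e1.mpr k1), mul_assoc]
      exact EqvGen.rel _ _ (Step.here a (y * b) e r he ha (hy.mulR b k1).1 h1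
        (by rw [map_mul]; exact h2.mul_right _))
    · rw [act_neg _ k1, act_neg _ (fun h => k1 (e1.mp h))]
      exact h'
  | there z h =>
    by_cases k1 : KR (T.π z) (T.π b)
    · rw [act_pos _ k1, act_pos _ k1]
      exact EqvGen.rel _ _ (Step.there _ h)
    · rw [act_neg _ k1, act_neg _ k1]
      exact h'

theorem eqv_act {s s' : List M} (h : EqvGen T.Step s s') (b : M) (hb : T.Reg b) :
    EqvGen T.Step (T.act s b) (T.act s' b) := by
  induction h with
  | rel _ _ h => exact h.act b hb
  | refl => exact EqvGen.refl _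
  | symm _ _ _ ih => exact ih.symm
  | trans _ _ _ _ _ ih1 ih2 => exact ih1.trans _ _ _ ih2

theorem act_absorb_R (s : List M) (q : M) : ∀ c, KR (T.π c) (T.π q) →
    T.act (T.absorb s c) q = T.absorb s (c * q) := by
  induction s with
  | nil => intro c h; simp [absorb, act, h]
  | cons a s ih =>
    intro c h
    have e1 : KL (T.π a) (T.π (c * q)) ↔ KL (T.π a) (T.π c) := by
      rw [map_mul]; exact KL.iff_right h _
    by_cases k : KL (T.π a) (T.π c)
    · rw [absorb_pos _ k, absorb_pos _ (e1.mpr k), ih _ (by rw [map_mul]; exact h.mul_left _),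
        mul_assoc]
    · rw [absorb_neg _ k, absorb_neg _ (fun h' => k (e1.mp h')), act_pos _ h]

theorem act_absorb_L (s : List M) (q : M) : ∀ c, ¬ KR (T.π c) (T.π q) → KL (T.π c) (T.π q) →
    T.act (T.absorb s c) q = T.absorb s (c * q) := by
  induction s with
  | nil => intro c h h'; simp [absorb, act, h, h']
  | cons a s ih =>
    intro c h h'
    by_cases k : KL (T.π a) (T.π c)
    · rw [absorb_pos _ k, absorb_pos _ (by rw [map_mul]; exact k.mul_right _), ih, mul_assoc]
      · rw [map_mul, KR.iff_left k]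
        exact h
      · rw [map_mul, KL.iff_left k]
        exact h'
    · rw [absorb_neg _ k, act_neg _ h, absorb_pos _ h']

theorem act_act (s : List M) (hs : ∀ a ∈ s, T.Reg a) {e f : S} (he : IsIdempotentElem e)
    (hf : IsIdempotentElem f) (h : KR e f ∨ KL e f) :
    EqvGen T.Step (T.act (T.act s (T.ι e)) (T.ι f)) (T.act s (T.ι e * T.ι f)) := by
  have pe := T.π_ι e he
  have pf := T.π_ι f hf
  by_cases hR : KR e f
  · have hR' : KR (T.π (T.ι e)) (T.π (T.ι f)) := by rwa [pe, pf]
    rcases s with _ | ⟨a, s⟩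
    · simp only [act, hR', if_true]
      exact EqvGen.refl _
    · by_cases k : KR (T.π a) (T.π (T.ι e))
      · rw [act_pos _ k, act_pos _ (by rw [map_mul]; exact hR'.mul_left _),
          act_pos _ (by rw [map_mul]; exact k.trans (hR'.mul_left _)), mul_assoc]
        exact EqvGen.refl _
      · rw [act_neg _ k, act_absorb_R _ _ _ hR', act_neg _ (by
          rw [map_mul]; exact fun h' => k h'.of_mul)]
        exact EqvGen.refl _
  · have hL : KL (T.π (T.ι e)) (T.π (T.ι f)) := by rw [pe, pf]; exact h.resolve_left hR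
    have hR' : ¬ KR (T.π (T.ι e)) (T.π (T.ι f)) := by rwa [pe, pf]
    rcases s with _ | ⟨a, s⟩
    · simp only [act, hR', if_false, absorb, hL, if_true]
      exact EqvGen.refl _
    · by_cases k : KR (T.π a) (T.π (T.ι e))
      · rw [act_pos _ k]
        have e1 : KR (T.π (a * T.ι e)) (T.π (T.ι f)) ↔ KR (T.π a) (T.π (T.ι e * T.ι f)) := by
          rw [map_mul, map_mul]; exact k.iff_mid _
        by_cases k2 : KR (T.π (a * T.ι e)) (T.π (T.ι f))
        · rw [act_pos _ k2, act_pos _ (e1.mp k2), mul_assoc]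
          exact EqvGen.refl _
        · rw [act_neg _ k2, act_neg _ (fun h' => k2 (e1.mpr h'))]
          have e2 : KL (T.π (a * T.ι e)) (T.π (T.ι f)) ↔ KL (T.π a) (T.π (T.ι e * T.ι f)) := by
            rw [map_mul, map_mul]; exact hL.iff_mid _
          by_cases k3 : KL (T.π (a * T.ι e)) (T.π (T.ι f))
          · rw [absorb_pos _ k3, absorb_pos _ (e2.mp k3), mul_assoc]
            exact EqvGen.refl _
          · rw [absorb_neg _ k3, absorb_neg _ (fun h' => k3 (e2.mpr h'))]
            exact EqvGen.rel _ _ (Step.here a (T.ι f) e s he (hs a (by simp)) (T.reg_ι hf)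
              (pe ▸ k) (pe ▸ hL))
      · rw [act_neg _ k, act_absorb_L _ _ _ hR' hL, act_neg _ (by
          rw [map_mul]; exact fun h' => k h'.of_mul)]
        exact EqvGen.refl _

theorem prod_absorb (s : List M) : ∀ c, (T.absorb s c).reverse.prod = s.reverse.prod * c := by
  induction s with
  | nil => intro c; simp [absorb]
  | cons a s ih =>
    intro c
    by_cases k : KL (T.π a) (T.π c)
    · rw [absorb_pos _ k, ih]; simp [mul_assoc]
    · rw [absorb_neg _ k]; simp [mul_assoc]

theorem prod_act (s : List M) (b : M) : (T.act s b).reverse.prod = s.reverse.prod * b := by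
  rcases s with _ | ⟨a, s⟩
  · simp [act]
  · by_cases k : KR (T.π a) (T.π b)
    · rw [act_pos _ k]; simp [mul_assoc]
    · rw [act_neg _ k, prod_absorb]

theorem Step.prod {s s' : List M} (h : T.Step s s') : s.reverse.prod = s'.reverse.prod := by
  induction h with
  | here a y e r => simp [mul_assoc]
  | there z _ ih => simp [ih]

theorem eqv_prod {s s' : List M} (h : EqvGen T.Step s s') : s.reverse.prod = s'.reverse.prod := by
  induction h with
  | rel _ _ h => exact h.prod
  | refl => rfl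
  | symm _ _ _ ih => exact ih.symm
  | trans _ _ _ _ _ ih1 ih2 => exact ih1.trans ih2

variable (T) in
/-- neighbours on the stack do not merge -/
def Apart (y x : M) : Prop := ¬ KR (T.π x) (T.π y) ∧ ¬ KL (T.π x) (T.π y)

variable (T) in
/-- reduced stacks -/
def Good (s : List M) : Prop := (∀ a ∈ s, T.Reg a) ∧ s.IsChain T.Apart

theorem good_absorb (s : List M) : ∀ c, T.Good s → T.Reg c →
    (∀ a ∈ s.head?, ¬ KR (T.π a) (T.π c)) → T.Good (T.absorb s c) := by
  induction s with
  | nil => intro c _ hc _; exact ⟨by simpa [absorb] using hc, by simp [absorb]⟩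
  | cons a s ih =>
    intro c hs hc h
    by_cases k : KL (T.π a) (T.π c)
    · rw [absorb_pos _ k]
      refine ih _ ⟨fun x hx => hs.1 x (by simp [hx]), hs.2.tail⟩ (hc.mulL a k).1 ?_
      intro x hx h'
      rw [map_mul] at h'
      exact ((List.isChain_cons.mp hs.2).1 x hx).1 h'.of_mul
    · rw [absorb_neg _ k]
      refine ⟨?_, List.isChain_cons_cons.mpr ⟨⟨h a (by simp), k⟩, hs.2⟩⟩
      intro x hx
      rcases List.mem_cons.mp hx with rfl | hx
      · exact hc
      · exact hs.1 x hx

theorem good_act {s : List M} (hs : T.Good s) {b : M} (hb : T.Reg b) : T.Good (T.act s b) := by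
  rcases s with _ | ⟨a, s⟩
  · exact ⟨by simpa [act] using hb, by simp [act]⟩
  · by_cases k : KR (T.π a) (T.π b)
    · rw [act_pos _ k]
      refine ⟨?_, List.isChain_cons.mpr ⟨?_, hs.2.tail⟩⟩
      · intro x hx
        rcases List.mem_cons.mp hx with rfl | hx
        · exact ((hs.1 a (by simp)).mulR b k).1
        · exact hs.1 x (by simp [hx])
      · intro x hx
        have h1 := (List.isChain_cons.mp hs.2).1 x hx
        rw [Apart, map_mul, k.iff_right, KL.iff_right k]
        exact h1
    · rw [act_neg _ k]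
      exact good_absorb _ _ hs hb (by simpa using k)

theorem Step.good {s s' : List M} (h : T.Step s s') :
    (T.Good s ↔ T.Good s') ∧ ∀ z, (∀ y ∈ s.head?, T.Apart z y) ↔ (∀ y ∈ s'.head?, T.Apart z y) := by
  induction h with
  | here a y e r he ha hy h1 h2 =>
    have pe := T.π_ι e he
    constructor
    · simp only [Good, List.forall_mem_cons, List.isChain_cons_cons, ha, hy, (ha.stepR he h1).1,
        (hy.stepL he h2).1, true_and]
      refine and_congr_right fun _ => and_congr ?_ ?_
      · simp only [Apart, map_mul, pe, h1.iff_mid, h2.iff_mid]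
      · simp only [List.isChain_cons, Apart, map_mul, pe, h1.iff_right, KL.iff_right h1]
    · intro z
      simp only [List.head?_cons, Option.mem_def, Option.some.injEq, forall_eq', Apart, map_mul,
        pe, KR.iff_left h2, h2.iff_left]
  | there z _ ih =>
    refine ⟨?_, fun _ => Iff.rfl⟩
    have h1 := ih.1
    have h2 := ih.2 z
    simp only [Good, List.forall_mem_cons, List.isChain_cons] at h1 ⊢
    tauto

variable (T) in
/-- the stack normal form of a word -/
noncomputable def nf (s : List M) (l : List S) : List M := l.foldl (fun s e => T.act s (T.ι e)) s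

theorem nf_append (s : List M) (l l' : List S) : T.nf s (l ++ l') = T.nf (T.nf s l) l' :=
  List.foldl_append

theorem good_nf (l : List S) (hl : ∀ e ∈ l, IsIdempotentElem e) :
    ∀ s, T.Good s → T.Good (T.nf s l) := by
  induction l with
  | nil => exact fun s h => h
  | cons e l ih =>
    intro s hs
    exact ih (fun f hf => hl f (by simp [hf])) _ (good_act hs (T.reg_ι (hl e (by simp))))

theorem eqv_nf (l : List S) (hl : ∀ e ∈ l, IsIdempotentElem e) :
    ∀ s s', EqvGen T.Step s s' → EqvGen T.Step (T.nf s l) (T.nf s' l) := by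
  induction l with
  | nil => exact fun s s' h => h
  | cons e l ih =>
    intro s s' hs
    exact ih (fun f hf => hl f (by simp [hf])) _ _ (eqv_act hs _ (T.reg_ι (hl e (by simp))))

theorem prod_nf (l : List S) : ∀ s, (T.nf s l).reverse.prod = s.reverse.prod * (l.map T.ι).prod := by
  induction l with
  | nil => intro s; simp [nf]
  | cons e l ih =>
    intro s
    have := ih (T.act s (T.ι e))
    rw [prod_act] at this
    simpa [nf, mul_assoc] using this

theorem good_nil : T.Good [] := ⟨by simp, by simp⟩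

theorem nf_basic (u v : List S) (hu : ∀ e ∈ u, IsIdempotentElem e)
    (hv : ∀ e ∈ v, IsIdempotentElem e) {e f : S} (he : IsIdempotentElem e)
    (hf : IsIdempotentElem f) (h : e * f = e ∨ e * f = f ∨ f * e = e ∨ f * e = f) :
    EqvGen T.Step (T.nf [] (u ++ [e, f] ++ v)) (T.nf [] (u ++ [e * f] ++ v)) := by
  rw [nf_append, nf_append, nf_append, nf_append]
  refine eqv_nf v hv _ _ ?_
  have h1 : KR e f ∨ KL e f := by
    rcases h with h | h | h | h
    · exact Or.inl ⟨1, by rw [mul_one, h]⟩
    · exact Or.inr ⟨1, by rw [one_mul, h]⟩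
    · exact Or.inl ⟨e, by rw [mul_assoc, h, he.eq]⟩
    · exact Or.inr ⟨f, by rw [← mul_assoc, h, hf.eq]⟩
  have := act_act (T.nf [] u) (good_nf u hu _ good_nil).1 he hf h1
  rw [T.basic e f he hf h] at this
  exact this

end Setup

end Pool.Agent.Work.MP_5b5e81_al
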