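import Mathlib
import Pool.Agent.Work.MP_5b5e81_al.IG

-- merged part: Pool.Agent.Work.MP_5b5e81_al.Part
section
/-! The partition monoid, described through colourings which are constant on blocks. -/

set_option autoImplicit false

namespace Pool.Agent.Work.MP_5b5e81_al

open Relation

/-- set partitions of two rows of `n` points -/
def Pt (n : ℕ) : Type := Setoid (Bool × Fin n)

variable {n : ℕ}

/-- the colouring with `x` on the upper row and `y` on the lower row -/
def col (x y : Fin n → ℚ) (u : Bool × Fin n) : ℚ := if u.1 = true then y u.2 else x u.2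

@[simp] theorem col_false (x y : Fin n → ℚ) (i : Fin n) : col x y (false, i) = x i := by
  simp [col]

@[simp] theorem col_true (x y : Fin n → ℚ) (i : Fin n) : col x y (true, i) = y i := by
  simp [col]

theorem eqvGen_const {X Y : Type} {r : X → X → Prop} {F : X → Y} (h : ∀ u v, r u v → F u = F v)
    {u v : X} (huv : EqvGen r u v) : F u = F v := by
  induction huv with
  | rel _ _ h' => exact h _ _ h'
  | refl => rfl
  | symm _ _ _ ih => exact ih.symm
  | trans _ _ _ _ _ ih1 ih2 => exact ih1.trans ih2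

namespace Pt

/-- the relation of a partition -/
def r (α : Pt n) : Bool × Fin n → Bool × Fin n → Prop := Setoid.r (self := α)

theorem eqv (α : Pt n) : Equivalence α.r := Setoid.iseqv (self := α)

theorem ext_r {α β : Pt n} (h : ∀ u v, α.r u v ↔ β.r u v) : α = β := Setoid.ext h

/-- the colouring `(x, y)` is constant on the blocks -/
def ρ (α : Pt n) (x y : Fin n → ℚ) : Prop := ∀ u v, α.r u v → col x y u = col x y v

theorem r_iff (α : Pt n) (u v : Bool × Fin n) :
    α.r u v ↔ ∀ x y, α.ρ x y → col x y u = col x y v := by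
  classical
  refine ⟨fun h x y hxy => hxy u v h, fun h => ?_⟩
  have hc : ∀ w, col (fun i => if α.r u (false, i) then 1 else 0)
      (fun i => if α.r u (true, i) then 1 else 0) w = if α.r u w then 1 else 0 := by
    rintro ⟨_ | _, i⟩ <;> simp
  have h1 := h (fun i => if α.r u (false, i) then 1 else 0)
      (fun i => if α.r u (true, i) then 1 else 0) (by
    intro a b hab
    rw [hc, hc]
    have : α.r u a ↔ α.r u b := ⟨fun h => α.eqv.trans h hab, fun h => α.eqv.trans h (α.eqv.symm hab)⟩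
    simp [this])
  rw [hc, hc, if_pos (α.eqv.refl u)] at h1
  by_contra h2
  rw [if_neg h2] at h1
  exact one_ne_zero h1

theorem ext_ρ {α β : Pt n} (h : ∀ x y, α.ρ x y ↔ β.ρ x y) : α = β :=
  ext_r fun u v => by simp only [r_iff, h]

/-- the gluing relation on three rows -/
def glue (α β : Bool × Fin n → Bool × Fin n → Prop) (p q : Fin 3 × Fin n) : Prop :=
  (∃ u v : Bool × Fin n, α u v ∧ p = ((if u.1 = true then 1 else 0 : Fin 3), u.2) ∧
    q = ((if v.1 = true then 1 else 0 : Fin 3), v.2)) ∨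
  (∃ u v : Bool × Fin n, β u v ∧ p = ((if u.1 = true then 2 else 1 : Fin 3), u.2) ∧
    q = ((if v.1 = true then 2 else 1 : Fin 3), v.2))

/-- the outer rows -/
def outer (x : Bool × Fin n) : Fin 3 × Fin n := ((if x.1 = true then 2 else 0 : Fin 3), x.2)

/-- product of partitions -/
def mul (α β : Pt n) : Pt n := Setoid.comap outer (EqvGen.setoid (glue α.r β.r))

theorem mul_r (α β : Pt n) (u v : Bool × Fin n) :
    (mul α β).r u v ↔ EqvGen (glue α.r β.r) (outer u) (outer v) := Iff.rfl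

theorem ρ_mul' (α β : Pt n) (x z : Fin n → ℚ) :
    (mul α β).ρ x z ↔ ∃ y, α.ρ x y ∧ β.ρ y z := by
  classical
  constructor
  · intro h
    let G : Fin 3 × Fin n → ℚ := fun p =>
      if hp : ∃ u, EqvGen (glue α.r β.r) p (outer u) then col x z hp.choose else 0
    have hG : ∀ p q, EqvGen (glue α.r β.r) p q → G p = G q := by
      intro p q hpq
      by_cases hp : ∃ u, EqvGen (glue α.r β.r) p (outer u)
      · have hq : ∃ u, EqvGen (glue α.r β.r) q (outer u) :=
          ⟨hp.choose, (hpq.symm _ _).trans _ _ _ hp.choose_spec⟩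
        simp only [G, dif_pos hp, dif_pos hq]
        exact h _ _ ((hp.choose_spec.symm _ _).trans _ _ _ (hpq.trans _ _ _ hq.choose_spec))
      · have hq : ¬ ∃ u, EqvGen (glue α.r β.r) q (outer u) :=
          fun ⟨u, hu⟩ => hp ⟨u, hpq.trans _ _ _ hu⟩
        simp only [G, dif_neg hp, dif_neg hq]
    have hO : ∀ u, G (outer u) = col x z u := by
      intro u
      have hp : ∃ v, EqvGen (glue α.r β.r) (outer u) (outer v) := ⟨u, EqvGen.refl _⟩
      simp only [G, dif_pos hp]
      exact (h _ _ hp.choose_spec).symm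
    refine ⟨fun i => G (1, i), ?_, ?_⟩
    · have h1 : ∀ u : Bool × Fin n, col x (fun i => G (1, i)) u =
          G ((if u.1 = true then 1 else 0 : Fin 3), u.2) := by
        rintro ⟨_ | _, i⟩
        · simpa [outer] using (hO (false, i)).symm
        · simp
      intro u v huv
      rw [h1, h1]
      exact hG _ _ (EqvGen.rel _ _ (Or.inl ⟨u, v, huv, rfl, rfl⟩))
    · have h1 : ∀ u : Bool × Fin n, col (fun i => G (1, i)) z u =
          G ((if u.1 = true then 2 else 1 : Fin 3), u.2) := by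
        rintro ⟨_ | _, i⟩
        · simp
        · simpa [outer] using (hO (true, i)).symm
      intro u v huv
      rw [h1, h1]
      exact hG _ _ (EqvGen.rel _ _ (Or.inr ⟨u, v, huv, rfl, rfl⟩))
  · rintro ⟨y, h1, h2⟩ u v huv
    let F : Fin 3 × Fin n → ℚ := fun p =>
      if p.1 = 0 then x p.2 else if p.1 = 1 then y p.2 else z p.2
    have hO : ∀ u, F (outer u) = col x z u := by
      rintro ⟨_ | _, i⟩ <;> simp [F, outer]
    have hA : ∀ u : Bool × Fin n, F ((if u.1 = true then 1 else 0 : Fin 3), u.2) = col x y u := by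
      rintro ⟨_ | _, i⟩ <;> simp [F]
    have hB : ∀ u : Bool × Fin n, F ((if u.1 = true then 2 else 1 : Fin 3), u.2) = col y z u := by
      rintro ⟨_ | _, i⟩ <;> simp [F]
    rw [← hO, ← hO]
    refine eqvGen_const ?_ huv
    rintro p q (⟨a, b, hab, rfl, rfl⟩ | ⟨a, b, hab, rfl, rfl⟩)
    · rw [hA, hA]; exact h1 _ _ hab
    · rw [hB, hB]; exact h2 _ _ hab

/-- the partition generated by a relation -/
def gen (s : Bool × Fin n → Bool × Fin n → Prop) : Pt n := EqvGen.setoid s

theorem ρ_gen (s : Bool × Fin n → Bool × Fin n → Prop) (x y : Fin n → ℚ) :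
    (gen s).ρ x y ↔ ∀ u v, s u v → col x y u = col x y v :=
  ⟨fun h u v huv => h u v (EqvGen.rel _ _ huv), fun h _ _ huv => eqvGen_const h huv⟩

/-- the identity partition -/
def one : Pt n := gen fun u v => ∃ i, u = (false, i) ∧ v = (true, i)

theorem ρ_one' (x y : Fin n → ℚ) : (one : Pt n).ρ x y ↔ y = x := by
  rw [one, ρ_gen]
  constructor
  · intro h
    funext i
    simpa using (h _ _ ⟨i, rfl, rfl⟩).symm
  · rintro rfl _ _ ⟨i, rfl, rfl⟩
    simp

instance : Monoid (Pt n) where
  mul := mul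
  one := one
  mul_assoc a b c := ext_ρ fun x z => by
    change (mul (mul a b) c).ρ x z ↔ (mul a (mul b c)).ρ x z
    simp only [ρ_mul']
    constructor
    · rintro ⟨y, ⟨w, h1, h2⟩, h3⟩
      exact ⟨w, h1, y, h2, h3⟩
    · rintro ⟨w, h1, y, h2, h3⟩
      exact ⟨y, ⟨w, h1, h2⟩, h3⟩
  one_mul a := ext_ρ fun x z => by
    change (mul one a).ρ x z ↔ _
    simp [ρ_mul', ρ_one']
  mul_one a := ext_ρ fun x z => by
    change (mul a one).ρ x z ↔ _
    simp [ρ_mul', ρ_one']

theorem mul_def (α β : Pt n) : α * β = mul α β := rfl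

theorem ρ_mul (α β : Pt n) (x z : Fin n → ℚ) : (α * β).ρ x z ↔ ∃ y, α.ρ x y ∧ β.ρ y z :=
  ρ_mul' α β x z

theorem ρ_one (x y : Fin n → ℚ) : (1 : Pt n).ρ x y ↔ y = x := ρ_one' x y

instance : Finite (Pt n) :=
  Finite.of_injective (fun α : Pt n => α.r) fun _ _ h => ext_r fun u v => by
    simp only at h
    rw [h]

theorem ρ_zero (α : Pt n) : α.ρ 0 0 := by
  rintro ⟨_ | _, i⟩ ⟨_ | _, j⟩ _ <;> simp

theorem ρ.add {α : Pt n} {x y x' y' : Fin n → ℚ} (h : α.ρ x y) (h' : α.ρ x' y') :
    α.ρ (x + x') (y + y') := by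
  intro u v huv
  have h1 := h u v huv
  have h2 := h' u v huv
  rcases u with ⟨_ | _, i⟩ <;> rcases v with ⟨_ | _, j⟩ <;> simp_all

theorem ρ.smul {α : Pt n} {x y : Fin n → ℚ} (h : α.ρ x y) (c : ℚ) : α.ρ (c • x) (c • y) := by
  intro u v huv
  have h1 := h u v huv
  rcases u with ⟨_ | _, i⟩ <;> rcases v with ⟨_ | _, j⟩ <;> simp_all

theorem ρ.sub {α : Pt n} {x y x' y' : Fin n → ℚ} (h : α.ρ x y) (h' : α.ρ x' y') :
    α.ρ (x - x') (y - y') := by
  intro u v huv
  have h1 := h u v huv
  have h2 := h' u v huv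
  rcases u with ⟨_ | _, i⟩ <;> rcases v with ⟨_ | _, j⟩ <;> simp_all

/-- reflection -/
def star (α : Pt n) : Pt n := Setoid.comap (fun u : Bool × Fin n => (!u.1, u.2)) α

theorem ρ_star (α : Pt n) (x y : Fin n → ℚ) : α.star.ρ x y ↔ α.ρ y x := by
  have hc : ∀ u : Bool × Fin n, col x y u = col y x (!u.1, u.2) := by
    rintro ⟨_ | _, i⟩ <;> simp
  constructor
  · intro h u v huv
    have := h (!u.1, u.2) (!v.1, v.2) (by
      change α.r _ _
      simpa using huv)
    rw [hc, hc] at this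
    simpa using this
  · intro h u v huv
    rw [hc, hc]
    exact h _ _ huv

theorem mul_star_mul (α : Pt n) : α * α.star * α = α := ext_ρ fun x z => by
  simp only [ρ_mul, ρ_star]
  constructor
  · rintro ⟨x', ⟨y, h1, h2⟩, h3⟩
    simpa using (h1.sub h2).add h3
  · intro h
    exact ⟨x, ⟨z, h, h⟩, h⟩

theorem star_mul (α β : Pt n) : (α * β).star = β.star * α.star := ext_ρ fun x z => by
  simp only [ρ_mul, ρ_star]
  exact exists_congr fun y => and_comm

theorem star_star (α : Pt n) : α.star.star = α := ext_ρ fun x z => by simp only [ρ_star]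

/-- a colouring of one row that is constant on classes -/
def Cst (κ : Setoid (Fin n)) (x : Fin n → ℚ) : Prop := ∀ i j, κ i j → x i = x j

theorem cst_iff (κ : Setoid (Fin n)) (i j : Fin n) : κ i j ↔ ∀ x, Cst κ x → x i = x j := by
  classical
  refine ⟨fun h x hx => hx i j h, fun h => ?_⟩
  have h1 := h (fun l => if κ i l then 1 else 0) (by
    intro a b hab
    have : κ i a ↔ κ i b := ⟨fun h => κ.trans' h hab, fun h => κ.trans' h (κ.symm' hab)⟩
    simp [this])
  simp only [κ.refl', if_true] at h1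
  by_contra h2
  rw [if_neg h2] at h1
  exact one_ne_zero h1

theorem cst_sup (κ κ' : Setoid (Fin n)) (x : Fin n → ℚ) :
    Cst (κ ⊔ κ') x ↔ Cst κ x ∧ Cst κ' x := by
  refine ⟨fun h => ⟨fun i j hij => h i j (le_sup_left (a := κ) (b := κ') hij),
    fun i j hij => h i j (le_sup_right (a := κ) (b := κ') hij)⟩, fun h i j hij => ?_⟩
  have : κ ⊔ κ' ≤ Setoid.ker x := sup_le (fun a b hab => h.1 a b hab) (fun a b hab => h.2 a b hab)
  exact this hij

/-- upper partition -/
def up (α : Pt n) : Setoid (Fin n) := Setoid.comap (fun i => (false, i)) α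

/-- lower partition -/
def lo (α : Pt n) : Setoid (Fin n) := Setoid.comap (fun i => (true, i)) α

theorem cst_up (α : Pt n) (x : Fin n → ℚ) : Cst α.up x ↔ ∃ y, α.ρ x y := by
  classical
  refine ⟨fun h => ?_, fun ⟨y, hy⟩ i j hij => by simpa using hy _ _ hij⟩
  let G : Bool × Fin n → ℚ := fun p => if hp : ∃ i, α.r p (false, i) then x hp.choose else 0
  have hG : ∀ p q, α.r p q → G p = G q := by
    intro p q hpq
    by_cases hp : ∃ i, α.r p (false, i)
    · have hq : ∃ i, α.r q (false, i) := ⟨hp.choose, α.eqv.trans (α.eqv.symm hpq) hp.choose_spec⟩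
      simp only [G, dif_pos hp, dif_pos hq]
      exact h _ _ (α.eqv.trans (α.eqv.symm hp.choose_spec) (α.eqv.trans hpq hq.choose_spec))
    · have hq : ¬ ∃ i, α.r q (false, i) := fun ⟨u, hu⟩ => hp ⟨u, α.eqv.trans hpq hu⟩
      simp only [G, dif_neg hp, dif_neg hq]
  have hO : ∀ i, G (false, i) = x i := by
    intro i
    have hp : ∃ j, α.r (false, i) (false, j) := ⟨i, α.eqv.refl _⟩
    simp only [G, dif_pos hp]
    exact (h _ _ hp.choose_spec).symm
  have h1 : ∀ u : Bool × Fin n, col x (fun i => G (true, i)) u = G u := by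
    rintro ⟨_ | _, i⟩
    · simpa using (hO i).symm
    · simp
  refine ⟨fun i => G (true, i), fun u v huv => ?_⟩
  rw [h1, h1]
  exact hG _ _ huv

theorem cst_lo (α : Pt n) (y : Fin n → ℚ) : Cst α.lo y ↔ ∃ x, α.ρ x y := by
  have : α.lo = α.star.up := rfl
  rw [this, cst_up]
  simp only [ρ_star]

/-- points of the upper row in transversal blocks -/
def Dom (α : Pt n) (i : Fin n) : Prop := ∀ x, α.ρ x 0 → x i = 0

theorem dom_iff (α : Pt n) (i : Fin n) : α.Dom i ↔ ∃ j, α.r (false, i) (true, j) := by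
  classical
  refine ⟨fun h => ?_, fun ⟨j, hj⟩ x hx => by simpa using hx _ _ hj⟩
  by_contra h1
  push Not at h1
  have h2 := h (fun l => if α.r (false, i) (false, l) then 1 else 0) (by
    have hc : ∀ w, col (fun l => if α.r (false, i) (false, l) then 1 else 0) 0 w =
        if α.r (false, i) w then 1 else 0 := by
      rintro ⟨_ | _, l⟩
      · simp
      · simp [h1]
    intro a b hab
    rw [hc, hc]
    have : α.r (false, i) a ↔ α.r (false, i) b :=
      ⟨fun h => α.eqv.trans h hab, fun h => α.eqv.trans h (α.eqv.symm hab)⟩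
    simp [this])
  simp [α.eqv.refl] at h2

theorem ρ_of_dom {α : Pt n} {w : Fin n → ℚ} (h : Cst α.up w) (h' : ∀ i, α.Dom i → w i = 0) :
    α.ρ w 0 := by
  rintro ⟨_ | _, i⟩ ⟨_ | _, j⟩ hij
  · simpa using h i j hij
  · simpa using h' i ((α.dom_iff i).mpr ⟨j, hij⟩)
  · simpa using (h' j ((α.dom_iff j).mpr ⟨i, α.eqv.symm hij⟩)).symm
  · simp

theorem Dom.eq {α : Pt n} {i : Fin n} (h : α.Dom i) {x x' y : Fin n → ℚ} (h1 : α.ρ x y)
    (h2 : α.ρ x' y) : x i = x' i := by
  have := h (x - x') (by simpa using h1.sub h2)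
  simpa [sub_eq_zero] using this

theorem Dom.of_up {α : Pt n} {i j : Fin n} (h : α.Dom i) (hij : α.up i j) : α.Dom j := by
  intro x hx
  rw [← h x hx]
  exact ((α.cst_up x).mpr ⟨_, hx⟩ _ _ hij).symm

/-- the projection with blocks `B ∪ B'` -/
def m (κ : Setoid (Fin n)) : Pt n := gen fun u v => κ u.2 v.2

theorem ρ_m (κ : Setoid (Fin n)) (x y : Fin n → ℚ) : (m κ).ρ x y ↔ y = x ∧ Cst κ x := by
  rw [m, ρ_gen]
  constructor
  · intro h
    exact ⟨funext fun i => by simpa using h (true, i) (false, i) (κ.refl' i),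
      fun i j hij => by simpa using h (false, i) (false, j) hij⟩
  · rintro ⟨rfl, h⟩ ⟨_ | _, i⟩ ⟨_ | _, j⟩ hij <;> simpa using h i j hij

/-- the partial identity on `A` -/
def q (A : Finset (Fin n)) : Pt n := gen fun u v => ∃ a ∈ A, u = (false, a) ∧ v = (true, a)

theorem ρ_q (A : Finset (Fin n)) (x y : Fin n → ℚ) : (q A).ρ x y ↔ ∀ a ∈ A, y a = x a := by
  rw [q, ρ_gen]
  constructor
  · intro h a ha
    simpa using (h _ _ ⟨a, ha, rfl, rfl⟩).symm
  · rintro h _ _ ⟨a, ha, rfl, rfl⟩
    simpa using (h a ha).symm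

/-- the projection isolating `i` -/
def p (i : Fin n) : Pt n := q (Finset.univ.erase i)

theorem ρ_p (i : Fin n) (x y : Fin n → ℚ) : (p i).ρ x y ↔ ∀ a, a ≠ i → y a = x a := by
  simp [p, ρ_q]

/-- the partition of a map -/
def tf (φ : Fin n → Fin n) : Pt n := gen fun u v => ∃ i, u = (false, φ i) ∧ v = (true, i)

theorem ρ_tf (φ : Fin n → Fin n) (x y : Fin n → ℚ) : (tf φ).ρ x y ↔ y = x ∘ φ := by
  rw [tf, ρ_gen]
  constructor
  · intro h
    funext i
    simpa using (h _ _ ⟨i, rfl, rfl⟩).symm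
  · rintro rfl _ _ ⟨i, rfl, rfl⟩
    simp

/-- partial injections -/
def δ {A : Finset (Fin n)} (ι : A → Fin n) : Pt n :=
  gen fun u v => ∃ a : A, u = (false, a.1) ∧ v = (true, ι a)

theorem ρ_δ {A : Finset (Fin n)} (ι : A → Fin n) (x y : Fin n → ℚ) :
    (δ ι).ρ x y ↔ ∀ a : A, y (ι a) = x a := by
  rw [δ, ρ_gen]
  constructor
  · intro h a
    simpa using (h _ _ ⟨a, rfl, rfl⟩).symm
  · rintro h _ _ ⟨a, rfl, rfl⟩
    simpa using (h a).symm

/-- the idempotent moving `i` to `j` -/
def hh (i j : Fin n) : Pt n :=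
  gen fun u v => (u = (false, i) ∧ v = (false, j)) ∨ ∃ l, l ≠ i ∧ u = (false, l) ∧ v = (true, l)

theorem ρ_hh (i j : Fin n) (x y : Fin n → ℚ) :
    (hh i j).ρ x y ↔ x i = x j ∧ ∀ l, l ≠ i → y l = x l := by
  rw [hh, ρ_gen]
  constructor
  · intro h
    exact ⟨by simpa using h _ _ (Or.inl ⟨rfl, rfl⟩),
      fun l hl => by simpa using (h _ _ (Or.inr ⟨l, hl, rfl, rfl⟩)).symm⟩
  · rintro ⟨h1, h2⟩ _ _ (⟨rfl, rfl⟩ | ⟨l, hl, rfl, rfl⟩)
    · simpa using h1
    · simpa using (h2 l hl).symm

theorem m_mul_m (κ κ' : Setoid (Fin n)) : m κ * m κ' = m (κ ⊔ κ') := ext_ρ fun x z => by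
  simp only [ρ_mul, ρ_m, cst_sup]
  constructor
  · rintro ⟨_, ⟨rfl, h1⟩, rfl, h2⟩
    exact ⟨rfl, h1, h2⟩
  · rintro ⟨rfl, h1, h2⟩
    exact ⟨_, ⟨rfl, h1⟩, rfl, h2⟩

theorem idem_m (κ : Setoid (Fin n)) : IsIdempotentElem (m κ) := by
  rw [IsIdempotentElem, m_mul_m, sup_idem]

theorem m_bot : m (⊥ : Setoid (Fin n)) = 1 := ext_ρ fun x z => by
  rw [ρ_m, ρ_one]
  refine and_iff_left fun i j hij => ?_
  have : i = j := hij
  rw [this]

theorem q_mul_q (A B : Finset (Fin n)) : q A * q B = q (A ∩ B) := ext_ρ fun x z => by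
  classical
  simp only [ρ_mul, ρ_q, Finset.mem_inter]
  constructor
  · rintro ⟨y, h1, h2⟩ a ha
    rw [h2 a ha.2, h1 a ha.1]
  · intro h
    refine ⟨fun a => if a ∈ A then x a else z a, fun a ha => by simp [ha], fun a ha => ?_⟩
    by_cases h1 : a ∈ A
    · simp [h1, h a ⟨h1, ha⟩]
    · simp [h1]

theorem idem_q (A : Finset (Fin n)) : IsIdempotentElem (q A) := by
  rw [IsIdempotentElem, q_mul_q, Finset.inter_self]

theorem idem_p (i : Fin n) : IsIdempotentElem (p i) := idem_q _

theorem q_univ : q (Finset.univ : Finset (Fin n)) = 1 := ext_ρ fun x z => by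
  rw [ρ_q, ρ_one]
  exact ⟨fun h => funext fun a => h a (Finset.mem_univ a), fun h a _ => by rw [h]⟩

theorem idem_hh (i j : Fin n) : IsIdempotentElem (hh i j) := ext_ρ fun x z => by
  simp only [ρ_mul, ρ_hh]
  constructor
  · rintro ⟨y, ⟨h1, h2⟩, h3, h4⟩
    exact ⟨h1, fun l hl => by rw [h4 l hl, h2 l hl]⟩
  · rintro ⟨h1, h2⟩
    exact ⟨x, ⟨h1, fun _ _ => rfl⟩, h1, h2⟩

theorem idem_tf {φ : Fin n → Fin n} (h : ∀ i, φ (φ i) = φ i) : IsIdempotentElem (tf φ) :=
  ext_ρ fun x z => by
    simp only [ρ_mul, ρ_tf, exists_eq_left]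
    have : (x ∘ φ) ∘ φ = x ∘ φ := funext fun i => by simp [h]
    rw [this]

end Pt

end Pool.Agent.Work.MP_5b5e81_al
end

-- merged part: Pool.Agent.Work.MP_5b5e81_al.Lin
section
/-! Floating components (a cocycle) and the rank of a partition, by linear algebra. -/

set_option autoImplicit false

namespace Pool.Agent.Work.MP_5b5e81_al

open Module

variable {n : ℕ}

theorem finrank_split {V W : Type} [AddCommGroup V] [Module ℚ V] [AddCommGroup W] [Module ℚ W]
    [FiniteDimensional ℚ V] [FiniteDimensional ℚ W] (X : Submodule ℚ (V × W))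
    (A : Submodule ℚ W) (B : Submodule ℚ V) (hA : ∀ z, z ∈ A ↔ ∃ y, (y, z) ∈ X)
    (hB : ∀ y, y ∈ B ↔ (y, 0) ∈ X) : finrank ℚ X = finrank ℚ A + finrank ℚ B := by
  have h1 := ((LinearMap.snd ℚ V W).comp X.subtype).finrank_range_add_finrank_ker
  have h2 : LinearMap.range ((LinearMap.snd ℚ V W).comp X.subtype) = A := by
    ext z
    rw [hA]
    constructor
    · rintro ⟨⟨⟨y, z'⟩, h⟩, rfl⟩
      exact ⟨y, h⟩
    · rintro ⟨y, h⟩
      exact ⟨⟨(y, z), h⟩, rfl⟩
  have h3 : finrank ℚ (LinearMap.ker ((LinearMap.snd ℚ V W).comp X.subtype)) = finrank ℚ B := by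
    refine LinearEquiv.finrank_eq
      { toFun := fun w => ⟨w.1.1.1, (hB _).mpr ?_⟩
        invFun := fun y => ⟨⟨(y.1, 0), (hB _).mp y.2⟩, rfl⟩
        map_add' := fun _ _ => rfl
        map_smul' := fun _ _ => rfl
        left_inv := ?_
        right_inv := fun _ => rfl }
    · have h4 : w.1.1.2 = 0 := w.2
      rw [← h4]
      exact w.1.2
    · intro w
      have h4 : w.1.1.2 = 0 := w.2
      ext <;> simp [h4]
  rw [← h1, h2, h3]

theorem finrank_split' {V W : Type} [AddCommGroup V] [Module ℚ V] [AddCommGroup W] [Module ℚ W]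
    [FiniteDimensional ℚ V] [FiniteDimensional ℚ W] (X : Submodule ℚ (V × W))
    (A : Submodule ℚ V) (B : Submodule ℚ W) (hA : ∀ y, y ∈ A ↔ ∃ z, (y, z) ∈ X)
    (hB : ∀ z, z ∈ B ↔ (0, z) ∈ X) : finrank ℚ X = finrank ℚ A + finrank ℚ B := by
  rw [← finrank_split (X.map (LinearEquiv.prodComm ℚ V W).toLinearMap) A B]
  · exact (LinearEquiv.finrank_map_eq _ _).symm
  · intro y
    simp [hA]
  · intro z
    simp [hB]

namespace Pt

/-- colourings of the middle row that vanish outside the floating components -/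
def flo (α β : Pt n) : Submodule ℚ (Fin n → ℚ) where
  carrier := {y | α.ρ 0 y ∧ β.ρ y 0}
  add_mem' := fun h h' => ⟨by simpa using h.1.add h'.1, by simpa using h.2.add h'.2⟩
  zero_mem' := ⟨α.ρ_zero, β.ρ_zero⟩
  smul_mem' := fun c _ h => ⟨by simpa using h.1.smul c, by simpa using h.2.smul c⟩

/-- the number of floating components -/
noncomputable def Φ (α β : Pt n) : ℕ := finrank ℚ (flo α β)

theorem Φ_cocycle (α β γ : Pt n) : Φ α β + Φ (α * β) γ = Φ β γ + Φ α (β * γ) := by
  let X : Submodule ℚ ((Fin n → ℚ) × (Fin n → ℚ)) :=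
    { carrier := {w | α.ρ 0 w.1 ∧ β.ρ w.1 w.2 ∧ γ.ρ w.2 0}
      add_mem' := fun h h' => ⟨by simpa using h.1.add h'.1, h.2.1.add h'.2.1,
        by simpa using h.2.2.add h'.2.2⟩
      zero_mem' := ⟨α.ρ_zero, β.ρ_zero, γ.ρ_zero⟩
      smul_mem' := fun c _ h => ⟨by simpa using h.1.smul c, h.2.1.smul c,
        by simpa using h.2.2.smul c⟩ }
  have h1 := finrank_split X (flo (α * β) γ) (flo α β) (by
    intro z
    change (α * β).ρ 0 z ∧ γ.ρ z 0 ↔ ∃ y, α.ρ 0 y ∧ β.ρ y z ∧ γ.ρ z 0
    rw [ρ_mul]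
    exact ⟨fun ⟨⟨y, h1, h2⟩, h3⟩ => ⟨y, h1, h2, h3⟩, fun ⟨y, h1, h2, h3⟩ => ⟨⟨y, h1, h2⟩, h3⟩⟩) (by
    intro y
    change α.ρ 0 y ∧ β.ρ y 0 ↔ α.ρ 0 y ∧ β.ρ y 0 ∧ γ.ρ 0 0
    simp [γ.ρ_zero])
  have h2 := finrank_split' X (flo α (β * γ)) (flo β γ) (by
    intro y
    change α.ρ 0 y ∧ (β * γ).ρ y 0 ↔ ∃ z, α.ρ 0 y ∧ β.ρ y z ∧ γ.ρ z 0
    rw [ρ_mul]
    exact ⟨fun ⟨h1, z, h2, h3⟩ => ⟨z, h1, h2, h3⟩, fun ⟨z, h1, h2, h3⟩ => ⟨h1, z, h2, h3⟩⟩) (by
    intro z
    change β.ρ 0 z ∧ γ.ρ z 0 ↔ α.ρ 0 0 ∧ β.ρ 0 z ∧ γ.ρ z 0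
    simp [α.ρ_zero])
  unfold Φ
  omega

theorem Φ_eq_zero {α β : Pt n} (h : ∀ y, α.ρ 0 y → β.ρ y 0 → y = 0) : Φ α β = 0 := by
  unfold Φ
  rw [Submodule.finrank_eq_zero, Submodule.eq_bot_iff]
  exact fun y hy => h y hy.1 hy.2

theorem Φ_one_left (β : Pt n) : Φ 1 β = 0 := Φ_eq_zero fun _ h _ => (ρ_one _ _).mp h

theorem Φ_one_right (α : Pt n) : Φ α 1 = 0 := Φ_eq_zero fun _ _ h => ((ρ_one _ _).mp h).symm

theorem Φ_m (α : Pt n) (κ : Setoid (Fin n)) : Φ α (m κ) = 0 :=
  Φ_eq_zero fun _ _ h => ((ρ_m _ _ _).mp h).1.symm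

theorem Φ_p_pos (i : Fin n) : 0 < Φ (p i) (p i) := by
  unfold Φ
  rw [Nat.pos_iff_ne_zero, Ne, Submodule.finrank_eq_zero, Submodule.eq_bot_iff]
  intro h
  have h1 := h (Pi.single i 1) ⟨(ρ_p _ _ _).mpr fun a ha => by simp [ha],
    (ρ_p _ _ _).mpr fun a ha => by simp [ha]⟩
  have := congrFun h1 i
  simp at this

/-- colourings of the lower row that extend -/
def im (α : Pt n) : Submodule ℚ (Fin n → ℚ) where
  carrier := {y | ∃ x, α.ρ x y}
  add_mem' := fun ⟨_, h⟩ ⟨_, h'⟩ => ⟨_, h.add h'⟩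
  zero_mem' := ⟨0, α.ρ_zero⟩
  smul_mem' := fun c _ ⟨_, h⟩ => ⟨_, h.smul c⟩

/-- colourings of the lower row that extend by zero -/
def im0 (α : Pt n) : Submodule ℚ (Fin n → ℚ) where
  carrier := {y | α.ρ 0 y}
  add_mem' := fun h h' => by simpa using ρ.add h h'
  zero_mem' := α.ρ_zero
  smul_mem' := fun c _ h => by simpa using ρ.smul h c

/-- the rank -/
noncomputable def rk (α : Pt n) : ℤ := (finrank ℚ α.im : ℤ) - finrank ℚ α.im0

theorem rk_star (α : Pt n) : α.star.rk = α.rk := by
  let X : Submodule ℚ ((Fin n → ℚ) × (Fin n → ℚ)) :=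
    { carrier := {w | α.ρ w.1 w.2}
      add_mem' := fun h h' => ρ.add h h'
      zero_mem' := α.ρ_zero
      smul_mem' := fun c _ h => ρ.smul h c }
  have h1 := finrank_split X α.im α.star.im0 (fun z => Iff.rfl) (fun y => ρ_star α 0 y)
  have h2 := finrank_split' X α.star.im α.im0 (fun y => exists_congr fun z => ρ_star α z y)
    (fun z => Iff.rfl)
  unfold rk
  omega

theorem im_mul_le (α β : Pt n) : (α * β).im ≤ β.im := by
  rintro z ⟨x, h⟩
  obtain ⟨y, -, h'⟩ := (ρ_mul _ _ _ _).mp h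
  exact ⟨y, h'⟩

theorem im0_le_mul (α β : Pt n) : β.im0 ≤ (α * β).im0 :=
  fun _ h => (ρ_mul _ _ _ _).mpr ⟨0, α.ρ_zero, h⟩

theorem rk_mul_le_right (α β : Pt n) : (α * β).rk ≤ β.rk := by
  have h1 := Submodule.finrank_mono (im_mul_le α β)
  have h2 := Submodule.finrank_mono (im0_le_mul α β)
  unfold rk
  omega

theorem rk_mul_le_left (α β : Pt n) : (α * β).rk ≤ α.rk := by
  rw [← rk_star, star_mul, ← α.rk_star]
  exact rk_mul_le_right _ _

theorem kl_of_rk {α β : Pt n} (h : β.rk ≤ (α * β).rk) : KL α β := by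
  have h1 := Submodule.finrank_mono (im_mul_le α β)
  have h2 := Submodule.finrank_mono (im0_le_mul α β)
  unfold rk at h
  have h3 : (α * β).im = β.im := Submodule.eq_of_le_of_finrank_eq (im_mul_le α β) (by omega)
  have h4 : β.im0 = (α * β).im0 := Submodule.eq_of_le_of_finrank_eq (im0_le_mul α β) (by omega)
  refine ⟨β * (α * β).star, ext_ρ fun x z => ?_⟩
  rw [ρ_mul]
  simp only [ρ_mul β, ρ_star]
  constructor
  · rintro ⟨w, ⟨y, h5, h6⟩, h7⟩
    have h8 : z - y ∈ (α * β).im0 := show (α * β).ρ 0 (z - y) by simpa using h7.sub h6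
    rw [← h4] at h8
    simpa using h5.add (show β.ρ 0 (z - y) from h8)
  · intro h5
    have h6 : z ∈ β.im := ⟨x, h5⟩
    rw [← h3] at h6
    obtain ⟨w, hw⟩ := h6
    exact ⟨w, ⟨z, h5, hw⟩, hw⟩

theorem kr_of_rk {α β : Pt n} (h : α.rk ≤ (α * β).rk) : KR α β := by
  rw [← rk_star, ← (α * β).rk_star, star_mul] at h
  obtain ⟨y, hy⟩ := kl_of_rk h
  refine ⟨y.star, ?_⟩
  have := congrArg star hy
  rwa [star_mul, star_mul, star_star, star_star] at this

theorem rk_q (A : Finset (Fin n)) : (q A).rk = A.card := by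
  classical
  have h1 : (q A).im = ⊤ := by
    rw [Submodule.eq_top_iff']
    exact fun y => ⟨y, (ρ_q _ _ _).mpr fun _ _ => rfl⟩
  let f : (Fin n → ℚ) →ₗ[ℚ] (A → ℚ) := LinearMap.funLeft ℚ ℚ Subtype.val
  have h2 : (q A).im0 = LinearMap.ker f := by
    ext y
    change (q A).ρ 0 y ↔ _
    rw [ρ_q, LinearMap.mem_ker]
    exact ⟨fun h => funext fun a => h a.1 a.2, fun h a ha => congrFun h ⟨a, ha⟩⟩
  have h3 : LinearMap.range f = ⊤ :=
    LinearMap.range_eq_top.mpr (LinearMap.funLeft_surjective_of_injective ℚ ℚ _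
      Subtype.val_injective)
  have h4 := f.finrank_range_add_finrank_ker
  rw [h3, finrank_top, finrank_fintype_fun_eq_card, Fintype.card_coe] at h4
  unfold rk
  rw [h1, h2, finrank_top]
  omega

theorem rk_one : (1 : Pt n).rk = n := by
  rw [← q_univ, rk_q]
  simp

theorem rk_idem {e : Pt n} (he : IsIdempotentElem e) (h1 : e ≠ 1) : e.rk + 1 ≤ n := by
  by_contra h
  have h2 : (1 : Pt n).rk ≤ (e * 1).rk := by rw [rk_one, mul_one]; omega
  obtain ⟨y, hy⟩ := kl_of_rk h2
  rw [mul_one] at hy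
  apply h1
  calc e = y * e * e := by rw [hy, one_mul]
    _ = 1 := by rw [mul_assoc, he.eq, hy]

/-- rank at most `n - 2` -/
def Low (α : Pt n) : Prop := α.rk + 2 ≤ n

theorem Low.mul_right {α : Pt n} (h : α.Low) (β : Pt n) : (α * β).Low := by
  have := rk_mul_le_left α β
  unfold Low at *
  omega

theorem Low.mul_left {β : Pt n} (h : β.Low) (α : Pt n) : (α * β).Low := by
  have := rk_mul_le_right α β
  unfold Low at *
  omega

theorem kl_of_not_low {α e : Pt n} (he : IsIdempotentElem e) (h1 : e ≠ 1) (h : ¬ (α * e).Low) :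
    KL α e := by
  have := rk_idem he h1
  unfold Low at h
  exact kl_of_rk (by omega)

theorem kr_of_not_low {e β : Pt n} (he : IsIdempotentElem e) (h1 : e ≠ 1) (h : ¬ (e * β).Low) :
    KR e β := by
  have := rk_idem he h1
  unfold Low at h
  exact kr_of_rk (by omega)

end Pt

end Pool.Agent.Work.MP_5b5e81_al
end

-- merged part: Pool.Agent.Work.MP_5b5e81_al.Move
section
/-! Elementary moves connect `R`-related idempotents. -/

set_option autoImplicit false

namespace Pool.Agent.Work.MP_5b5e81_al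

open Relation Pt

section general

variable {S M : Type} [Monoid S] [Monoid M] {T : Setup S M}

theorem Setup.cancelR {c d w : M} (hc : T.Reg c) (hd : T.Reg d) (h : T.π c = T.π d)
    (hw : KR (T.π d) (T.π w)) (e : c * w = d * w) : c = d := by
  obtain ⟨x, hx⟩ := hc.liftL hd ⟨1, by rw [one_mul, h]⟩
  obtain ⟨y, hy⟩ := (hd.mulR w hw).2
  calc c = x * (d * w * y) := by rw [hy, ← hx]
    _ = c * w * y := by rw [hx]; simp only [mul_assoc]
    _ = d := by rw [e, hy]

theorem Setup.cancelL {c d w : M} (hc : T.Reg c) (hd : T.Reg d) (h : T.π c = T.π d)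
    (hw : KL (T.π w) (T.π d)) (e : w * c = w * d) : c = d := by
  obtain ⟨x, hx⟩ := hc.liftR hd ⟨1, by rw [mul_one, h]⟩
  obtain ⟨y, hy⟩ := (hd.mulL w hw).2
  calc c = (y * (w * d)) * x := by rw [hy, ← hx]
    _ = y * (w * c) := by rw [hx]; simp only [mul_assoc]
    _ = d := by rw [e, hy]

/-- two commuting idempotents act in the same way in both orders -/
theorem Setup.comm_act {c : M} (hc : T.Reg c) {e f : S} (he : IsIdempotentElem e)
    (hf : IsIdempotentElem f) (hef : e * f = f * e) (h : KR (T.π c) (e * f)) :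
    c * T.ι e * T.ι f = c * T.ι f * T.ι e := by
  have hg : IsIdempotentElem (e * f) := he.mul_of_commute hef hf
  have key : ∀ {e f : S}, IsIdempotentElem e → IsIdempotentElem f → e * f = f * e →
      KR (T.π c) (e * f) → IsIdempotentElem (e * f) → c * T.ι e * T.ι f = c * T.ι (e * f) := by
    intro e f he hf hef h hg
    have h1 := (hc.mulR (T.ι e * T.ι f) (by rwa [map_mul, T.π_ι e he, T.π_ι f hf])).1
    rw [← mul_assoc] at h1
    rw [← h1.fixR hg (by
      rw [map_mul, map_mul, T.π_ι e he, T.π_ι f hf, mul_assoc _ e f, mul_assoc,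
        hg.eq]), mul_assoc _ (T.ι f), T.b2 hf hg (by rw [← mul_assoc, ← hef, mul_assoc, hf.eq]),
      mul_assoc, T.b2 he hg (by rw [← mul_assoc, he.eq])]
  rw [key he hf hef h hg, key hf he hef.symm (hef ▸ h) (hef ▸ hg), hef]

end general

variable {n : ℕ} {M : Type} [Monoid M] (T : Setup (Pt n) M)

/-- elementary idempotents -/
def Elem (e : Pt n) : Prop := (∃ κ, e = m κ) ∨ ∃ i, e = p i

theorem Elem.idem {e : Pt n} (h : Elem e) : IsIdempotentElem e := by
  rcases h with ⟨κ, rfl⟩ | ⟨i, rfl⟩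
  · exact idem_m κ
  · exact idem_p i

/-- elementary moves -/
def Mv (d d' : M) : Prop := ∃ e, Elem e ∧ KR d (T.ι e) ∧ d' = d * T.ι e

variable {T}

theorem mv_left {d d' : M} (h : EqvGen (Mv T) d d') (c : M) : EqvGen (Mv T) (c * d) (c * d') := by
  induction h with
  | rel _ _ h =>
    obtain ⟨e, he, h1, rfl⟩ := h
    exact EqvGen.rel _ _ ⟨e, he, h1.mul_left c, by rw [mul_assoc]⟩
  | refl => exact EqvGen.refl _
  | symm _ _ _ ih => exact ih.symm
  | trans _ _ _ _ _ ih1 ih2 => exact ih1.trans _ _ _ ih2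

theorem mv_basic {k e : Pt n} (hk : IsIdempotentElem k) (he : Elem e) (h : e * k = k) :
    EqvGen (Mv T) (T.ι k) (T.ι (k * e)) := by
  refine EqvGen.rel _ _ ⟨e, he, ((T.reg_ι hk).stepR he.idem ?_).2, (T.b3 hk he.idem h).symm⟩
  rw [T.π_ι k hk]
  exact ⟨k, by rw [mul_assoc, h, hk.eq]⟩

theorem idem_mul_of {S : Type} [Monoid S] {k e : S} (hk : IsIdempotentElem k) (h : e * k = k) :
    IsIdempotentElem (k * e) := by
  unfold IsIdempotentElem
  rw [mul_assoc, ← mul_assoc e, h, ← mul_assoc, hk.eq]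

theorem idem_mul_of' {S : Type} [Monoid S] {k e : S} (hk : IsIdempotentElem k) (h : k * e = k) :
    IsIdempotentElem (e * k) := by
  unfold IsIdempotentElem
  rw [mul_assoc, ← mul_assoc k, h, hk.eq]

theorem mv_isolate {g : Pt n} (hg : IsIdempotentElem g) (D : Finset (Fin n)) (h : q D * g = g) :
    EqvGen (Mv T) (T.ι g) (T.ι (g * q D)) := by
  classical
  have h0 : ∀ B : Finset (Fin n), D ⊆ B → q B * g = g := by
    intro B hB
    rw [← h, ← mul_assoc, q_mul_q, Finset.inter_eq_right.mpr hB]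
  have key : ∀ B : Finset (Fin n), Disjoint B D → EqvGen (Mv T) (T.ι g) (T.ι (g * q Bᶜ)) := by
    intro B
    induction B using Finset.induction_on with
    | empty =>
      intro _
      rw [Finset.compl_empty, q_univ, mul_one]
      exact EqvGen.refl _
    | insert i B hi ih =>
      intro hd
      rw [Finset.disjoint_insert_left] at hd
      refine (ih hd.2).trans _ _ _ ?_
      have h1 : D ⊆ Bᶜ := fun a ha => Finset.mem_compl.mpr fun hB =>
        Finset.disjoint_left.mp hd.2 hB ha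
      have h2 : g * q (insert i B)ᶜ = g * q Bᶜ * p i := by
        rw [mul_assoc, p, q_mul_q]
        congr 2
        ext a
        simp [and_comm]
      rw [h2]
      refine mv_basic (idem_mul_of hg (h0 _ h1)) (Or.inr ⟨i, rfl⟩) ?_
      rw [← mul_assoc, p, h0]
      intro a ha
      exact Finset.mem_erase.mpr ⟨by rintro rfl; exact hd.1 ha, Finset.mem_univ a⟩
  simpa using key Dᶜ disjoint_compl_left

theorem m_up_mul (k : Pt n) : m k.up * k = k := ext_ρ fun x z => by
  simp only [ρ_mul, ρ_m]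
  constructor
  · rintro ⟨_, ⟨rfl, -⟩, h⟩
    exact h
  · intro h
    exact ⟨x, ⟨rfl, (k.cst_up x).mpr ⟨z, h⟩⟩, h⟩

theorem mv_idem {k f : Pt n} (hk : IsIdempotentElem k) (hf : IsIdempotentElem f)
    (hkf : k * f = f) (hfk : f * k = k) : EqvGen (Mv T) (T.ι k) (T.ι f) := by
  classical
  let U := k.up
  let D : Finset (Fin n) := Finset.univ.filter k.Dom
  let φ : Fin n → Fin n := fun i => if k.Dom i then i else Quotient.out (Quotient.mk U i)
  have hφU : ∀ i, U (φ i) i := by
    intro i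
    by_cases hi : k.Dom i
    · simp only [φ, if_pos hi]; exact U.refl' i
    · simp only [φ, if_neg hi]; exact Quotient.mk_out (s := U) i
  have hφD : ∀ i, k.Dom i → φ i = i := fun i hi => if_pos hi
  have hφeq : ∀ i j, ¬ k.Dom i → U i j → φ i = φ j := by
    intro i j hi hij
    have hj : ¬ k.Dom j := fun h => hi (h.of_up (U.symm' hij))
    simp only [φ, if_neg hi, if_neg hj, Quotient.sound (s := U) hij]
  have hφφ : ∀ i, φ (φ i) = φ i := by
    intro i
    by_cases hi : k.Dom i
    · rw [hφD i hi, hφD i hi]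
    · exact (hφeq i (φ i) hi (U.symm' (hφU i))).symm
  have hcst : ∀ x : Fin n → ℚ, (∀ i j, k.Dom i → U i j → x i = x j) → Cst U (x ∘ φ) := by
    intro x hx i j hij
    by_cases hi : k.Dom i
    · simp only [Function.comp, hφD i hi, hφD j (hi.of_up hij)]
      exact hx i j hi hij
    · simp only [Function.comp, hφeq i j hi hij]
  have hmt : m U * tf φ = m U := ext_ρ fun x z => by
    simp only [ρ_mul, ρ_m, ρ_tf]
    constructor
    · rintro ⟨_, ⟨rfl, h1⟩, rfl⟩
      exact ⟨funext fun i => h1 _ _ (hφU i), h1⟩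
    · rintro ⟨rfl, h1⟩
      exact ⟨z, ⟨rfl, h1⟩, funext fun i => (h1 _ _ (hφU i)).symm⟩
  have ht := idem_tf hφφ
  -- the common part of the argument
  have main : ∀ g : Pt n, IsIdempotentElem g → g.up = U → (∀ i, g.Dom i ↔ k.Dom i) →
      (EqvGen (Mv T) (T.ι g) (T.ι (g * m U)) ∧ IsIdempotentElem (g * m U) ∧
      EqvGen (Mv T) (T.ι (tf φ * (g * m U))) (T.ι (tf φ * (g * m U) * q D))) ∧
      ∀ x z, (tf φ * (g * m U) * q D).ρ x z ↔
        (∀ i j, k.Dom i → U i j → x i = x j) ∧ ∀ i, k.Dom i → z i = x i := by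
    intro g hg hU hD
    have h1 : m U * g = g := hU ▸ m_up_mul g
    have h2 := idem_mul_of hg h1
    have h3 : g * m U * tf φ = g * m U := by rw [mul_assoc, hmt]
    have hρ : ∀ x z, (tf φ * (g * m U)).ρ x z ↔ g.ρ (x ∘ φ) z ∧ Cst U z := by
      intro x z
      simp only [ρ_mul, ρ_m, ρ_tf, exists_eq_left]
      constructor
      · rintro ⟨_, h, rfl, h'⟩
        exact ⟨h, h'⟩
      · rintro ⟨h, h'⟩
        exact ⟨z, h, rfl, h'⟩
    refine ⟨⟨mv_basic hg (Or.inl ⟨U, rfl⟩) h1, h2, mv_isolate (idem_mul_of' h2 h3) D ?_⟩, ?_⟩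
    · refine ext_ρ fun x z => ?_
      rw [ρ_mul]
      simp only [hρ, ρ_q]
      refine ⟨?_, fun h => ⟨x, fun _ _ => rfl, h⟩⟩
      rintro ⟨y, h4, h5, h6⟩
      have h7 : ∀ i, k.Dom i → y i = x i := fun i hi => h4 i (by simpa [D] using hi)
      have h8 : Cst U (y ∘ φ) := hU ▸ (g.cst_up _).mpr ⟨z, h5⟩
      have h9 : Cst U (x ∘ φ) := hcst x fun i j hi hij => by
        have := h8 i j hij
        simp only [Function.comp, hφD i hi, hφD j (hi.of_up hij)] at this
        rw [← h7 i hi, ← h7 j (hi.of_up hij), this]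
      have h10 : g.ρ (x ∘ φ - y ∘ φ) 0 := ρ_of_dom (by
        rw [hU]
        intro i j hij
        simp only [Pi.sub_apply, h8 i j hij, h9 i j hij]) (by
        intro i hi
        have hi' := (hD i).mp hi
        simp [hφD i hi', h7 i hi'])
      exact ⟨by simpa using h10.add h5, h6⟩
    · intro x z
      rw [ρ_mul]
      simp only [hρ, ρ_q]
      constructor
      · rintro ⟨y, ⟨h4, h5⟩, h6⟩
        have h8 : Cst U (x ∘ φ) := hU ▸ (g.cst_up _).mpr ⟨y, h4⟩
        obtain ⟨y', hy'⟩ := (g.cst_up y).mp (hU ▸ h5)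
        have h9 : g.ρ (x ∘ φ) y' := by
          rw [← hg.eq]
          exact (ρ_mul _ _ _ _).mpr ⟨y, h4, hy'⟩
        refine ⟨fun i j hi hij => ?_, fun i hi => ?_⟩
        · have := h8 i j hij
          simpa only [Function.comp, hφD i hi, hφD j (hi.of_up hij)] using this
        · rw [h6 i (by simpa [D] using hi), ← ((hD i).mpr hi).eq h9 hy']
          simp [hφD i hi]
      · rintro ⟨h4, h5⟩
        obtain ⟨y', hy'⟩ := (g.cst_up _).mp (hU ▸ hcst x h4)
        have hy'' := hy'
        rw [← hg.eq] at hy''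
        obtain ⟨y, h6, h7⟩ := (ρ_mul _ _ _ _).mp hy''
        refine ⟨y, ⟨h6, hU ▸ (g.cst_up _).mpr ⟨y', h7⟩⟩, fun i hi => ?_⟩
        have hi' : k.Dom i := by simpa [D] using hi
        rw [h5 i hi', ← ((hD i).mpr hi').eq hy' h7]
        simp [hφD i hi']
  have hfU : f.up = U := by
    ext i j
    simp only [cst_iff f.up, cst_iff U, U, cst_up]
    refine forall_congr' fun x => imp_congr_left ⟨?_, ?_⟩
    · rintro ⟨y, hy⟩
      rw [← hkf] at hy
      obtain ⟨w, hw, -⟩ := (ρ_mul _ _ _ _).mp hy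
      exact ⟨w, hw⟩
    · rintro ⟨y, hy⟩
      rw [← hfk] at hy
      obtain ⟨w, hw, -⟩ := (ρ_mul _ _ _ _).mp hy
      exact ⟨w, hw⟩
  have hfD : ∀ i, f.Dom i ↔ k.Dom i := by
    intro i
    refine forall_congr' fun x => imp_congr_left ⟨fun h => ?_, fun h => ?_⟩
    · rw [← hfk]
      exact (ρ_mul _ _ _ _).mpr ⟨0, h, ρ_zero _⟩
    · rw [← hkf]
      exact (ρ_mul _ _ _ _).mpr ⟨0, h, ρ_zero _⟩
  obtain ⟨⟨a1, a2, a3⟩, a4⟩ := main k hk rfl fun _ => Iff.rfl
  obtain ⟨⟨b1, b2, b3⟩, b4⟩ := main f hf hfU hfD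
  have e0 : tf φ * (k * m U) * q D = tf φ * (f * m U) * q D := ext_ρ fun x z => by rw [a4, b4]
  rw [e0] at a3
  have c1 := mv_left (a3.trans _ _ _ b3.symm) (T.ι (k * m U))
  have k1 : k * m U * tf φ = k * m U := by rw [mul_assoc, hmt]
  have f1 : f * m U * tf φ = f * m U := by rw [mul_assoc, hmt]
  have kf : k * m U * (f * m U) = f * m U := by
    rw [← mul_assoc, mul_assoc k, ← hfU, m_up_mul, hkf]
  rw [← T.b4 ht a2 k1, ← T.b4 ht b2 f1, ← mul_assoc, ← mul_assoc, T.b1 a2 ht k1, T.b1 a2 a2 a2,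
    T.b2 a2 b2 kf] at c1
  exact a1.trans _ _ _ (c1.trans _ _ _ b1.symm)

/-- a property closed under elementary moves is closed under all `R`-preserving products -/
theorem mv_closed (Y : M → Prop) (hR : ∀ c, Y c → T.Reg c)
    (hY : ∀ c d, Mv T c d → (Y c ↔ Y d)) (w : M) :
    ∀ c, Y c → KR (T.π c) (T.π w) → Y (c * w) := by
  have h1 : ∀ c d, EqvGen (Mv T) c d → (Y c ↔ Y d) := by
    intro c d h
    induction h with
    | rel _ _ h => exact hY _ _ h
    | refl => rfl
    | symm _ _ _ ih => exact ih.symm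
    | trans _ _ _ _ _ ih1 ih2 => exact ih1.trans ih2
  obtain ⟨l, hl, rfl⟩ := T.gen w
  induction l with
  | nil => intro c hc _; simpa using hc
  | cons e l ih =>
    intro c hc h
    have he := hl e (by simp)
    simp only [List.map_cons, List.prod_cons, map_mul, T.π_ι e he] at h ⊢
    obtain ⟨k, hk, hke, hkek, h2, -, h3⟩ := (hR c hc).sandR he h.of_mul
    have h4 := mv_left (mv_idem (T := T) hk hke (by rw [← mul_assoc, hk.eq]) hkek) c
    rw [h2, ← h3, ← mul_assoc, h2] at h4
    rw [← mul_assoc]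
    exact ih (fun f hf => hl f (by simp [hf])) _ ((h1 _ _ h4).mp hc) (by
      rw [map_mul, T.π_ι e he]; exact h.of_mul')

end Pool.Agent.Work.MP_5b5e81_al
end

-- merged part: Pool.Agent.Work.MP_5b5e81_al.Token
section
/-! Sliding tokens: connectivity and simple connectivity of the graph of injections. -/

set_option autoImplicit false

namespace Pool.Agent.Work.MP_5b5e81_al

open Function

variable {α β X : Type} [DecidableEq α] [DecidableEq β]

/-- the tokens in `R` sit in `P`, the other tokens are frozen -/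
def St (R : Finset α) (P : Finset β) (x0 x : α → β) : Prop :=
  Injective x ∧ (∀ a, a ∉ R → x a = x0 a) ∧ (∀ a ∈ R, x a ∈ P)

omit [DecidableEq β] in
theorem inj_update {x : α → β} (hx : Injective x) (a : α) {j : β} (hj : ∀ b, b ≠ a → x b ≠ j) :
    Injective (update x a j) := by
  intro b c h
  by_cases hb : b = a <;> by_cases hc : c = a
  · rw [hb, hc]
  · rw [hb, update_self, update_of_ne hc] at h
    exact absurd h.symm (hj c hc)
  · rw [hc, update_self, update_of_ne hb] at h
    exact absurd h (hj b hb)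
  · rw [update_of_ne hb, update_of_ne hc] at h
    exact hx h

omit [DecidableEq β] in
theorem St.update {R : Finset α} {P : Finset β} {x0 x : α → β} (h : St R P x0 x) {a : α}
    (ha : a ∈ R) {j : β} (hP : j ∈ P) (hj : ∀ b, b ≠ a → x b ≠ j) : St R P x0 (update x a j) := by
  refine ⟨inj_update h.1 a hj, fun b hb => ?_, fun b hb => ?_⟩
  · rw [update_of_ne (by rintro rfl; exact hb ha), h.2.1 b hb]
  · by_cases hba : b = a
    · rw [hba, update_self]; exact hP
    · rw [update_of_ne hba]; exact h.2.2 b hb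

theorem exists_free {R : Finset α} {P : Finset β} {x0 x : α → β} (h : St R P x0 x)
    (h0 : ∀ b, b ∉ R → x0 b ∉ P) (hc : R.card + 1 ≤ P.card) : ∃ j ∈ P, ∀ b, x b ≠ j := by
  have h1 : (R.image x).card < P.card := lt_of_le_of_lt Finset.card_image_le hc
  obtain ⟨j, hj, hj'⟩ := Finset.exists_mem_notMem_of_card_lt_card h1
  refine ⟨j, hj, fun b hb => ?_⟩
  by_cases hR : b ∈ R
  · exact hj' (Finset.mem_image.mpr ⟨b, hR, hb⟩)
  · exact h0 b hR (by rw [← h.2.1 b hR, hb]; exact hj)

theorem token_connected (R : Finset α) : ∀ (P : Finset β) (x0 : α → β) (Q : (α → β) → Prop),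
    R.card + 1 ≤ P.card → (∀ b, b ∉ R → x0 b ∉ P) →
    (∀ x, St R P x0 x → ∀ a ∈ R, ∀ j ∈ P, (∀ b, b ≠ a → x b ≠ j) → Q x → Q (update x a j)) →
    ∀ x y, St R P x0 x → St R P x0 y → Q x → Q y := by
  induction R using Finset.induction_on with
  | empty =>
    intro P x0 Q _ _ _ x y hx hy h
    have : x = y := funext fun a => by rw [hx.2.1 a (by simp), hy.2.1 a (by simp)]
    rwa [← this]
  | insert a R haR ih =>
    intro P x0 Q hc h0 hQ x y hx hy h
    have ha : a ∈ insert a R := Finset.mem_insert_self a R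
    have key : ∃ x', St (insert a R) P x0 x' ∧ Q x' ∧ x' a = y a := by
      have step : ∀ z, St (insert a R) P x0 z → Q z → (∀ b, b ≠ a → z b ≠ y a) →
          ∃ x', St (insert a R) P x0 x' ∧ Q x' ∧ x' a = y a := fun z hz hq hf =>
        ⟨update z a (y a), hz.update ha (hy.2.2 a ha) hf, hQ z hz a ha _ (hy.2.2 a ha) hf hq,
          update_self ..⟩
      by_cases hf : ∀ b, b ≠ a → x b ≠ y a
      · exact step x hx h hf
      · push Not at hf
        obtain ⟨b, hb, hb'⟩ := hf
        obtain ⟨j, hj, hj'⟩ := exists_free hx h0 hc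
        have hbR : b ∈ insert a R := by
          by_contra hbR
          exact h0 b hbR (by rw [← hx.2.1 b hbR, hb']; exact hy.2.2 a ha)
        refine step (update x b j) (hx.update hbR hj fun c _ => hj' c)
          (hQ x hx b hbR j hj (fun c _ => hj' c) h) fun c _ => ?_
        by_cases hcb : c = b
        · rw [hcb, update_self, ← hb']
          exact (hj' b).symm
        · rw [update_of_ne hcb, ← hb']
          exact fun h' => hcb (hx.1 h')
    obtain ⟨x', hx', hq, hxa⟩ := key
    have res : ∀ z, St (insert a R) P x0 z → z a = y a → St R (P.erase (y a)) y z := by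
      intro z hz hza
      refine ⟨hz.1, fun b hb => ?_, fun b hb => ?_⟩
      · by_cases hba : b = a
        · rw [hba, hza]
        · have : b ∉ insert a R := by simp [hba, hb]
          rw [hz.2.1 b this, hy.2.1 b this]
      · refine Finset.mem_erase.mpr ⟨?_, hz.2.2 b (Finset.mem_insert_of_mem hb)⟩
        rw [← hza]
        intro h'
        exact haR (hz.1 h' ▸ hb)
    have ext : ∀ z, St R (P.erase (y a)) y z → St (insert a R) P x0 z := by
      intro z hz
      refine ⟨hz.1, fun b hb => ?_, fun b hb => ?_⟩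
      · rw [hz.2.1 b fun h' => hb (Finset.mem_insert_of_mem h'), hy.2.1 b hb]
      · by_cases hbR : b ∈ R
        · exact Finset.mem_of_mem_erase (hz.2.2 b hbR)
        · rw [hz.2.1 b hbR]
          exact hy.2.2 b hb
    refine ih (P.erase (y a)) y Q ?_ ?_ ?_ x' y (res x' hx' hxa) (res y hy rfl) hq
    · rw [Finset.card_insert_of_notMem haR] at hc
      rw [Finset.card_erase_of_mem (hy.2.2 a ha)]
      omega
    · intro b hb hb'
      by_cases hba : b = a
      · rw [hba] at hb'
        exact Finset.notMem_erase _ _ hb'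
      · have : b ∉ insert a R := by simp [hba, hb]
        exact h0 b this (hy.2.1 b this ▸ Finset.mem_of_mem_erase hb')
    · intro z hz b hb j hj hf
      exact hQ z (ext z hz) b (Finset.mem_insert_of_mem hb) j (Finset.mem_of_mem_erase hj) hf

theorem exists_avoid {R : Finset α} {P : Finset β} {x0 x : α → β} (hx : St R P x0 x)
    (h0 : ∀ b, b ∉ R → x0 b ∉ P) (B : Finset β) (hc : R.card + B.card ≤ P.card) :
    ∃ y, St R P x0 y ∧ ∀ b ∈ R, y b ∉ B := by
  classical
  have h1 : R.card ≤ (P \ B).card := by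
    have := Finset.le_card_sdiff B P
    omega
  obtain ⟨f, hf⟩ := Function.Embedding.exists_of_card_le_finset (α := R) (s := P \ B)
    (by simpa using h1)
  have hf' : ∀ b : R, f b ∈ P ∧ f b ∉ B := fun b => by
    simpa using hf (Set.mem_range_self b)
  refine ⟨fun b => if hb : b ∈ R then f ⟨b, hb⟩ else x0 b, ⟨?_, fun b hb => dif_neg hb,
    fun b hb => ?_⟩, fun b hb => ?_⟩
  · intro b c h
    by_cases hb : b ∈ R <;> by_cases hc : c ∈ R
    · simp only [dif_pos hb, dif_pos hc] at h
      exact congrArg Subtype.val (f.injective h)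
    · simp only [dif_pos hb, dif_neg hc] at h
      exact absurd (h ▸ (hf' ⟨b, hb⟩).1) (h0 c hc)
    · simp only [dif_neg hb, dif_pos hc] at h
      exact absurd (h ▸ (hf' ⟨c, hc⟩).1) (h0 b hb)
    · simp only [dif_neg hb, dif_neg hc] at h
      rw [← hx.2.1 b hb, ← hx.2.1 c hc] at h
      exact hx.1 h
  · simp only [dif_pos hb]
    exact (hf' ⟨b, hb⟩).1
  · simp only [dif_pos hb]
    exact (hf' ⟨b, hb⟩).2

/-- an abstract covering of the graph of injections -/
structure Cover (α β X : Type) [DecidableEq α] where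
  /-- valid lifts -/
  V : X → (α → β) → Prop
  /-- slides -/
  Sl : X → (α → β) → α → β → X → Prop
  ex : ∀ c x a j, V c x → Injective x → (∀ b, b ≠ a → x b ≠ j) → ∃ c', Sl c x a j c'
  val : ∀ c x a j c', Sl c x a j c' → V c' (update x a j)
  refl : ∀ c x a, V c x → Sl c x a (x a) c
  tri : ∀ c x a j k c' c'', V c x → Injective x → (∀ b, b ≠ a → x b ≠ j) →
    (∀ b, b ≠ a → x b ≠ k) → Sl c x a j c' → Sl c x a k c'' → Sl c' (update x a j) a k c''
  sq : ∀ c x a j b l c' d d', V c x → Injective x → a ≠ b → (∀ e, x e ≠ j) →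
    (∀ e, e ≠ b → x e ≠ l) → l ≠ j → Sl c x a j c' → Sl c x b l d → Sl c' (update x a j) b l d' →
    Sl d (update x b l) a j d'

theorem Cover.section_aux (C : Cover α β X) (R : Finset α) :
    ∀ (P : Finset β) (x0 : α → β) (c0 : X), R.card + 2 ≤ P.card → (∀ b, b ∉ R → x0 b ∉ P) →
    St R P x0 x0 → C.V c0 x0 →
    ∃ τ : (α → β) → X, τ x0 = c0 ∧ ∀ x, St R P x0 x → C.V (τ x) x ∧
      ∀ a ∈ R, ∀ j ∈ P, (∀ b, b ≠ a → x b ≠ j) → C.Sl (τ x) x a j (τ (update x a j)) := by
  induction R using Finset.induction_on with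
  | empty =>
    intro P x0 c0 _ _ _ hV
    refine ⟨fun _ => c0, rfl, fun x hx => ⟨?_, by simp⟩⟩
    have : x = x0 := funext fun a => hx.2.1 a (by simp)
    rwa [this]
  | insert a R haR ih =>
    intro P x0 c0 hc h0 hx0 hV
    have ha : a ∈ insert a R := Finset.mem_insert_self a R
    rw [Finset.card_insert_of_notMem haR] at hc
    -- restriction to a fixed position of the token `a`
    have res : ∀ y z, St (insert a R) P x0 y → St (insert a R) P x0 z → z a = y a →
        St R (P.erase (y a)) y z := by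
      intro y z hy hz hza
      refine ⟨hz.1, fun b hb => ?_, fun b hb => ?_⟩
      · by_cases hba : b = a
        · rw [hba, hza]
        · have : b ∉ insert a R := by simp [hba, hb]
          rw [hz.2.1 b this, hy.2.1 b this]
      · refine Finset.mem_erase.mpr ⟨?_, hz.2.2 b (Finset.mem_insert_of_mem hb)⟩
        rw [← hza]
        intro h'
        exact haR (hz.1 h' ▸ hb)
    have loc : ∀ y c, St (insert a R) P x0 y → C.V c y →
        ∃ τ : (α → β) → X, τ y = c ∧ ∀ x, St (insert a R) P x0 x → x a = y a → C.V (τ x) x ∧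
          ∀ b ∈ R, ∀ j ∈ P, (∀ e, e ≠ b → x e ≠ j) → C.Sl (τ x) x b j (τ (update x b j)) := by
      intro y c hy hc'
      obtain ⟨τ, h1, h2⟩ := ih (P.erase (y a)) y c (by
        rw [Finset.card_erase_of_mem (hy.2.2 a ha)]; omega) (by
        intro b hb hb'
        by_cases hba : b = a
        · rw [hba] at hb'
          exact Finset.notMem_erase _ _ hb'
        · have : b ∉ insert a R := by simp [hba, hb]
          exact h0 b this (hy.2.1 b this ▸ Finset.mem_of_mem_erase hb')) (res y y hy hy rfl) hc'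
      refine ⟨τ, h1, fun x hx hxa => ⟨(h2 x (res y x hy hx hxa)).1, fun b hb j hj hf => ?_⟩⟩
      refine (h2 x (res y x hy hx hxa)).2 b hb j (Finset.mem_erase.mpr ⟨?_, hj⟩) hf
      rw [← hxa]
      exact (hf a (by rintro rfl; exact haR hb)).symm
    have hout : ∀ z, St (insert a R) P x0 z → ∀ b, b ≠ a → b ∉ R → ∀ j ∈ P, z b ≠ j := by
      intro z hz b hba hb j hj h
      have : b ∉ insert a R := by simp [hba, hb]
      exact h0 b this (by rw [← hz.2.1 b this, h]; exact hj)
    have avoid : ∀ p ∈ P, ∀ q ∈ P, ∃ y, St (insert a R) P x0 y ∧ y a = x0 a ∧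
        (∀ b, b ≠ a → y b ≠ p) ∧ (∀ b, b ≠ a → y b ≠ q) := by
      intro p hp q hq
      obtain ⟨y, hy, hy'⟩ := exists_avoid (R := R) (P := P.erase (x0 a)) (x := x0)
        (res x0 x0 hx0 hx0 rfl) (by
          intro b hb hb'
          by_cases hba : b = a
          · rw [hba] at hb'
            exact Finset.notMem_erase _ _ hb'
          · exact h0 b (by simp [hba, hb]) (Finset.mem_of_mem_erase hb'))
        {p, q} (by
          rw [Finset.card_erase_of_mem (hx0.2.2 a ha)]
          have := Finset.card_le_two (a := p) (b := q)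
          omega)
      have hy2 : St (insert a R) P x0 y := by
        refine ⟨hy.1, fun b hb => hy.2.1 b fun h' => hb (Finset.mem_insert_of_mem h'),
          fun b hb => ?_⟩
        by_cases hbR : b ∈ R
        · exact Finset.mem_of_mem_erase (hy.2.2 b hbR)
        · rw [hy.2.1 b hbR]
          exact hx0.2.2 b hb
      refine ⟨y, hy2, hy.2.1 a haR, fun b hb => ?_, fun b hb => ?_⟩
      · by_cases hbR : b ∈ R
        · exact fun h => hy' b hbR (by simp [h])
        · exact hout y hy2 b hb hbR p hp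
      · by_cases hbR : b ∈ R
        · exact fun h => hy' b hbR (by simp [h])
        · exact hout y hy2 b hb hbR q hq
    let L : β → ((α → β) → X) → Prop := fun p σ => ∀ x, St (insert a R) P x0 x → x a = p →
      C.V (σ x) x ∧ ∀ b ∈ R, ∀ j ∈ P, (∀ e, e ≠ b → x e ≠ j) →
        C.Sl (σ x) x b j (σ (update x b j))
    have prop : ∀ p ∈ P, ∀ q ∈ P, p ≠ q → ∀ σ σ', L p σ → L q σ' →
        ∀ y, St (insert a R) P x0 y → y a = p → (∀ b, b ≠ a → y b ≠ q) →
        C.Sl (σ y) y a q (σ' (update y a q)) →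
        ∀ x, St (insert a R) P x0 x → x a = p → (∀ b, b ≠ a → x b ≠ q) →
        C.Sl (σ x) x a q (σ' (update x a q)) := by
      intro p hp q hq hpq σ σ' hσ hσ' y hy hya hyq hS x hx hxa hxq
      have res2 : ∀ z, St (insert a R) P x0 z → z a = p → (∀ b, b ≠ a → z b ≠ q) →
          St R ((P.erase p).erase q) y z := by
        intro z hz hza hzq
        have h1 := res y z hy hz (hza.trans hya.symm)
        rw [hya] at h1
        exact ⟨h1.1, h1.2.1, fun b hb => Finset.mem_erase.mpr
          ⟨hzq b (by rintro rfl; exact haR hb), h1.2.2 b hb⟩⟩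
      have ext2 : ∀ z, St R ((P.erase p).erase q) y z →
          St (insert a R) P x0 z ∧ z a = p ∧ ∀ b, z b ≠ q := by
        intro z hz
        have hza : z a = p := (hz.2.1 a haR).trans hya
        refine ⟨⟨hz.1, fun b hb => ?_, fun b hb => ?_⟩, hza, fun b => ?_⟩
        · rw [hz.2.1 b fun h' => hb (Finset.mem_insert_of_mem h'), hy.2.1 b hb]
        · by_cases hbR : b ∈ R
          · exact Finset.mem_of_mem_erase (Finset.mem_of_mem_erase (hz.2.2 b hbR))
          · rw [hz.2.1 b hbR]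
            exact hy.2.2 b hb
        · by_cases hbR : b ∈ R
          · exact (Finset.mem_erase.mp (hz.2.2 b hbR)).1
          · by_cases hba : b = a
            · rw [hba, hza]
              exact hpq
            · rw [hz.2.1 b hbR]
              exact hyq b hba
      refine token_connected R ((P.erase p).erase q) y
        (fun z => C.Sl (σ z) z a q (σ' (update z a q))) ?_ ?_ ?_ y x (res2 y hy hya hyq)
        (res2 x hx hxa hxq) hS
      · rw [Finset.card_erase_of_mem (Finset.mem_erase.mpr ⟨hpq.symm, hq⟩),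
          Finset.card_erase_of_mem hp]
        omega
      · intro b hb hb'
        by_cases hba : b = a
        · rw [hba, hya] at hb'
          exact Finset.notMem_erase _ _ (Finset.mem_of_mem_erase hb')
        · exact hout y hy b hba hb _ (Finset.mem_of_mem_erase (Finset.mem_of_mem_erase hb')) rfl
      · intro z hz b hb l hl hf hQ
        obtain ⟨hz1, hz2, hz3⟩ := ext2 z hz
        have hab : a ≠ b := by rintro rfl; exact haR hb
        have hlq : l ≠ q := (Finset.mem_erase.mp hl).1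
        have hlP : l ∈ P := Finset.mem_of_mem_erase (Finset.mem_of_mem_erase hl)
        have h1 := (hσ' (update z a q) (hz1.update ha hq fun b _ => hz3 b) (update_self ..)).2
          b hb l hlP (by
            intro e he
            by_cases hea : e = a
            · rw [hea, update_self]
              exact hlq.symm
            · rw [update_of_ne hea]
              exact hf e he)
        rw [update_comm hab.symm]
        exact C.sq _ z a q b l _ _ _ (hσ z hz1 hz2).1 hz.1 hab hz3 hf hlq hQ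
          ((hσ z hz1 hz2).2 b hb l hlP hf) h1
    obtain ⟨τ0, hτ0, hL0⟩ := loc x0 c0 hx0 hV
    have fam : ∀ q, ∃ σ : (α → β) → X, q ∈ P → L q σ ∧ (q = x0 a → σ = τ0) ∧
        ∀ y, St (insert a R) P x0 y → y a = x0 a → (∀ b, b ≠ a → y b ≠ q) →
          C.Sl (τ0 y) y a q (σ (update y a q)) := by
      intro q
      by_cases hq0 : q = x0 a
      · refine ⟨τ0, fun _ => ⟨hq0 ▸ hL0, fun _ => rfl, fun y hy hya _ => ?_⟩⟩
        rw [hq0, ← hya, update_eq_self]
        exact C.refl _ _ _ (hL0 y hy hya).1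
      by_cases hq : q ∈ P
      · obtain ⟨y, hy, hya, hyq, -⟩ := avoid q hq q hq
        obtain ⟨c, hc⟩ := C.ex _ y a q (hL0 y hy hya).1 hy.1 hyq
        obtain ⟨σ, hσ, hL⟩ := loc (update y a q) c (hy.update ha hq hyq) (C.val _ _ _ _ _ hc)
        rw [update_self] at hL
        exact ⟨σ, fun _ => ⟨hL, fun h => absurd h hq0, prop _ (hx0.2.2 a ha) q hq (Ne.symm hq0)
          τ0 σ hL0 hL y hy hya hyq (hσ ▸ hc)⟩⟩
      · exact ⟨τ0, fun h => absurd h hq⟩
    choose σ hσ using fam
    refine ⟨fun x => σ (x a) x, ?_, fun x hx => ?_⟩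
    · simp only
      rw [(hσ _ (hx0.2.2 a ha)).2.1 rfl, hτ0]
    · have hp := hx.2.2 a ha
      have hLp := (hσ _ hp).1
      refine ⟨(hLp x hx rfl).1, fun b hb j hj hf => ?_⟩
      rcases Finset.mem_insert.mp hb with rfl | hbR
      · simp only [update_self]
        by_cases hj' : x b = j
        · subst hj'
          rw [update_eq_self]
          exact C.refl _ _ _ (hLp x hx rfl).1
        · obtain ⟨y, hy, hya, hyp, hyq⟩ := avoid _ hp j hj
          have h1 := C.tri _ y b (x b) j _ _ (hL0 y hy hya).1 hy.1 hyp hyq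
            ((hσ _ hp).2.2 y hy hya hyp) ((hσ _ hj).2.2 y hy hya hyq)
          refine prop _ hp j hj hj' _ _ hLp (hσ _ hj).1 (update y b (x b)) (hy.update ha hp hyp)
            (update_self ..) (fun e he => by rw [update_of_ne he]; exact hyq e he) ?_ x hx rfl hf
          rwa [update_idem]
      · have hab : a ≠ b := by rintro rfl; exact haR hbR
        simp only [update_of_ne hab]
        exact (hLp x hx rfl).2 b hbR j hj hf

theorem Cover.exists_section [Fintype α] [Fintype β] (C : Cover α β X)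
    (hc : Fintype.card α + 2 ≤ Fintype.card β) (x0 : α → β) (c0 : X) (hx0 : Injective x0)
    (hV : C.V c0 x0) :
    ∃ τ : (α → β) → X, τ x0 = c0 ∧ ∀ x, Injective x → C.V (τ x) x ∧
      ∀ a j, (∀ b, b ≠ a → x b ≠ j) → C.Sl (τ x) x a j (τ (update x a j)) := by
  obtain ⟨τ, h1, h2⟩ := C.section_aux Finset.univ Finset.univ x0 c0 hc (by simp)
    ⟨hx0, by simp, by simp⟩ hV
  refine ⟨τ, h1, fun x hx => ?_⟩
  have h3 := h2 x ⟨hx, by simp, by simp⟩
  exact ⟨h3.1, fun a j hf => h3.2 a (by simp) j (by simp) hf⟩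

end Pool.Agent.Work.MP_5b5e81_al
end

-- merged part: Pool.Agent.Work.MP_5b5e81_al.Slide
section
/-! The `R`-class of a partial identity and a section over the injections. -/

set_option autoImplicit false

namespace Pool.Agent.Work.MP_5b5e81_al

open Relation Pt Function

variable {n : ℕ} {A : Finset (Fin n)}

variable (A) in
/-- the `R`-class of the partial identity on `A` -/
def RQ (α : Pt n) : Prop := q A * α = α ∧ ∃ y, α * y = q A

/-- different tokens are in different classes -/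
def Ok (x : A → Fin n) (κ : Setoid (Fin n)) : Prop := ∀ a b, κ (x a) (x b) → a = b

theorem Ok.inj {x : A → Fin n} {κ : Setoid (Fin n)} (h : Ok x κ) : Injective x :=
  fun a b hab => h a b (by rw [hab])

theorem Ok.of_rel {x x' : A → Fin n} {κ : Setoid (Fin n)} (h : Ok x κ)
    (h' : ∀ a, κ (x a) (x' a)) : Ok x' κ :=
  fun a b hab => h a b (κ.trans' (h' a) (κ.trans' hab (κ.symm' (h' b))))

theorem ok_ker {w : A → Fin n} (hw : Injective w) (f : Fin n → Fin n) (h : ∀ e, f (w e) = w e) :
    Ok w (Setoid.ker f) := fun a b hab => hw (by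
  have : f (w a) = f (w b) := hab
  rwa [h, h] at this)

theorem RQ.kr {α e : Pt n} (h : RQ A α) (h' : RQ A (α * e)) : KR α e := by
  obtain ⟨y, hy⟩ := h'.2
  exact ⟨y * α, by rw [← mul_assoc, hy, h.1]⟩

theorem RQ.of_kr {α e : Pt n} (h : RQ A α) (h' : KR α e) : RQ A (α * e) := by
  obtain ⟨y, hy⟩ := h.2
  obtain ⟨z, hz⟩ := h'
  exact ⟨by rw [← mul_assoc, h.1], z * y, by rw [← mul_assoc, hz, hy]⟩

theorem RQ.of_kr' {α e : Pt n} (h : RQ A (α * e)) (h' : KR α e) : RQ A α := by
  obtain ⟨y, hy⟩ := h.2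
  obtain ⟨z, hz⟩ := h'
  exact ⟨by rw [← hz, ← mul_assoc, h.1], e * y, by rw [← mul_assoc, hy]⟩

theorem RQ.of_mul {α e f : Pt n} (h : RQ A α) (h' : RQ A (α * e * f)) : RQ A (α * e) :=
  h.of_kr (h.kr (by rwa [mul_assoc] at h')).of_mul

theorem ρ_δm (x : A → Fin n) (κ : Setoid (Fin n)) (u z : Fin n → ℚ) :
    (δ x * m κ).ρ u z ↔ Cst κ z ∧ ∀ a, z (x a) = u a := by
  simp only [ρ_mul, ρ_m, ρ_δ]
  constructor
  · rintro ⟨_, h, rfl, h'⟩
    exact ⟨h', h⟩
  · rintro ⟨h, h'⟩
    exact ⟨z, h', rfl, h⟩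

theorem q_mul_δ (x : A → Fin n) : q A * δ x = δ x := ext_ρ fun u z => by
  simp only [ρ_mul, ρ_q, ρ_δ]
  constructor
  · rintro ⟨y, h, h'⟩ a
    rw [h' a, h a a.2]
  · intro h
    exact ⟨u, fun _ _ => rfl, h⟩

theorem exists_pull (x : A → Fin n) (z : Fin n → ℚ) : ∃ u : Fin n → ℚ, ∀ a : A, z (x a) = u a := by
  classical
  exact ⟨fun i => if h : i ∈ A then z (x ⟨i, h⟩) else 0, fun a => by simp⟩

theorem rq_δm {x : A → Fin n} {κ : Setoid (Fin n)} (h : Ok x κ) : RQ A (δ x * m κ) := by
  classical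
  refine ⟨by rw [← mul_assoc, q_mul_δ], (δ x).star, ext_ρ fun u w => ?_⟩
  rw [ρ_mul]
  simp only [ρ_δm, ρ_star, ρ_δ, ρ_q]
  constructor
  · rintro ⟨y, ⟨-, h1⟩, h2⟩ a ha
    rw [← h1 ⟨a, ha⟩, ← h2 ⟨a, ha⟩]
  · intro h1
    let y : Fin n → ℚ := fun l => if hl : ∃ a, κ (x a) l then u hl.choose else 0
    have hy : ∀ a, y (x a) = u a := by
      intro a
      have hl : ∃ b, κ (x b) (x a) := ⟨a, κ.refl' _⟩
      simp only [y, dif_pos hl, h _ _ hl.choose_spec]
    refine ⟨y, ⟨fun i j hij => ?_, hy⟩, fun a => by rw [hy, h1 a a.2]⟩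
    by_cases hi : ∃ a, κ (x a) i
    · have hj : ∃ a, κ (x a) j := ⟨hi.choose, κ.trans' hi.choose_spec hij⟩
      simp only [y, dif_pos hi, dif_pos hj]
      rw [h _ _ (κ.trans' (κ.trans' hi.choose_spec hij) (κ.symm' hj.choose_spec))]
    · have hj : ¬ ∃ a, κ (x a) j := fun ⟨a, ha⟩ => hi ⟨a, κ.trans' ha (κ.symm' hij)⟩
      simp only [y, dif_neg hi, dif_neg hj]

theorem ok_of_rq {x : A → Fin n} {κ : Setoid (Fin n)} (h : RQ A (δ x * m κ)) : Ok x κ := by
  intro a b hab
  obtain ⟨y, hy⟩ := h.2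
  have h1 : (q A).ρ (Pi.single a.1 1) (Pi.single a.1 1) := (ρ_q _ _ _).mpr fun _ _ => rfl
  rw [← hy, ρ_mul] at h1
  obtain ⟨z, h2, -⟩ := h1
  rw [ρ_δm] at h2
  have h3 := h2.1 _ _ hab
  rw [h2.2, h2.2] at h3
  by_contra h4
  rw [Pi.single_eq_same, Pi.single_eq_of_ne (fun h5 => h4 (Subtype.ext h5).symm)] at h3
  exact one_ne_zero h3

theorem rq_δ {x : A → Fin n} (h : Injective x) : RQ A (δ x) := by
  have := rq_δm (x := x) (κ := ⊥) fun a b hab => h hab
  rwa [m_bot, mul_one] at this

theorem RQ.tr {α : Pt n} (h : RQ A α) (a : A) : ∃ j, α.r (false, a.1) (true, j) := by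
  rw [← dom_iff]
  intro u hu
  obtain ⟨y, hy⟩ := h.2
  have h1 : (q A).ρ u 0 := by
    rw [← hy]
    exact (ρ_mul _ _ _ _).mpr ⟨0, hu, ρ_zero _⟩
  exact ((ρ_q _ _ _).mp h1 a a.2).symm

theorem RQ.eq {α : Pt n} (h : RQ A α) {x : A → Fin n} (hx : ∀ a : A, α.r (false, a.1) (true, x a)) :
    α = δ x * m α.lo := ext_ρ fun u z => by
  rw [ρ_δm, cst_lo]
  constructor
  · intro h1
    exact ⟨⟨u, h1⟩, fun a => by simpa using (h1 _ _ (hx a)).symm⟩
  · rintro ⟨⟨u', h1⟩, h2⟩
    rw [← h.1, ρ_mul]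
    refine ⟨u', (ρ_q _ _ _).mpr fun a ha => ?_, h1⟩
    rw [← h2 ⟨a, ha⟩]
    simpa using h1 _ _ (hx ⟨a, ha⟩)

theorem lo_δm (x : A → Fin n) (κ : Setoid (Fin n)) : (δ x * m κ).lo = κ := by
  ext i j
  simp only [cst_iff κ, cst_iff (δ x * m κ).lo, cst_lo, ρ_δm]
  refine forall_congr' fun z => imp_congr_left ⟨fun ⟨_, h, _⟩ => h, fun h => ?_⟩
  obtain ⟨u, hu⟩ := exists_pull x z
  exact ⟨u, h, hu⟩

theorem tr_δm (x : A → Fin n) (κ : Setoid (Fin n)) (a : A) (j : Fin n) :
    (δ x * m κ).r (false, a.1) (true, j) ↔ κ (x a) j := by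
  rw [r_iff, cst_iff]
  simp only [ρ_δm, col_false, col_true]
  constructor
  · intro h z hz
    obtain ⟨u, hu⟩ := exists_pull x z
    rw [hu, h u z ⟨hz, hu⟩]
  · rintro h u z ⟨h1, h2⟩
    rw [← h2, h z h1]

theorem δ_val : δ (Subtype.val : A → Fin n) = q A := ext_ρ fun u z => by
  simp [ρ_δ, ρ_q]

theorem δ_mul_hh {x : A → Fin n} (hx : Injective x) (a : A) {j : Fin n} (hj : ∀ b, x b ≠ j) :
    δ x * hh (x a) j = δ (update x a j) := ext_ρ fun u z => by
  classical
  simp only [ρ_mul, ρ_δ, ρ_hh]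
  constructor
  · rintro ⟨y, h1, h2, h3⟩ b
    by_cases hb : b = a
    · rw [hb, update_self, h3 j (hj a).symm, ← h2, h1]
    · rw [update_of_ne hb, h3 _ fun h => hb (hx h), h1]
  · intro h
    refine ⟨update z (x a) (z j), fun b => ?_, ?_, fun l hl => by rw [update_of_ne hl]⟩
    · by_cases hb : b = a
      · have := h a
        rw [update_self] at this
        rw [hb, update_self, this]
      · have := h b
        rw [update_of_ne hb] at this
        rw [update_of_ne fun h => hb (hx h), this]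
    · rw [update_self, update_of_ne (hj a).symm]

theorem hh_mul_m {i j : Fin n} (hij : i ≠ j) {κ : Setoid (Fin n)} (h : κ i j) :
    hh i j * m κ = m κ := ext_ρ fun u z => by
  simp only [ρ_mul, ρ_m, ρ_hh]
  constructor
  · rintro ⟨_, ⟨h1, h2⟩, rfl, h3⟩
    have : z = u := funext fun l => by
      by_cases hl : l = i
      · rw [hl, h3 i j h, h2 j hij.symm, h1]
      · exact h2 l hl
    exact ⟨this, this ▸ h3⟩
  · rintro ⟨rfl, h1⟩
    exact ⟨z, ⟨h1 i j h, fun _ _ => rfl⟩, rfl, h1⟩

variable {M : Type} [Monoid M] (T : Setup (Pt n) M)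

/-- regular lifts of a partial injection -/
def VV (c : M) (x : A → Fin n) : Prop := T.Reg c ∧ T.π c = δ x

/-- slides -/
def SS (c : M) (x : A → Fin n) (a : A) (j : Fin n) (c' : M) : Prop :=
  VV T c' (update x a j) ∧ ∀ κ : Setoid (Fin n), κ (x a) j → c' * T.ι (m κ) = c * T.ι (m κ)

variable {T}

theorem VV.uniq {c c' : M} {x : A → Fin n} (h : VV T c x) (h' : VV T c' x) {κ : Setoid (Fin n)}
    (hκ : Ok x κ) (e : c * T.ι (m κ) = c' * T.ι (m κ)) : c = c' :=
  Setup.cancelR h.1 h'.1 (h.2.trans h'.2.symm) (by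
    rw [h'.2, T.π_ι _ (idem_m κ)]
    exact (rq_δ hκ.inj).kr (rq_δm hκ)) e

theorem VV.ex {c : M} {x : A → Fin n} (h : VV T c x) (hx : Injective x) (a : A) {j : Fin n}
    (hj : ∀ b, b ≠ a → x b ≠ j) : ∃ c', SS T c x a j c' := by
  by_cases hja : x a = j
  · exact ⟨c, by rw [← hja, update_eq_self]; exact h, fun _ _ => rfl⟩
  · have hj' : ∀ b, x b ≠ j := fun b => by
      by_cases hb : b = a
      · rwa [hb]
      · exact hj b hb
    have h1 := δ_mul_hh hx a hj'
    refine ⟨c * T.ι (hh (x a) j), ⟨(h.1.stepR (idem_hh _ _) ?_).1, ?_⟩, fun κ hκ => ?_⟩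
    · rw [h.2]
      exact (rq_δ hx).kr (h1 ▸ rq_δ (inj_update hx a hj))
    · rw [map_mul, h.2, T.π_ι _ (idem_hh _ _), h1]
    · rw [mul_assoc, T.b2 (idem_hh _ _) (idem_m κ) (hh_mul_m hja hκ)]

variable (T A) in
/-- the covering of the graph of injections -/
def cover : Cover A (Fin n) M where
  V := VV T
  Sl := SS T
  ex := fun _ _ a _ h hx hj => h.ex hx a hj
  val := fun _ _ _ _ _ h => h.1
  refl := fun _ _ _ h => ⟨by rwa [update_eq_self], fun _ _ => rfl⟩
  tri := by
    intro c x a j k c' c'' h hx hj hk h1 h2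
    obtain ⟨d, hd⟩ := h1.1.ex (inj_update hx a hj) a (j := k) fun b hb => by
      rw [update_of_ne hb]; exact hk b hb
    have h3 := hd.1
    rw [update_idem] at h3
    let f : Fin n → Fin n := fun u => if u = x a ∨ u = j then k else u
    have fk : f k = k := by simp [f]
    have : d = c'' := h3.uniq h2.1 (ok_ker (inj_update hx a hk) f (by
      intro e
      by_cases he : e = a
      · rw [he, update_self, fk]
      · have h4 : x e ≠ x a := fun h => he (hx h)
        simp [update_of_ne he, f, h4, hj e he])) (by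
      rw [hd.2 _ (by rw [update_self]; change f j = f k; rw [fk]; simp [f]),
        h1.2 _ (by change f (x a) = f j; simp [f]),
        h2.2 _ (by change f (x a) = f k; rw [fk]; simp [f])])
    exact this ▸ hd
  sq := by
    intro c x a j b l c' d d' h hx hab hj hl hlj h1 h2 h3
    have hf : ∀ e, e ≠ a → update x b l e ≠ j := fun e _ => by
      by_cases he : e = b
      · rw [he, update_self]; exact hlj
      · rw [update_of_ne he]; exact hj e
    obtain ⟨d'', hd⟩ := h2.1.ex (inj_update hx b hl) a hf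
    have h4 := h3.1
    rw [update_comm hab] at h4
    let f : Fin n → Fin n := fun u => if u = x a then j else if u = x b then l else u
    have hxab : x b ≠ x a := fun h => hab (hx h).symm
    have fj : f j = j := by simp [f, (hj a).symm, (hj b).symm]
    have fl : f l = l := by simp [f, (hl a hab).symm]
    have fa : f (x a) = j := by simp [f]
    have fb : f (x b) = l := by simp [f, hxab]
    have : d'' = d' := hd.1.uniq h4 (ok_ker (inj_update (inj_update hx b hl) a hf) f (by
      intro e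
      by_cases he : e = a
      · rw [he, update_self, fj]
      · rw [update_of_ne he]
        by_cases he' : e = b
        · rw [he', update_self, fl]
        · have h5 : x e ≠ x a := fun h => he (hx h)
          have h6 : x e ≠ x b := fun h => he' (hx h)
          simp [update_of_ne he', f, h5, h6])) (by
      rw [hd.2 _ (by rw [update_of_ne hab]; change f (x a) = f j; rw [fa, fj]),
        h2.2 _ (by change f (x b) = f l; rw [fb, fl]),
        h3.2 _ (by rw [update_of_ne hab.symm]; change f (x b) = f l; rw [fb, fl]),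
        h1.2 _ (by change f (x a) = f j; rw [fa, fj])])
    exact this ▸ hd

variable (T) in
/-- sections over the injections -/
def Sec (τ : (A → Fin n) → M) : Prop :=
  ∀ x, Injective x → VV T (τ x) x ∧ ∀ a j, (∀ b, b ≠ a → x b ≠ j) →
    ∀ κ : Setoid (Fin n), κ (x a) j → τ (update x a j) * T.ι (m κ) = τ x * T.ι (m κ)

theorem exists_sec (hA : A.card + 2 ≤ n) :
    ∃ τ : (A → Fin n) → M, τ Subtype.val = T.ι (q A) ∧ Sec T τ := by
  obtain ⟨τ, h1, h2⟩ := (cover A T).exists_section (by simpa using hA) Subtype.val (T.ι (q A))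
    Subtype.val_injective ⟨T.reg_ι (idem_q A), by rw [T.π_ι _ (idem_q A), δ_val]⟩
  exact ⟨τ, h1, fun x hx => ⟨(h2 x hx).1, fun a j hj => ((h2 x hx).2 a j hj).2⟩⟩

theorem Sec.indep {τ : (A → Fin n) → M} (hτ : Sec T τ) {x x' : A → Fin n} {κ : Setoid (Fin n)}
    (h : Ok x κ) (h' : ∀ a, κ (x a) (x' a)) : τ x' * T.ι (m κ) = τ x * T.ι (m κ) := by
  classical
  have key : ∀ B : Finset A, τ (B.piecewise x' x) * T.ι (m κ) = τ x * T.ι (m κ) := by
    intro B
    induction B using Finset.induction_on with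
    | empty => simp
    | insert a B ha ih =>
      have h1 : ∀ b, κ (x b) (B.piecewise x' x b) := fun b => by
        by_cases hb : b ∈ B
        · rw [Finset.piecewise_eq_of_mem _ _ _ hb]; exact h' b
        · rw [Finset.piecewise_eq_of_notMem _ _ _ hb]
      rw [Finset.piecewise_insert, ← ih]
      refine (hτ _ (h.of_rel h1).inj).2 a _ (fun b hb hb' => hb (h _ _ ?_)) κ
        (κ.trans' (κ.symm' (h1 a)) (h' a))
      exact κ.trans' (h1 b) (hb' ▸ κ.symm' (h' a))
  have := key Finset.univ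
  rwa [Finset.piecewise_univ] at this

end Pool.Agent.Work.MP_5b5e81_al
end

-- merged part: Pool.Agent.Work.MP_5b5e81_al.Low
section
/-! Regular elements of rank at most `n - 2` are determined by their image and their twist. -/

set_option autoImplicit false

namespace Pool.Agent.Work.MP_5b5e81_al

open Relation Pt Function

variable {n : ℕ} {A : Finset (Fin n)}

/-- isolate the point `i` -/
def iso (κ : Setoid (Fin n)) (i : Fin n) : Setoid (Fin n) :=
  EqvGen.setoid fun u v => u ≠ i ∧ v ≠ i ∧ κ u v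

theorem cst_gen (s : Fin n → Fin n → Prop) (z : Fin n → ℚ) :
    Cst (EqvGen.setoid s) z ↔ ∀ u v, s u v → z u = z v :=
  ⟨fun h u v huv => h u v (EqvGen.rel _ _ huv), fun h _ _ huv => eqvGen_const h huv⟩

theorem cst_iso (κ : Setoid (Fin n)) (i : Fin n) (z : Fin n → ℚ) :
    Cst (iso κ i) z ↔ ∀ u v, u ≠ i → v ≠ i → κ u v → z u = z v := by
  rw [iso, cst_gen]
  exact ⟨fun h u v h1 h2 h3 => h u v ⟨h1, h2, h3⟩, fun h u v h' => h u v h'.1 h'.2.1 h'.2.2⟩

theorem iso_le {κ : Setoid (Fin n)} {i u v : Fin n} (h : iso κ i u v) : κ u v := by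
  rw [cst_iff] at h ⊢
  exact fun z hz => h z ((cst_iso _ _ _).mpr fun u v _ _ h' => hz u v h')

theorem Ok.iso {x : A → Fin n} {κ : Setoid (Fin n)} (h : Ok x κ) (i : Fin n) : Ok x (iso κ i) :=
  fun a b hab => h a b (iso_le hab)

theorem exists_cst_ext {κ : Setoid (Fin n)} {i : Fin n} {z : Fin n → ℚ} (h : Cst (iso κ i) z) :
    ∃ y, Cst κ y ∧ ∀ l, l ≠ i → y l = z l := by
  rw [cst_iso] at h
  by_cases hj : ∃ j, j ≠ i ∧ κ i j
  · obtain ⟨j, hj, hij⟩ := hj
    refine ⟨update z i (z j), fun u v huv => ?_, fun l hl => update_of_ne hl _ _⟩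
    by_cases hu : u = i <;> by_cases hv : v = i
    · rw [hu, hv]
    · rw [hu, update_self, update_of_ne hv]
      exact h _ _ hj hv (κ.trans' (κ.symm' hij) (hu ▸ huv))
    · rw [hv, update_self, update_of_ne hu]
      exact h _ _ hu hj (κ.trans' (hv ▸ huv) hij)
    · rw [update_of_ne hu, update_of_ne hv]
      exact h _ _ hu hv huv
  · push Not at hj
    refine ⟨z, fun u v huv => ?_, fun _ _ => rfl⟩
    by_cases hu : u = i <;> by_cases hv : v = i
    · rw [hu, hv]
    · exact absurd (hu ▸ huv) (hj v hv)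
    · exact absurd (hv ▸ κ.symm' huv) (hj u hu)
    · exact h _ _ hu hv huv

theorem δm_mul_p {x : A → Fin n} (κ : Setoid (Fin n)) {i : Fin n} (hi : ∀ a, x a ≠ i) :
    δ x * m κ * p i = δ x * m (iso κ i) := ext_ρ fun u z => by
  rw [ρ_mul]
  simp only [ρ_δm, ρ_p]
  constructor
  · rintro ⟨y, ⟨h1, h2⟩, h3⟩
    exact ⟨(cst_iso _ _ _).mpr fun a b ha hb hab => by rw [h3 a ha, h3 b hb, h1 a b hab],
      fun a => by rw [h3 _ (hi a), h2]⟩
  · rintro ⟨h1, h2⟩
    obtain ⟨y, h3, h4⟩ := exists_cst_ext h1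
    exact ⟨y, ⟨h3, fun a => by rw [h4 _ (hi a), h2]⟩, fun a ha => (h4 a ha).symm⟩

theorem m_iso_comm (κ : Setoid (Fin n)) (i : Fin n) :
    m (iso κ i) * p i = p i * m (iso κ i) := ext_ρ fun u z => by
  simp only [ρ_mul, ρ_m, ρ_p, cst_iso]
  constructor
  · rintro ⟨_, ⟨rfl, h1⟩, h2⟩
    exact ⟨z, h2, rfl, fun a b ha hb hab => by rw [h2 a ha, h2 b hb, h1 a b ha hb hab]⟩
  · rintro ⟨_, h2, rfl, h1⟩
    exact ⟨u, ⟨rfl, fun a b ha hb hab => by rw [← h2 a ha, ← h2 b hb, h1 a b ha hb hab]⟩, h2⟩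

/-- the equivalence joining `i` and `j` -/
def pr (i j : Fin n) : Setoid (Fin n) := EqvGen.setoid fun u v => u = i ∧ v = j

theorem cst_pr (i j : Fin n) (z : Fin n → ℚ) : Cst (pr i j) z ↔ z i = z j := by
  rw [pr, cst_gen]
  exact ⟨fun h => h i j ⟨rfl, rfl⟩, by rintro h _ _ ⟨rfl, rfl⟩; exact h⟩

theorem setoid_ext_cst {κ κ' : Setoid (Fin n)} (h : ∀ z, Cst κ z ↔ Cst κ' z) : κ = κ' := by
  ext i j
  simp only [cst_iff κ, cst_iff κ', h]

theorem pr_comm (i j : Fin n) : pr i j = pr j i :=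
  setoid_ext_cst fun z => by rw [cst_pr, cst_pr, eq_comm]

theorem pr_sup_iso {κ : Setoid (Fin n)} {i j : Fin n} (hj : j ≠ i) (h : κ i j) :
    pr i j ⊔ iso κ i = κ := setoid_ext_cst fun z => by
  rw [cst_sup, cst_pr]
  refine ⟨fun ⟨h1, h2⟩ => ?_, fun h1 => ⟨h1 i j h, fun u v huv => h1 u v (iso_le huv)⟩⟩
  obtain ⟨y, h3, h4⟩ := exists_cst_ext h2
  have : z = y := funext fun l => by
    by_cases hl : l = i
    · rw [hl, h1, ← h4 j hj, h3 i j h]
    · exact (h4 l hl).symm
  rwa [this]

theorem δ_pr_p {x : A → Fin n} {i : Fin n} (hi : ∀ a, x a ≠ i) (j : Fin n) :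
    δ x * m (pr i j) * p i = δ x := by
  rw [δm_mul_p _ hi]
  have : iso (pr i j) i = ⊥ := setoid_ext_cst fun z => by
    refine ⟨fun _ u v huv => ?_, fun _ => (cst_iso _ _ _).mpr fun u v hu hv huv => ?_⟩
    · have : u = v := huv
      rw [this]
    · have := (cst_iff _ _ _).mp huv (update z i (z j)) ((cst_pr _ _ _).mpr (by
        by_cases hj : j = i
        · rw [hj]
        · rw [update_self, update_of_ne hj]))
      rwa [update_of_ne hu, update_of_ne hv] at this
  rw [this, m_bot, mul_one]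

/-- the equivalence with one block `B` -/
def blk (B : Finset (Fin n)) : Setoid (Fin n) where
  r u v := u = v ∨ (u ∈ B ∧ v ∈ B)
  iseqv := ⟨fun _ => Or.inl rfl, fun h => h.elim (fun h => Or.inl h.symm) fun h => Or.inr h.symm,
    by
      rintro u v w (rfl | h) (rfl | h')
      · exact Or.inl rfl
      · exact Or.inr h'
      · exact Or.inr h
      · exact Or.inr ⟨h.1, h'.2⟩⟩

theorem ok_blk {x : A → Fin n} (hx : Injective x) {B : Finset (Fin n)}
    (h : ∀ a b, x a ∈ B → x b ∈ B → a = b) : Ok x (blk B) := by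
  rintro a b (h1 | h1)
  · exact hx h1
  · exact h a b h1.1 h1.2

variable {M : Type} [Monoid M] {T : Setup (Pt n) M}

theorem merge_merge {c : M} (hc : T.Reg c) (κ κ' : Setoid (Fin n))
    (h : KR (T.π c) (m (κ ⊔ κ'))) : c * T.ι (m κ) * T.ι (m κ') = c * T.ι (m (κ ⊔ κ')) := by
  have h1 := (hc.mulR (T.ι (m κ) * T.ι (m κ')) (by
    rwa [map_mul, T.π_ι _ (idem_m κ), T.π_ι _ (idem_m κ'), m_mul_m])).1
  rw [← mul_assoc] at h1
  rw [← h1.fixR (idem_m (κ ⊔ κ')) (by
    rw [map_mul, map_mul, T.π_ι _ (idem_m κ), T.π_ι _ (idem_m κ'), mul_assoc _ (m κ), m_mul_m,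
      mul_assoc, (idem_m _).eq]), mul_assoc _ (T.ι (m κ')),
    T.b2 (idem_m _) (idem_m _) (by rw [m_mul_m, sup_eq_right.mpr le_sup_right]), mul_assoc,
    T.b2 (idem_m _) (idem_m _) (by rw [m_mul_m, sup_eq_right.mpr le_sup_left])]

variable {τ : (A → Fin n) → M}

theorem Sec.reg_m (hτ : Sec T τ) {x : A → Fin n} {κ : Setoid (Fin n)} (h : Ok x κ) :
    T.Reg (τ x * T.ι (m κ)) ∧ T.π (τ x * T.ι (m κ)) = δ x * m κ := by
  have h1 := (hτ x h.inj).1
  refine ⟨(h1.1.stepR (idem_m κ) ?_).1, by rw [map_mul, h1.2, T.π_ι _ (idem_m κ)]⟩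
  rw [h1.2]
  exact (rq_δ h.inj).kr (rq_δm h)

theorem Sec.split (hτ : Sec T τ) {x : A → Fin n} {κ : Setoid (Fin n)} (h : Ok x κ) {i j : Fin n}
    (hi : ∀ a, x a ≠ i) (hj : j ≠ i) (hij : κ i j) :
    τ x * T.ι (m κ) * T.ι (p i) = τ x * T.ι (m (pr i j)) * T.ι (p i) * T.ι (m (iso κ i)) := by
  have h1 := (hτ x h.inj).1
  have h2 : Ok x (pr i j) := fun a b hab => h a b (by
    rw [← pr_sup_iso hj hij]
    exact le_sup_left (a := pr i j) (b := iso κ i) hab)
  have h3 := hτ.reg_m h2
  have h4 := merge_merge h1.1 (pr i j) (iso κ i) (by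
    rw [pr_sup_iso hj hij, h1.2]
    exact (rq_δ h.inj).kr (rq_δm h))
  rw [pr_sup_iso hj hij] at h4
  rw [← h4]
  refine Setup.comm_act h3.1 (idem_m _) (idem_p i) (m_iso_comm κ i) ?_
  rw [h3.2]
  refine (rq_δm h2).kr ?_
  rw [← mul_assoc, mul_assoc (δ x), m_mul_m, pr_sup_iso hj hij, δm_mul_p _ hi]
  exact rq_δm (h.iso i)

variable (T τ) in
/-- the loop at `x` through the points `i, j` is `ζ` -/
def ZZ (ζ : M) (x : A → Fin n) (i j : Fin n) : Prop :=
  τ x * T.ι (m (pr i j)) * T.ι (p i) = ζ * τ x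

variable {ζ : M}

theorem ok_pr {x : A → Fin n} (hx : Injective x) {i : Fin n} (hi : ∀ a, x a ≠ i) (j : Fin n) :
    Ok x (pr i j) := fun a b hab => by
  have h1 : Ok x (blk {i, j}) := ok_blk hx fun a b ha hb => hx (by
    simp only [Finset.mem_insert, Finset.mem_singleton, hi, false_or] at ha hb
    rw [ha, hb])
  refine h1 a b ((cst_iff _ _ _).mpr fun z hz => (cst_iff _ _ _).mp hab z ((cst_pr _ _ _).mpr ?_))
  exact hz i j (Or.inr ⟨by simp, by simp⟩)

theorem Sec.reg_loop (hτ : Sec T τ) {x : A → Fin n} (hx : Injective x) {i : Fin n}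
    (hi : ∀ a, x a ≠ i) (j : Fin n) : VV T (τ x * T.ι (m (pr i j)) * T.ι (p i)) x := by
  have h3 := hτ.reg_m (ok_pr hx hi j)
  refine ⟨(h3.1.stepR (idem_p i) ?_).1, by rw [map_mul, h3.2, T.π_ι _ (idem_p i), δ_pr_p hi]⟩
  rw [h3.2]
  refine (rq_δm (ok_pr hx hi j)).kr ?_
  rw [δ_pr_p hi]
  exact rq_δ hx

theorem reg_left (hζ : T.π ζ = q A) {c : M} (hc : T.Reg c) (h : q A * T.π c = T.π c) :
    T.Reg (ζ * c) ∧ T.π (ζ * c) = T.π c :=
  ⟨(hc.mulL ζ ⟨1, by rw [one_mul, hζ, h]⟩).1, by rw [map_mul, hζ, h]⟩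

theorem Sec.zz_move (hτ : Sec T τ) (hζ : T.π ζ = q A) {x x' : A → Fin n} {κ : Setoid (Fin n)}
    (h : Ok x κ) (h' : ∀ a, κ (x a) (x' a)) {i j j' : Fin n} (hi : ∀ a, x a ≠ i)
    (hi' : ∀ a, x' a ≠ i) (hj : j ≠ i) (hj' : j' ≠ i) (hij : κ i j) (hij' : κ i j')
    (hz : ZZ T τ ζ x i j) : ZZ T τ ζ x' i j' := by
  have h1 := h.of_rel h'
  have h2 := (hτ x' h1.inj).1
  have h3 := reg_left hζ h2.1 (by rw [h2.2, q_mul_δ])
  refine (hτ.reg_loop h1.inj hi' j').uniq ⟨h3.1, h3.2.trans h2.2⟩ (h1.iso i) ?_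
  rw [← hτ.split h1 hi' hj' hij', hτ.indep h h', hτ.split h hi hj hij, hz, mul_assoc, mul_assoc,
    hτ.indep (h.iso i) fun a => EqvGen.rel _ _ ⟨hi a, hi' a, h' a⟩]

theorem exists_free' (hA : A.card + 2 ≤ n) (x : A → Fin n) (i : Fin n) :
    ∃ j, j ≠ i ∧ ∀ a, x a ≠ j := by
  classical
  have h1 : (insert i (Finset.univ.image x)).card < (Finset.univ : Finset (Fin n)).card := by
    have h2 := Finset.card_insert_le i (Finset.univ.image x)
    have h3 := Finset.card_image_le (s := (Finset.univ : Finset A)) (f := x)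
    simp only [Finset.card_univ, Fintype.card_coe, Fintype.card_fin] at h3 ⊢
    omega
  obtain ⟨j, -, hj⟩ := Finset.exists_mem_notMem_of_card_lt_card h1
  simp only [Finset.mem_insert, Finset.mem_image, Finset.mem_univ, true_and, not_or,
    not_exists] at hj
  exact ⟨j, hj.1, hj.2⟩

theorem Sec.zz_j (hτ : Sec T τ) (hζ : T.π ζ = q A) (hA : A.card + 2 ≤ n) {x : A → Fin n}
    (hx : Injective x) {i j j' : Fin n} (hi : ∀ a, x a ≠ i) (hj : j ≠ i) (hj' : j' ≠ i)
    (hz : ZZ T τ ζ x i j) : ZZ T τ ζ x i j' := by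
  obtain ⟨l, hl, hl'⟩ := exists_free' hA x i
  have key : ∀ k, Ok x (blk {i, l, k}) := fun k => ok_blk hx fun a b ha hb => hx (by
    simp only [Finset.mem_insert, Finset.mem_singleton, hi, hl', false_or] at ha hb
    rw [ha, hb])
  have h1 : ZZ T τ ζ x i l := hτ.zz_move hζ (key j) (fun _ => Or.inl rfl) hi hi hj hl
    (Or.inr ⟨by simp, by simp⟩) (Or.inr ⟨by simp, by simp⟩) hz
  exact hτ.zz_move hζ (key j') (fun _ => Or.inl rfl) hi hi hl hj'
    (Or.inr ⟨by simp, by simp⟩) (Or.inr ⟨by simp, by simp⟩) h1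

theorem Sec.zz_x (hτ : Sec T τ) (hζ : T.π ζ = q A) (hA : A.card + 2 ≤ n) {x x' : A → Fin n}
    (hx : Injective x) (hx' : Injective x') {i j j' : Fin n} (hi : ∀ a, x a ≠ i)
    (hi' : ∀ a, x' a ≠ i) (hj : j ≠ i) (hj' : j' ≠ i) (hz : ZZ T τ ζ x i j) :
    ZZ T τ ζ x' i j' := by
  classical
  refine token_connected (Finset.univ : Finset A) (Finset.univ.erase i) x
    (fun y => ∀ k, k ≠ i → ZZ T τ ζ y i k) ?_ (by simp) ?_ x x' ⟨hx, by simp, by simpa using hi⟩
    ⟨hx', by simp, by simpa using hi'⟩ (fun k hk => hτ.zz_j hζ hA hx hi hj hk hz) j' hj'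
  · rw [Finset.card_erase_of_mem (Finset.mem_univ i)]
    simp only [Finset.card_univ, Fintype.card_coe, Fintype.card_fin]
    omega
  · intro y hy a _ l hl hf hQ k hk
    have hyi : ∀ b, y b ≠ i := by simpa using hy.2.2
    have hli : l ≠ i := by simpa using hl
    have hyi' : ∀ b, update y a l b ≠ i := fun b => by
      by_cases hb : b = a
      · rwa [hb, update_self]
      · rw [update_of_ne hb]; exact hyi b
    have h1 : Ok y (blk {i, y a, l}) := ok_blk hy.1 (by
      have h2 : ∀ b, y b ∈ ({i, y a, l} : Finset (Fin n)) → b = a := by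
        intro b hb
        by_contra hba
        simp only [Finset.mem_insert, Finset.mem_singleton, hyi, hf b hba, false_or,
          or_false] at hb
        exact hba (hy.1 hb)
      intro b c hb hc
      rw [h2 b hb, h2 c hc])
    refine hτ.zz_j hζ hA (inj_update hy.1 a hf) hyi' hli hk
      (hτ.zz_move hζ h1 (fun b => ?_) hyi hyi' hli hli (Or.inr ⟨by simp, by simp⟩)
        (Or.inr ⟨by simp, by simp⟩) (hQ l hli))
    by_cases hb : b = a
    · rw [hb, update_self]
      exact Or.inr ⟨by simp, by simp⟩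
    · rw [update_of_ne hb]

theorem Sec.zz_swap (hτ : Sec T τ) {x : A → Fin n} (hx : Injective x) {i j : Fin n}
    (hi : ∀ a, x a ≠ i) (hj : ∀ a, x a ≠ j) (hz : ZZ T τ ζ x i j) : ZZ T τ ζ x j i := by
  have h1 := hτ.reg_loop hx hi j
  have h2 := hτ.reg_loop hx hj i
  have hp : ∀ l, (∀ a, x a ≠ l) → δ x * p l = δ x := fun l hl => by
    have := δm_mul_p (x := x) ⊥ hl
    have h3 : iso ⊥ l = ⊥ := le_bot_iff.mp fun _ _ h => iso_le h
    rwa [h3, m_bot, mul_one] at this
  have h3 := hτ.reg_m (ok_pr hx hi j)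
  unfold ZZ at hz ⊢
  rw [← hz, ← h1.1.fixR (idem_p j) (by rw [h1.2, hp j hj]),
    ← h2.1.fixR (idem_p i) (by rw [h2.2, hp i hi]), pr_comm j i]
  refine (Setup.comm_act h3.1 (idem_p i) (idem_p j) ?_ ?_).symm
  · rw [p, p, q_mul_q, q_mul_q, Finset.inter_comm]
  · rw [h3.2]
    refine (rq_δm (ok_pr hx hi j)).kr ?_
    rw [← mul_assoc, δ_pr_p hi, hp j hj]
    exact rq_δ hx

theorem Sec.zz_all (hτ : Sec T τ) (hζ : T.π ζ = q A) (hA : A.card + 2 ≤ n) {x x' : A → Fin n}
    (hx : Injective x) (hx' : Injective x') {i j i' j' : Fin n} (hi : ∀ a, x a ≠ i)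
    (hi' : ∀ a, x' a ≠ i') (hj : j ≠ i) (hj' : j' ≠ i') (hz : ZZ T τ ζ x i j) :
    ZZ T τ ζ x' i' j' := by
  classical
  by_cases hii : i' = i
  · subst hii
    exact hτ.zz_x hζ hA hx hx' hi hi' hj hj' hz
  · obtain ⟨y, hy, hy'⟩ := exists_avoid (R := (Finset.univ : Finset A)) (P := Finset.univ)
      (x0 := x) (x := x) ⟨hx, by simp, by simp⟩ (by simp) {i, i'} (by
        have := Finset.card_le_two (a := i) (b := i')
        simp only [Finset.card_univ, Fintype.card_coe, Fintype.card_fin]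
        omega)
    have h1 : ∀ a, y a ≠ i := fun a h => hy' a (by simp) (by simp [h])
    have h2 : ∀ a, y a ≠ i' := fun a h => hy' a (by simp) (by simp [h])
    exact hτ.zz_x hζ hA hy.1 hx' h2 hi' (Ne.symm hii) hj'
      (hτ.zz_swap hy.1 h1 h2 (hτ.zz_x hζ hA hx hy.1 hi h1 hj hii hz))

end Pool.Agent.Work.MP_5b5e81_al
end

-- merged part: Pool.Agent.Work.MP_5b5e81_al.Low2
section
/-! Regular elements of rank at most `n - 2` are determined by their image and their twist. -/

set_option autoImplicit false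

namespace Pool.Agent.Work.MP_5b5e81_al

open Relation Pt Function

variable {n : ℕ} {A : Finset (Fin n)} {M : Type} [Monoid M] {T : Setup (Pt n) M}
  {τ : (A → Fin n) → M} {ζ : M}

open Classical in
/-- chosen positions of the tokens -/
noncomputable def xs (A : Finset (Fin n)) (α : Pt n) (a : A) : Fin n :=
  if h : ∃ j, α.r (false, a.1) (true, j) then h.choose else a.1

theorem RQ.xs_spec {α : Pt n} (h : RQ A α) (a : A) : α.r (false, a.1) (true, xs A α a) := by
  rw [xs, dif_pos (h.tr a)]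
  exact (h.tr a).choose_spec

variable (T τ) in
/-- the section over the whole `R`-class -/
noncomputable def tt (α : Pt n) : M := τ (xs A α) * T.ι (m α.lo)

theorem Sec.tt_eq (hτ : Sec T τ) {x : A → Fin n} {κ : Setoid (Fin n)} (h : Ok x κ) :
    tt T τ (δ x * m κ) = τ x * T.ι (m κ) := by
  rw [tt, lo_δm]
  exact hτ.indep h fun a => (tr_δm x κ a _).mp ((rq_δm h).xs_spec a)

theorem RQ.decomp {α : Pt n} (h : RQ A α) :
    ∃ (x : A → Fin n) (κ : Setoid (Fin n)), Ok x κ ∧ α = δ x * m κ :=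
  ⟨xs A α, α.lo, ok_of_rq (h.eq h.xs_spec ▸ h), h.eq h.xs_spec⟩

theorem RQ.decomp_p {α : Pt n} (h : RQ A α) {i : Fin n} (h' : RQ A (α * p i)) :
    ∃ (x : A → Fin n) (κ : Setoid (Fin n)), Ok x κ ∧ α = δ x * m κ ∧ ∀ a, x a ≠ i := by
  have h1 : ∀ a, xs A (α * p i) a ≠ i := by
    intro a ha
    have h2 := (r_iff _ _ _).mp (h'.xs_spec a) 0 (Pi.single i 1) ((ρ_mul _ _ _ _).mpr
      ⟨0, ρ_zero _, (ρ_p _ _ _).mpr fun b hb => by simp [hb]⟩)
    simp [ha] at h2
  have h2 : ∀ a : A, α.r (false, a.1) (true, xs A (α * p i) a) := by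
    intro a
    rw [r_iff]
    intro u z huz
    exact (r_iff _ _ _).mp (h'.xs_spec a) u z ((ρ_mul _ _ _ _).mpr
      ⟨z, huz, (ρ_p _ _ _).mpr fun _ _ => rfl⟩)
  exact ⟨_, α.lo, ok_of_rq (h.eq h2 ▸ h), h.eq h2, h1⟩

theorem Sec.reg_tt (hτ : Sec T τ) {α : Pt n} (h : RQ A α) :
    T.Reg (tt T τ α) ∧ T.π (tt T τ α) = α := by
  obtain ⟨x, κ, h1, rfl⟩ := h.decomp
  rw [hτ.tt_eq h1]
  exact hτ.reg_m h1

theorem Sec.tt_move (hτ : Sec T τ)
    (hz : ∀ (x : A → Fin n) i j, Injective x → (∀ a, x a ≠ i) → j ≠ i → ZZ T τ ζ x i j)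
    {α e : Pt n} (he : Elem e) (h : RQ A α) (h' : RQ A (α * e)) :
    ∃ k : ℕ, tt T τ α * T.ι e = ζ ^ k * tt T τ (α * e) := by
  rcases he with ⟨κ', rfl⟩ | ⟨i, rfl⟩
  · obtain ⟨x, κ, h1, rfl⟩ := h.decomp
    rw [mul_assoc, m_mul_m] at h' ⊢
    refine ⟨0, ?_⟩
    rw [pow_zero, one_mul, hτ.tt_eq h1, hτ.tt_eq (ok_of_rq h')]
    refine merge_merge (hτ x h1.inj).1.1 _ _ ?_
    rw [(hτ x h1.inj).1.2]
    exact (rq_δ h1.inj).kr h'
  · obtain ⟨x, κ, h1, rfl, hi⟩ := h.decomp_p h'
    rw [δm_mul_p _ hi, hτ.tt_eq h1, hτ.tt_eq (h1.iso i)]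
    by_cases hj : ∃ j, j ≠ i ∧ κ i j
    · obtain ⟨j, hj, hij⟩ := hj
      exact ⟨1, by rw [hτ.split h1 hi hj hij, hz x i j h1.inj hi hj, pow_one, mul_assoc]⟩
    · push Not at hj
      have h2 : iso κ i = κ := setoid_ext_cst fun z => by
        refine ⟨fun h3 u v huv => ?_, fun h3 u v huv => h3 u v (iso_le huv)⟩
        by_cases hu : u = i <;> by_cases hv : v = i
        · rw [hu, hv]
        · exact absurd (hu ▸ huv) (hj v hv)
        · exact absurd (hv ▸ κ.symm' huv) (hj u hu)
        · exact (cst_iso _ _ _).mp h3 _ _ hu hv huv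
      refine ⟨0, ?_⟩
      rw [h2, pow_zero, one_mul]
      refine (hτ.reg_m h1).1.fixR (idem_p i) ?_
      rw [(hτ.reg_m h1).2, δm_mul_p _ hi, h2]

theorem reg_pow_left (hζ : T.π ζ = q A) {c : M} (hc : T.Reg c) (h : q A * T.π c = T.π c)
    (k : ℕ) : T.Reg (ζ ^ k * c) ∧ T.π (ζ ^ k * c) = T.π c := by
  induction k with
  | zero => simpa using hc
  | succ k ih =>
    have := reg_left hζ ih.1 (by rw [ih.2, h])
    rw [pow_succ', mul_assoc]
    exact ⟨this.1, this.2.trans ih.2⟩

variable (T τ ζ) in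
/-- the invariant -/
def YY (c : M) : Prop :=
  T.Reg c ∧ RQ A (T.π c) ∧ ∃ k l : ℕ, ζ ^ k * c = ζ ^ l * tt T τ (T.π c)

theorem Sec.yy_mv (hτ : Sec T τ) (hζ : T.π ζ = q A)
    (hz : ∀ (x : A → Fin n) i j, Injective x → (∀ a, x a ≠ i) → j ≠ i → ZZ T τ ζ x i j)
    {c d : M} (h : Mv T c d) : YY T τ ζ c ↔ YY T τ ζ d := by
  obtain ⟨e, he, ⟨y, hy⟩, rfl⟩ := h
  have pe := T.π_ι e he.idem
  have h0 : KR (T.π c) e := ⟨T.π y, by rw [← pe, ← map_mul, ← map_mul, hy]⟩
  have pc : T.π (c * T.ι e) = T.π c * e := by rw [map_mul, pe]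
  constructor
  · rintro ⟨h1, h2, k, l, h3⟩
    obtain ⟨j, hj⟩ := hτ.tt_move hz he h2 (h2.of_kr h0)
    refine ⟨(h1.stepR he.idem h0).1, pc ▸ h2.of_kr h0, k, l + j, ?_⟩
    rw [← mul_assoc, h3, mul_assoc, hj, pc, pow_add, mul_assoc]
  · rintro ⟨h1, h2, k, l, h3⟩
    rw [pc] at h2 h3
    have h4 := h2.of_kr' h0
    have h5 : T.Reg c := by
      rw [← hy]
      refine (h1.mulR y ⟨e, ?_⟩).1
      rw [← map_mul, hy, pc]
    obtain ⟨j, hj⟩ := hτ.tt_move hz he h4 h2
    refine ⟨h5, h4, j + k, l, ?_⟩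
    have h6 := reg_pow_left hζ h5 h4.1 (j + k)
    have h7 := hτ.reg_tt h4
    have h8 := reg_pow_left hζ h7.1 (by rw [h7.2, h4.1]) l
    refine Setup.cancelR h6.1 h8.1 (by rw [h6.2, h8.2, h7.2]) (w := T.ι e)
      (by rwa [h8.2, h7.2, pe]) ?_
    rw [mul_assoc, mul_assoc, hj, pow_add, mul_assoc, h3, ← mul_assoc, ← mul_assoc, ← pow_add,
      ← pow_add, add_comm]

/-- a twist function on `M` -/
structure Twist (T : Setup (Pt n) M) where
  /-- the twist -/
  tw : M → ℤ
  tw_mul : ∀ a b, tw (a * b) = tw a + tw b + Φ (T.π a) (T.π b)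
  tw_ι : ∀ e, IsIdempotentElem e → tw (T.ι e) = -Φ e e

theorem rq_inj (W : Twist T) (hA : A.card + 2 ≤ n) {a b : M} (ha : T.Reg (T.ι (q A) * a))
    (hb : T.Reg (T.ι (q A) * b)) (h : T.π a = T.π b) (hq : KR (q A) (T.π a))
    (ht : W.tw a = W.tw b) : T.ι (q A) * a = T.ι (q A) * b := by
  obtain ⟨τ, h0, hτ⟩ := exists_sec (T := T) hA
  have hn : 0 < n := by omega
  obtain ⟨i, -, hi⟩ := exists_free' hA (Subtype.val : A → Fin n) ⟨0, hn⟩
  obtain ⟨j, hj, -⟩ := exists_free' hA (Subtype.val : A → Fin n) i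
  have pq := T.π_ι _ (idem_q A)
  set ζ := T.ι (q A) * T.ι (m (pr i j)) * T.ι (p i) with hζdef
  have hv := hτ.reg_loop Subtype.val_injective hi j
  rw [h0, ← hζdef] at hv
  have hζ : T.π ζ = q A := hv.2.trans δ_val
  have hz0 : ZZ T τ ζ Subtype.val i j := by
    unfold ZZ
    rw [h0, ← hζdef, hv.1.fixR (idem_q A) (by rw [hζ, (idem_q A).eq])]
  have hz : ∀ (x : A → Fin n) i j, Injective x → (∀ a, x a ≠ i) → j ≠ i → ZZ T τ ζ x i j :=
    fun x i' j' hx hi' hj' => hτ.zz_all hζ hA Subtype.val_injective hx hi hi' hj hj' hz0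
  have hq0 : YY T τ ζ (T.ι (q A)) := by
    refine ⟨T.reg_ι (idem_q A), ?_, 0, 0, ?_⟩
    · rw [pq, ← δ_val]
      exact rq_δ Subtype.val_injective
    · have h1 := hτ.tt_eq (x := Subtype.val) (κ := ⊥) fun a b hab => Subtype.val_injective hab
      rw [m_bot, mul_one, δ_val, h0] at h1
      rw [pq, h1, (T.reg_ι (idem_q A)).fixR IsIdempotentElem.one (mul_one _)]
  have hY := fun w => mv_closed (YY T τ ζ) (fun c hc => hc.1) (fun c d => hτ.yy_mv hζ hz) w _ hq0
  obtain ⟨-, a2, k, l, a3⟩ := hY a (by rwa [pq])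
  obtain ⟨-, b2, k', l', b3⟩ := hY b (by rwa [pq, ← h])
  set c := T.ι (q A) * a with hc
  set d := T.ι (q A) * b with hd
  have hcd : T.π c = T.π d := by rw [hc, hd, map_mul, map_mul, h]
  have tcd : W.tw c = W.tw d := by rw [hc, hd, W.tw_mul, W.tw_mul, h, ht]
  have e1 : ζ ^ (l' + k) * c = ζ ^ (l + k') * d := by
    rw [pow_add, pow_add, mul_assoc, mul_assoc, a3, b3, hcd, ← mul_assoc, ← mul_assoc, ← pow_add,
      ← pow_add, add_comm]
  have tζ : W.tw ζ = W.tw (T.ι (q A)) - Φ (p i) (p i) := by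
    have h1 : Φ (q A * m (pr i j)) (p i) = 0 := Φ_eq_zero fun y h1 h2 => by
      obtain ⟨_, -, h3⟩ := (ρ_mul _ _ _ _).mp h1
      obtain ⟨rfl, h3⟩ := (ρ_m _ _ _).mp h3
      rw [cst_pr] at h3
      rw [ρ_p] at h2
      funext a
      by_cases hai : a = i
      · rw [hai, h3]
        exact (h2 j hj).symm
      · exact (h2 a hai).symm
    rw [hζdef, W.tw_mul, W.tw_mul, W.tw_ι _ (idem_m _), W.tw_ι _ (idem_p _), map_mul, pq,
      T.π_ι _ (idem_m _), T.π_ι _ (idem_p _), Φ_m, Φ_m, h1]
    simp [sub_eq_add_neg]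
  have tpow : ∀ u, T.Reg u → q A * T.π u = T.π u → ∀ k : ℕ,
      W.tw (ζ ^ k * u) = W.tw u - k * Φ (p i) (p i) := by
    intro u hu hu' k
    induction k with
    | zero => simp
    | succ k ih =>
      have h1 := reg_pow_left hζ hu hu' k
      have h2 := W.tw_mul (T.ι (q A)) (ζ ^ k * u)
      rw [h1.1.fixL (idem_q A) (by rw [h1.2, hu']), pq] at h2
      rw [pow_succ', mul_assoc, W.tw_mul, hζ, tζ]
      push_cast
      linarith
  have e2 := congrArg W.tw e1
  rw [tpow c ha a2.1, tpow d hb b2.1, tcd] at e2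
  have e3 : l' + k = l + k' := by
    have h1 := Φ_p_pos i
    have h2 : ((l' + k : ℕ) : ℤ) * Φ (p i) (p i) = ((l + k' : ℕ) : ℤ) * Φ (p i) (p i) := by
      linarith
    exact_mod_cast mul_right_cancel₀ (by exact_mod_cast h1.ne') h2
  rw [e3] at e1
  refine Setup.cancelL ha hb hcd ⟨1, ?_⟩ e1
  rw [one_mul, ← map_mul, (reg_pow_left hζ hb b2.1 _).2]

theorem exists_q (β : Pt n) : ∃ A : Finset (Fin n), KL (q A) β ∧ KR (q A) β := by
  classical
  let U := β.up
  let rep : Fin n → Fin n := fun i => Quotient.out (Quotient.mk U i)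
  have hrep : ∀ i, U (rep i) i := fun i => Quotient.mk_out (s := U) i
  have hrep' : ∀ i j, U i j → rep i = rep j := fun i j hij => by
    simp only [rep, Quotient.sound (s := U) hij]
  let A : Finset (Fin n) := Finset.univ.filter fun i => β.Dom i ∧ rep i = i
  have hA : ∀ i, i ∈ A ↔ β.Dom i ∧ rep i = i := by simp [A]
  refine ⟨A, ⟨β * β.star, ext_ρ fun x z => ?_⟩, β.star * q A, ext_ρ fun u w => ?_⟩
  · simp only [ρ_mul, ρ_star, ρ_q]
    constructor
    · rintro ⟨x', ⟨y, h1, h2⟩, x'', h3, h4⟩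
      have c1 := (β.cst_up _).mpr ⟨y, h1⟩
      have c2 := (β.cst_up _).mpr ⟨y, h2⟩
      have c3 := (β.cst_up _).mpr ⟨z, h4⟩
      have h5 : β.ρ (x - x'') 0 := ρ_of_dom (fun i j hij => by
        simp only [Pi.sub_apply, c1 i j hij, c3 i j hij]) (fun i hi => by
        have h6 := h3 (rep i) ((hA _).mpr ⟨hi.of_up (U.symm' (hrep i)), hrep' _ _ (hrep i)⟩)
        rw [c2 _ _ (hrep i), c3 _ _ (hrep i)] at h6
        rw [Pi.sub_apply, hi.eq h1 h2, h6, sub_self])
      simpa using h5.add h4
    · intro h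
      exact ⟨x, ⟨z, h, h⟩, x, fun _ _ => rfl, h⟩
  · simp only [ρ_mul, ρ_star, ρ_q]
    constructor
    · rintro ⟨y, ⟨x, h1, h2⟩, x', h3, h4⟩ a ha
      rw [h4 a ha, ← ((hA a).mp ha).1.eq h2 h3, h1 a ha]
    · intro h
      obtain ⟨y, hy⟩ := (β.cst_up (u ∘ rep)).mp fun i j hij => by
        simp only [comp, hrep' i j hij]
      have h1 : ∀ a ∈ A, (u ∘ rep) a = u a := fun a ha => by
        simp only [comp, ((hA a).mp ha).2]
      exact ⟨y, ⟨_, h1, hy⟩, _, hy, fun a ha => by rw [h a ha, h1 a ha]⟩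

theorem low_inj (W : Twist T) {a b : M} (ha : T.Reg a) (hb : T.Reg b) (h : T.π a = T.π b)
    (hl : (T.π a).Low) (ht : W.tw a = W.tw b) : a = b := by
  obtain ⟨A, h1, h2⟩ := exists_q (T.π a)
  have pq := T.π_ι _ (idem_q A)
  have hA : A.card + 2 ≤ n := by
    obtain ⟨y, hy⟩ := h2
    have h3 := rk_mul_le_left (q A * T.π a) y
    have h4 := rk_mul_le_right (q A) (T.π a)
    rw [hy, rk_q] at h3
    unfold Low at hl
    omega
  refine Setup.cancelL ha hb h (w := T.ι (q A)) (by rwa [pq, ← h]) ?_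
  exact rq_inj W hA (ha.stepL (idem_q A) h1).1 (hb.stepL (idem_q A) (h ▸ h1)).1 h h2 ht

end Pool.Agent.Work.MP_5b5e81_al
end

-- merged part: Pool.Agent.Work.MP_5b5e81_al.High
section
/-! Invariants of words: the twist and the reduced form of words of large rank. -/

set_option autoImplicit false

namespace Pool.Agent.Work.MP_5b5e81_al

open Relation Pt

section general

variable {S M : Type} [Monoid S] [Monoid M]

/-- lists of idempotents -/
def Idl (l : List S) : Prop := ∀ e ∈ l, IsIdempotentElem e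

/-- one application of a basic relation -/
def Basic (s t : List S) : Prop := ∃ (u v : List S) (e f : S), Idl u ∧ Idl v ∧
  IsIdempotentElem e ∧ IsIdempotentElem f ∧ (e * f = e ∨ e * f = f ∨ f * e = e ∨ f * e = f) ∧
  s = u ++ [e, f] ++ v ∧ t = u ++ [e * f] ++ v

/-- evaluation of a word -/
def Setup.ev (T : Setup S M) (l : List S) : M := (l.map T.ι).prod

theorem Setup.ev_append (T : Setup S M) (l l' : List S) : T.ev (l ++ l') = T.ev l * T.ev l' := by
  simp [Setup.ev]

theorem Setup.ev_single (T : Setup S M) (e : S) : T.ev [e] = T.ι e := by simp [Setup.ev]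

theorem Setup.π_ev (T : Setup S M) {l : List S} (hl : Idl l) : T.π (T.ev l) = l.prod := by
  induction l with
  | nil => simp [Setup.ev]
  | cons e l ih =>
    have := ih fun f hf => hl f (by simp [hf])
    simp only [Setup.ev, List.map_cons, List.prod_cons, map_mul, T.π_ι e (hl e (by simp))] at this ⊢
    rw [this]

theorem Idl.append {l l' : List S} (h : Idl l) (h' : Idl l') : Idl (l ++ l') := fun e he =>
  (List.mem_append.mp he).elim (h e) (h' e)

open Classical in
/-- push a letter on a reduced word (the head is the last letter) -/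
noncomputable def push (s : List S) (e : S) : List S :=
  List.recOn s [e] fun f s' ih => if f * e = f then f :: s' else if f * e = e then ih else e :: f :: s'

open Classical in
theorem push_cons (f : S) (s : List S) (e : S) : push (f :: s) e =
    if f * e = f then f :: s else if f * e = e then push s e else e :: f :: s := rfl

/-- reduced words -/
def Redu (s : List S) : Prop := s.IsChain fun e f => f * e ≠ f ∧ f * e ≠ e

theorem redu_push {s : List S} (h : Redu s) (e : S) : Redu (push s e) := by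
  induction s with
  | nil => exact List.isChain_singleton _
  | cons f s ih =>
    rw [push_cons]
    split_ifs with h1 h2
    · exact h
    · exact ih h.tail
    · exact List.isChain_cons_cons.mpr ⟨⟨h1, h2⟩, h⟩

theorem push_top {e : S} (he : IsIdempotentElem e) (s : List S) :
    ∃ g s', push s e = g :: s' ∧ g * e = g := by
  induction s with
  | nil => exact ⟨e, [], rfl, he⟩
  | cons f s ih =>
    rw [push_cons]
    split_ifs with h1 h2
    · exact ⟨f, s, rfl, h1⟩
    · exact ih
    · exact ⟨e, _, rfl, he⟩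

theorem push_push {s : List S} (hs : Redu s) {e f : S} (he : IsIdempotentElem e)
    (h : e * f = e ∨ e * f = f) : push (push s e) f = push s (e * f) := by
  by_cases h1 : e * f = e
  · obtain ⟨g, s', h2, h3⟩ := push_top he s
    rw [h1, h2, push_cons, if_pos (by rw [← h3, mul_assoc, h1])]
  · have h2 := h.resolve_left h1
    rw [h2]
    induction s with
    | nil =>
      change push [e] f = _
      rw [push_cons, if_neg h1, if_pos h2]
    | cons g s ih =>
      rw [push_cons g s e]
      split_ifs with h3 h4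
      · rfl
      · have h5 : g * f = f := by rw [← h2, ← mul_assoc, h4]
        rw [ih hs.tail, push_cons]
        split_ifs with h6
        · have h7 : g = f := h6.symm.trans h5
          subst h7
          rcases s with _ | ⟨k, s⟩
          · rfl
          · have h8 := (List.isChain_cons_cons.mp hs).1
            rw [push_cons, if_neg h8.1, if_neg h8.2]
        · rfl
      · rw [push_cons, if_neg h1, if_pos h2]

theorem idl_push {s : List S} (hs : Idl s) {e : S} (he : IsIdempotentElem e) : Idl (push s e) := by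
  induction s with
  | nil => intro f hf; rw [List.mem_singleton.mp hf]; exact he
  | cons f s ih =>
    rw [push_cons]
    split_ifs with h1 h2
    · exact hs
    · exact ih fun g hg => hs g (by simp [hg])
    · intro g hg
      rcases List.mem_cons.mp hg with rfl | hg
      · exact he
      · exact hs g hg

theorem ev_push (T : Setup S M) {s : List S} (hs : Idl s) {e : S} (he : IsIdempotentElem e) :
    T.ev (push s e).reverse = T.ev s.reverse * T.ι e := by
  induction s with
  | nil => simp [push, Setup.ev]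
  | cons f s ih =>
    have hf := hs f (by simp)
    rw [push_cons]
    split_ifs with h1 h2
    · rw [List.reverse_cons, T.ev_append, T.ev_single, mul_assoc, T.b1 hf he h1]
    · rw [ih fun g hg => hs g (by simp [hg]), List.reverse_cons, T.ev_append, T.ev_single,
        mul_assoc, T.b2 hf he h2]
    · rw [List.reverse_cons, T.ev_append, T.ev_single]

open Classical in
/-- push a letter, ignoring the identity -/
noncomputable def push1 (s : List S) (e : S) : List S := if e = 1 then s else push s e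

theorem redu_fold (l : List S) : ∀ s : List S, Redu s → Redu (l.foldl push1 s) := by
  induction l with
  | nil => exact fun _ h => h
  | cons e l ih =>
    intro s hs
    refine ih _ ?_
    unfold push1
    split_ifs
    · exact hs
    · exact redu_push hs e

theorem ev_fold (T : Setup S M) (l : List S) (hl : Idl l) : ∀ s : List S, Idl s →
    T.ι 1 * T.ev (l.foldl push1 s).reverse = T.ι 1 * T.ev s.reverse * T.ev l := by
  induction l with
  | nil => intro s _; simp [Setup.ev]
  | cons e l ih =>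
    intro s hs
    have he := hl e (by simp)
    have h1 : T.ev (e :: l) = T.ι e * T.ev l := by simp [Setup.ev]
    rw [List.foldl_cons, h1, ← mul_assoc, push1]
    split_ifs with h2
    · rw [ih (fun f hf => hl f (by simp [hf])) s hs, h2]
      congr 1
      rcases s with _ | ⟨f, s⟩
      · simp [Setup.ev, T.b1 IsIdempotentElem.one IsIdempotentElem.one (mul_one _)]
      · rw [List.reverse_cons, T.ev_append, T.ev_single, mul_assoc, mul_assoc,
          T.b1 (hs f (by simp)) IsIdempotentElem.one (mul_one _)]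
    · rw [ih (fun f hf => hl f (by simp [hf])) _ (idl_push hs he), ev_push T hs he, ← mul_assoc]

end general

variable {n : ℕ}

open Classical in
/-- the reduced form of a word of large rank -/
noncomputable def gamW (l : List (Pt n)) : List (Pt n) :=
  if l.prod.Low then [] else l.foldl push1 []

theorem Basic.prod {S : Type} [Monoid S] {s t : List S} (h : Basic s t) : s.prod = t.prod := by
  obtain ⟨u, v, e, f, -, -, -, -, -, rfl, rfl⟩ := h
  simp [mul_assoc]

theorem Basic.gam {s t : List (Pt n)} (h : Basic s t) : gamW s = gamW t := by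
  unfold gamW
  rw [← h.prod]
  split_ifs with h1
  · rfl
  obtain ⟨u, v, e, f, -, -, he, hf, h2, rfl, rfl⟩ := h
  have h3 : ¬ (e * f).Low := fun h3 => h1 (by
    simpa [mul_assoc] using (h3.mul_left u.prod).mul_right v.prod)
  simp only [List.foldl_append, List.foldl_cons, List.foldl_nil]
  congr 1
  have h4 := redu_fold u [] List.isChain_nil
  by_cases he1 : e = 1
  · rw [he1, one_mul, push1.eq_1 _ 1, if_pos rfl]
  by_cases hf1 : f = 1
  · rw [hf1, mul_one, push1, if_pos rfl]
  have h5 : e * f = e ∨ e * f = f := by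
    rcases h2 with h2 | h2 | h2 | h2
    · exact Or.inl h2
    · exact Or.inr h2
    · obtain ⟨y, hy⟩ := kr_of_not_low (β := e) hf hf1 (by
        rw [h2]; exact fun h => h3 (h.mul_right f))
      right
      rw [h2] at hy
      rw [← hy, ← mul_assoc, he.eq]
    · obtain ⟨y, hy⟩ := kl_of_not_low (α := f) he he1 (by
        rw [h2]; exact fun h => h3 (h.mul_left e))
      left
      rw [h2] at hy
      rw [← hy, mul_assoc, hf.eq]
  have h6 : e * f ≠ 1 := by
    rcases h5 with h5 | h5 <;> rwa [h5]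
  simp only [push1, if_neg he1, if_neg hf1, if_neg h6]
  exact push_push h4 he h5

/-- the positive part of the twist -/
noncomputable def plus (l : List (Pt n)) : ℕ := List.recOn l 0 fun e s ih => ih + Φ e s.prod

/-- the negative part of the twist -/
noncomputable def minus (l : List (Pt n)) : ℕ := List.recOn l 0 fun e _ ih => ih + Φ e e

/-- the twist of a word -/
noncomputable def tz (l : List (Pt n)) : ℤ := (plus l : ℤ) - minus l

theorem tz_cons (e : Pt n) (l : List (Pt n)) : tz (e :: l) = tz l + Φ e l.prod - Φ e e := by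
  change ((plus l + Φ e l.prod : ℕ) : ℤ) - (minus l + Φ e e : ℕ) = _
  unfold tz
  push_cast
  ring

theorem tz_nil : tz ([] : List (Pt n)) = 0 := rfl

theorem tz_append (u v : List (Pt n)) : tz (u ++ v) = tz u + tz v + Φ u.prod v.prod := by
  induction u with
  | nil => simp [tz_nil, Φ_one_left]
  | cons e u ih =>
    have := Φ_cocycle e u.prod v.prod
    rw [List.cons_append, tz_cons, tz_cons, ih, List.prod_append, List.prod_cons]
    omega

theorem Basic.tz {s t : List (Pt n)} (h : Basic s t) : tz s = tz t := by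
  obtain ⟨u, v, e, f, -, -, he, hf, h2, rfl, rfl⟩ := h
  simp only [tz_append, List.prod_append, List.prod_cons, List.prod_nil, mul_one, tz_cons, tz_nil,
    Φ_one_right]
  have c1 := Φ_cocycle e f f
  have c2 := Φ_cocycle e e f
  rw [hf.eq] at c1
  rw [he.eq] at c2
  rcases h2 with h2 | h2 | h2 | h2
  · rw [h2] at c1 ⊢
    omega
  · rw [h2] at c2 ⊢
    omega
  · have c3 := Φ_cocycle e f (e * f)
    have c4 := Φ_cocycle f e f
    have c5 := Φ_cocycle f f e
    rw [← mul_assoc, h2] at c3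
    rw [h2] at c4
    rw [hf.eq, h2] at c5
    omega
  · have c3 := Φ_cocycle (e * f) e f
    have c4 := Φ_cocycle e f e
    have c5 := Φ_cocycle f e e
    rw [mul_assoc, h2] at c3
    rw [h2] at c4
    rw [he.eq, h2] at c5
    omega

end Pool.Agent.Work.MP_5b5e81_al
end

-- merged part: Pool.Agent.Work.MP_5b5e81_al.Vass
section
/-! Reversible rewriting of neighbours with integer counters: non-reachability is enumerable. -/

set_option autoImplicit false

namespace Pool.Agent.Work.MP_5b5e81_al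

open Relation

theorem re_of_cert {W C : Type} [Primcodable W] [Primcodable C] {R : W → C → Prop}
    (h : PrimrecRel R) : REPred fun w => ∃ c, R w c := by
  classical
  have h1 : Primrec₂ fun (w : W) (k : ℕ) =>
      (Encodable.decode (α := C) k).bind fun c => if R w c then some () else none :=
    Primrec.option_bind (Primrec.decode.comp Primrec.snd)
      (Primrec.ite (h.comp (Primrec.fst.comp Primrec.fst) Primrec.snd) (Primrec.const _)
        (Primrec.const _)).to₂
  refine (Partrec.rfindOpt h1.to_comp).dom_re.of_eq fun w => ?_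
  rw [Nat.rfindOpt_dom]
  constructor
  · rintro ⟨k, a, ha⟩
    simp only [Option.mem_def, Option.bind_eq_some_iff] at ha
    obtain ⟨c, -, hc⟩ := ha
    exact ⟨c, by by_contra h2; simp [h2] at hc⟩
  · rintro ⟨c, hc⟩
    exact ⟨Encodable.encode c, (), by simp [hc]⟩

theorem primrec_mem {X : Type} [Primcodable X] : PrimrecRel fun (a : X) (l : List X) => a ∈ l :=
  ((PrimrecRel.exists_mem_list (Primrec.eq (α := X))).swap).of_eq fun a l => by
    simp [Function.swap]

theorem mem_of_forall_smul {m : ℕ} (L : Submodule ℤ (Fin m → ℤ)) (t : Fin m → ℤ)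
    (h : ∀ N : ℕ, ∃ u, t - ((N + 1 : ℕ) : ℤ) • u ∈ L) : t ∈ L := by
  have key : ∀ d : ℤ, d ≠ 0 → ∃ r : ℤ, d ∣ r ∧ r • L.mkQ t = L.mkQ t := by
    intro d hd
    obtain ⟨r, hr⟩ := (Ideal.mem_iInf_smul_pow_eq_bot_iff (Ideal.span {d}) (L.mkQ t)).mp (by
      rw [Submodule.mem_iInf]
      intro i
      obtain ⟨u, hu⟩ := h ((d ^ i).natAbs - 1)
      have h1 : (d ^ i).natAbs - 1 + 1 = (d ^ i).natAbs :=
        Nat.sub_add_cancel (Int.natAbs_pos.mpr (pow_ne_zero i hd))
      rw [h1, ← Submodule.Quotient.eq] at hu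
      have h2 : L.mkQ t = ((d ^ i).natAbs : ℤ) • L.mkQ u := by
        rw [← map_smul]; exact hu
      rw [h2]
      refine Submodule.smul_mem_smul ?_ Submodule.mem_top
      rw [Ideal.span_singleton_pow, Ideal.mem_span_singleton, Int.dvd_natAbs])
    exact ⟨r, Ideal.mem_span_singleton.mp r.2, hr⟩
  obtain ⟨r, h1, h2⟩ := key 2 two_ne_zero
  obtain ⟨r', ⟨c, rfl⟩, h3⟩ := key (r - 1) (by omega)
  rw [mul_comm, mul_smul, sub_smul, h2, one_smul, sub_self, smul_zero] at h3
  exact (Submodule.Quotient.mk_eq_zero L).mp h3.symm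

/-- local rules -/
abbrev Rule (Q : Type) := (Q × Q) × (Q × Q) × (ℕ × ℕ) × (ℕ × ℕ)

variable {Q G : Type}

/-- application of a local rule to two neighbours -/
inductive VStep (L : List (Rule Q)) : List (Q × ℤ × G) → List (Q × ℤ × G) → Prop
  | here (r : Rule Q) (j i : ℤ) (g g' : G) (s : List (Q × ℤ × G)) : r ∈ L →
      VStep L ((r.1.1, j, g) :: (r.1.2, i, g') :: s)
        ((r.2.1.1, j + r.2.2.1.1 - r.2.2.1.2, g) :: (r.2.1.2, i + r.2.2.2.1 - r.2.2.2.2, g') :: s)
  | there (z : Q × ℤ × G) {s s' : List (Q × ℤ × G)} : VStep L s s' → VStep L (z :: s) (z :: s')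

/-- translation of the counters -/
def shift : (ℕ → ℤ) → List (Q × ℤ × G) → List (Q × ℤ × G)
  | _, [] => []
  | t, y :: s => (y.1, y.2.1 + t 0, y.2.2) :: shift (fun i => t (i + 1)) s

theorem shift_congr (s : List (Q × ℤ × G)) : ∀ t t' : ℕ → ℤ, (∀ i < s.length, t i = t' i) →
    shift t s = shift t' s := by
  induction s with
  | nil => intro _ _ _; rfl
  | cons y s ih =>
    intro t t' h
    rw [shift, shift, h 0 (by simp), ih _ _ fun i hi => h (i + 1) (by simpa using hi)]

theorem shift_zero (s : List (Q × ℤ × G)) : shift 0 s = s := by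
  induction s with
  | nil => rfl
  | cons y s ih =>
    rw [shift]
    simp only [Pi.zero_apply, add_zero]
    exact congrArg _ ih

theorem shift_shift (s : List (Q × ℤ × G)) : ∀ t t' : ℕ → ℤ,
    shift t (shift t' s) = shift (t' + t) s := by
  induction s with
  | nil => intro _ _; rfl
  | cons y s ih =>
    intro t t'
    rw [shift, shift, shift, ih]
    simp only [Pi.add_apply, add_assoc]
    rfl

variable {L : List (Rule Q)}

theorem VStep.shift {s s' : List (Q × ℤ × G)} (h : VStep L s s') :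
    ∀ t, VStep L (shift t s) (shift t s') := by
  induction h with
  | here r j i g g' s hr =>
    intro t
    have := VStep.here (G := G) r (j + t 0) (i + t 1) g g'
      (MP_5b5e81_al.shift (fun i => t (i + 1 + 1)) s) hr
    simp only [MP_5b5e81_al.shift, zero_add]
    rwa [add_right_comm j, add_right_comm i, add_sub_right_comm, add_sub_right_comm (i + _)] at this
  | there z _ ih => exact fun t => VStep.there _ (ih _)

theorem eqv_shift {s s' : List (Q × ℤ × G)} (h : EqvGen (VStep L) s s') (t : ℕ → ℤ) :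
    EqvGen (VStep L) (shift t s) (shift t s') := by
  induction h with
  | rel _ _ h => exact EqvGen.rel _ _ (h.shift t)
  | refl => exact EqvGen.refl _
  | symm _ _ _ ih => exact ih.symm
  | trans _ _ _ _ _ ih1 ih2 => exact ih1.trans _ _ _ ih2

theorem vass_sep {d d' : List (Q × ℤ × G)}
    (h : ∀ N : ℕ, ∃ t : ℕ → ℤ, EqvGen (VStep L) d (shift (((N + 1 : ℕ) : ℤ) • t) d')) :
    EqvGen (VStep L) d d' := by
  let ex : (Fin d'.length → ℤ) → ℕ → ℤ := fun u i => if hi : i < d'.length then u ⟨i, hi⟩ else 0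
  have ex_add : ∀ u v, ex (u + v) = ex u + ex v := fun u v => funext fun i => by
    by_cases hi : i < d'.length <;> simp [ex, hi]
  have ex_neg : ∀ u, ex u + ex (-u) = 0 := fun u => funext fun i => by
    by_cases hi : i < d'.length <;> simp [ex, hi]
  let K : AddSubgroup (Fin d'.length → ℤ) :=
    { carrier := {u | EqvGen (VStep L) d' (shift (ex u) d')}
      add_mem' := fun {u v} hu hv => by
        have h1 := eqv_shift hv (ex u)
        rw [shift_shift, add_comm, ← ex_add] at h1
        exact EqvGen.trans _ _ _ hu h1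
      zero_mem' := by
        change EqvGen (VStep L) d' (shift (ex 0) d')
        rw [shift_congr d' (ex 0) 0 fun i hi => by simp [ex, hi], shift_zero]
        exact EqvGen.refl _
      neg_mem' := fun {u} hu => by
        have h1 := eqv_shift hu (ex (-u))
        rw [shift_shift, ex_neg, shift_zero] at h1
        exact h1.symm }
  obtain ⟨t, ht⟩ := h 0
  simp only [zero_add, Nat.cast_one, one_smul] at ht
  have h1 : (fun i : Fin d'.length => t i) ∈ AddSubgroup.toIntSubmodule K := by
    refine mem_of_forall_smul _ _ fun N => ?_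
    obtain ⟨t', ht'⟩ := h N
    refine ⟨fun i => t' i, ?_⟩
    have h2 := eqv_shift (ht'.symm.trans _ _ _ ht) (-(((N + 1 : ℕ) : ℤ) • t'))
    rw [shift_shift, shift_shift, add_neg_cancel, shift_zero] at h2
    change EqvGen (VStep L) d' (shift (ex _) d')
    rwa [shift_congr d' (ex _) (t + -(((N + 1 : ℕ) : ℤ) • t')) fun i hi => by
      simp [ex, hi, sub_eq_add_neg]]
  have h2 : EqvGen (VStep L) d' (shift (ex fun i : Fin d'.length => t i) d') := h1
  rw [shift_congr d' _ t fun i hi => by simp [ex, hi]] at h2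
  exact ht.trans _ _ _ h2.symm

/-- reduction of the counter modulo `N + 1` -/
def red (N : ℕ) (y : Q × ℤ × G) : Q × ℕ × G := (y.1, (y.2.1 % (N + 1 : ℕ)).toNat, y.2.2)

theorem red_eq (N : ℕ) (d : List (Q × ℤ × G)) : ∀ d' : List (Q × ℤ × G),
    d.map (red N) = d'.map (red N) → ∃ t : ℕ → ℤ, d = shift (((N + 1 : ℕ) : ℤ) • t) d' := by
  induction d with
  | nil =>
    intro d' h
    have : d' = [] := by simpa using h.symm
    exact ⟨0, by rw [this]; rfl⟩
  | cons y s ih =>
    rintro (_ | ⟨y', s'⟩) h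
    · simp at h
    · simp only [List.map_cons, List.cons.injEq, red, Prod.mk.injEq] at h
      obtain ⟨⟨h1, h2, h3⟩, h4⟩ := h
      obtain ⟨t, ht⟩ := ih s' h4
      have hN : ((N + 1 : ℕ) : ℤ) ≠ 0 := by omega
      have h5 : y.2.1 % (N + 1 : ℕ) = y'.2.1 % (N + 1 : ℕ) := by
        have := Int.emod_nonneg y.2.1 hN
        have := Int.emod_nonneg y'.2.1 hN
        omega
      obtain ⟨c, hc⟩ := (Int.ModEq.dvd h5.symm : ((N + 1 : ℕ) : ℤ) ∣ y.2.1 - y'.2.1)
      refine ⟨fun i => Nat.casesOn i c t, ?_⟩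
      rw [shift, ht]
      congr 1
      ext
      · exact h1
      · simp only [Pi.smul_apply, smul_eq_mul]
        change y.2.1 = y'.2.1 + _ * c
        linarith
      · exact h3

open Classical in
/-- application of a rule modulo `N + 1` -/
noncomputable def app (N : ℕ) (y x : Q × ℕ × G) (s : List (Q × ℕ × G)) (r : Rule Q) :
    List (Q × ℕ × G) :=
  if r.1 = (y.1, x.1) then
    (r.2.1.1, (y.2.1 + r.2.2.1.1 + N * r.2.2.1.2) % (N + 1), y.2.2) ::
      (r.2.1.2, (x.2.1 + r.2.2.2.1 + N * r.2.2.2.2) % (N + 1), x.2.2) :: s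
  else y :: x :: s

variable (L) in
/-- all applications of rules at the first place -/
noncomputable def loc (N : ℕ) (y : Q × ℕ × G) (s : List (Q × ℕ × G)) : List (List (Q × ℕ × G)) :=
  List.casesOn s [] fun x s' => L.map (app N y x s')

variable (L) in
/-- all applications of rules -/
noncomputable def succs (N : ℕ) (s : List (Q × ℕ × G)) : List (List (Q × ℕ × G)) :=
  List.recOn s [] fun y s' ih => loc L N y s' ++ ih.map (y :: ·)

theorem succs_cons (N : ℕ) (y : Q × ℕ × G) (s : List (Q × ℕ × G)) :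
    succs L N (y :: s) = loc L N y s ++ (succs L N s).map (y :: ·) := rfl

theorem toNat_step (N : ℕ) (j : ℤ) (a b : ℕ) :
    ((j + a - b) % (N + 1 : ℕ)).toNat = ((j % (N + 1 : ℕ)).toNat + a + N * b) % (N + 1) := by
  have hN : ((N + 1 : ℕ) : ℤ) ≠ 0 := by omega
  have h1 := Int.emod_nonneg j hN
  have h2 := Int.emod_nonneg (j + a - b) hN
  zify
  rw [Int.toNat_of_nonneg (by simpa using h2), Int.toNat_of_nonneg (by simpa using h1)]
  have h3 : (j % (N + 1 : ℤ) + a + N * b) = (j + a - b) + (N + 1 : ℤ) * (b - j / (N + 1 : ℤ)) := by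
    rw [Int.emod_def]; ring
  rw [h3, Int.add_mul_emod_self_left]

theorem app_red (N : ℕ) (r : Rule Q) (j i : ℤ) (g g' : G) (s : List (Q × ℕ × G)) :
    app N (red N (r.1.1, j, g)) (red N (r.1.2, i, g')) s r =
      red N (r.2.1.1, j + r.2.2.1.1 - r.2.2.1.2, g) ::
        red N (r.2.1.2, i + r.2.2.2.1 - r.2.2.2.2, g') :: s := by
  rw [app, if_pos (by rfl)]
  simp only [red, toNat_step]

theorem VStep.succs {d d' : List (Q × ℤ × G)} (h : VStep L d d') (N : ℕ) :
    d'.map (red N) ∈ succs L N (d.map (red N)) := by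
  induction h with
  | here r j i g g' s hr =>
    rw [List.map_cons, List.map_cons, List.map_cons, succs_cons]
    refine List.mem_append_left _ (List.mem_map.mpr ⟨r, hr, ?_⟩)
    exact app_red N r j i g g' _
  | there z _ ih =>
    rw [List.map_cons, List.map_cons, succs_cons]
    exact List.mem_append_right _ (List.mem_map.mpr ⟨_, ih, rfl⟩)

theorem succs_lift (N : ℕ) (d : List (Q × ℤ × G)) : ∀ c ∈ succs L N (d.map (red N)),
    ∃ d', d'.map (red N) = c ∧ EqvGen (VStep L) d d' := by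
  induction d with
  | nil => intro c hc; simp [succs] at hc
  | cons y s ih =>
    intro c hc
    rw [List.map_cons, succs_cons, List.mem_append] at hc
    rcases hc with hc | hc
    · rcases s with _ | ⟨x, s⟩
      · simp [loc] at hc
      · obtain ⟨r, hr, rfl⟩ := List.mem_map.mp hc
        by_cases h : r.1 = (y.1, x.1)
        · obtain ⟨y1, j, g⟩ := y
          obtain ⟨x1, i, g'⟩ := x
          obtain rfl : y1 = r.1.1 := by rw [h]
          obtain rfl : x1 = r.1.2 := by rw [h]
          refine ⟨_, ?_, EqvGen.rel _ _ (VStep.here r j i g g' s hr)⟩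
          exact (app_red N r j i g g' _).symm
        · exact ⟨_, by rw [app, if_neg (by exact h)]; rfl, EqvGen.refl _⟩
    · obtain ⟨c', hc', rfl⟩ := List.mem_map.mp hc
      obtain ⟨d', rfl, h⟩ := ih c' hc'
      refine ⟨y :: d', rfl, ?_⟩
      clear hc hc' ih
      induction h with
      | rel _ _ h => exact EqvGen.rel _ _ (h.there y)
      | refl => exact EqvGen.refl _
      | symm _ _ _ ih => exact ih.symm
      | trans _ _ _ _ _ ih1 ih2 => exact ih1.trans _ _ _ ih2

theorem eqv_third {d d' : List (Q × ℤ × G)} (h : EqvGen (VStep L) d d') :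
    d.map (·.2.2) = d'.map (·.2.2) := by
  induction h with
  | rel _ _ h =>
    induction h with
    | here => rfl
    | there z _ ih => simp [ih]
  | refl => rfl
  | symm _ _ _ ih => exact ih.symm
  | trans _ _ _ _ _ ih1 ih2 => exact ih1.trans ih2

theorem finite_lists {X : Type} {F : Set X} (hF : F.Finite) (m : ℕ) :
    {l : List X | l.length = m ∧ ∀ y ∈ l, y ∈ F}.Finite := by
  have := hF.to_subtype
  refine ((List.finite_length_eq F m).image (List.map Subtype.val)).subset ?_
  rintro l ⟨h1, h2⟩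
  exact ⟨l.attach.map fun y => ⟨y.1, h2 y.1 y.2⟩, by simpa using h1, by simp⟩

theorem vass_cert [Finite Q] (hsym : ∀ d d' : List (Q × ℤ × G), VStep L d d' → VStep L d' d)
    (d d' : List (Q × ℤ × G)) : ¬ EqvGen (VStep L) d d' ↔
    ∃ c : ℕ × List (List (Q × ℕ × G)), d.map (red c.1) ∈ c.2 ∧ d'.map (red c.1) ∉ c.2 ∧
      ∀ a ∈ c.2, ∀ b ∈ succs L c.1 a, b ∈ c.2 := by
  constructor
  · intro h
    have h1 := mt vass_sep h
    push Not at h1
    obtain ⟨N, hN⟩ := h1
    have hfin : {c | ∃ e, EqvGen (VStep L) d e ∧ e.map (red N) = c}.Finite := by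
      refine (finite_lists (F := Set.univ ×ˢ (Set.Iio (N + 1) ×ˢ {g | g ∈ d.map (·.2.2)}))
        (Set.finite_univ.prod ((Set.finite_Iio _).prod (List.finite_toSet _))) d.length).subset ?_
      rintro c ⟨e, he, rfl⟩
      have h2 := eqv_third he
      refine ⟨by simpa using (congrArg List.length h2).symm, fun y hy => ?_⟩
      obtain ⟨z, hz, rfl⟩ := List.mem_map.mp hy
      refine ⟨trivial, ?_, ?_⟩
      · have hN : (0 : ℤ) < (N + 1 : ℕ) := by omega
        have := Int.emod_lt_of_pos z.2.1 hN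
        have := Int.emod_nonneg z.2.1 hN.ne'
        simp only [red, Set.mem_Iio]
        omega
      · change z.2.2 ∈ d.map (·.2.2)
        rw [h2]
        exact List.mem_map.mpr ⟨z, hz, rfl⟩
    refine ⟨(N, hfin.toFinset.toList), ?_, ?_, ?_⟩
    · simp only [Finset.mem_toList, Set.Finite.mem_toFinset]
      exact ⟨d, EqvGen.refl _, rfl⟩
    · simp only [Finset.mem_toList, Set.Finite.mem_toFinset]
      rintro ⟨e, he, h2⟩
      obtain ⟨t, rfl⟩ := red_eq N e d' h2
      exact hN t he
    · simp only [Finset.mem_toList, Set.Finite.mem_toFinset]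
      rintro a ⟨e, he, rfl⟩ b hb
      obtain ⟨e', rfl, he'⟩ := succs_lift N e b hb
      exact ⟨e', he.trans _ _ _ he', rfl⟩
  · rintro ⟨⟨N, C⟩, h1, h2, h3⟩ h
    have key : ∀ e e' : List (Q × ℤ × G), EqvGen (VStep L) e e' →
        (e.map (red N) ∈ C ↔ e'.map (red N) ∈ C) := by
      intro e e' he
      induction he with
      | rel _ _ h => exact ⟨fun h' => h3 _ h' _ (h.succs N), fun h' => h3 _ h' _ ((hsym _ _ h).succs N)⟩
      | refl => rfl
      | symm _ _ _ ih => exact ih.symm
      | trans _ _ _ _ _ ih1 ih2 => exact ih1.trans ih2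
    exact h2 ((key _ _ h).mp h1)

end Pool.Agent.Work.MP_5b5e81_al
end

-- merged part: Pool.Agent.Work.MP_5b5e81_al.Data
section
/-! Equality of words in terms of finite data with integer counters. -/

set_option autoImplicit false

namespace Pool.Agent.Work.MP_5b5e81_al

open Relation Pt

theorem vstep_symm {Q G : Type} {L : List (Rule Q)}
    (hL : ∀ r ∈ L, ((r.2.1, r.1, r.2.2.1.swap, r.2.2.2.swap) : Rule Q) ∈ L)
    (d d' : List (Q × ℤ × G)) (h : VStep L d d') : VStep L d' d := by
  induction h with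
  | here r j i g g' s hr =>
    have := VStep.here (G := G) _ (j + r.2.2.1.1 - r.2.2.1.2) (i + r.2.2.2.1 - r.2.2.2.2) g g' s
      (hL r hr)
    simpa using this
  | there z _ ih => exact ih.there z

variable {n : ℕ}

/-- an idempotent goes from the left neighbour to the right neighbour -/
noncomputable def fwd (α β e : Pt n) : Rule (Pt n) :=
  ((β, α * e), (e * β, α), (Φ e β, Φ e e), (Φ e e, Φ α e))

/-- an idempotent goes from the right neighbour to the left neighbour -/
noncomputable def bwd (α β e : Pt n) : Rule (Pt n) :=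
  ((e * β, α), (β, α * e), (Φ e e, Φ e β), (Φ α e, Φ e e))

theorem exists_rules (n : ℕ) : ∃ L : List (Rule (Pt n)), ∀ r, r ∈ L ↔ ∃ α β e,
    IsIdempotentElem e ∧ KR α e ∧ KL e β ∧ (r = fwd α β e ∨ r = bwd α β e) := by
  have h : {r : Rule (Pt n) | ∃ α β e,
      IsIdempotentElem e ∧ KR α e ∧ KL e β ∧ (r = fwd α β e ∨ r = bwd α β e)}.Finite := by
    refine ((Set.finite_range fun x : Pt n × Pt n × Pt n => fwd x.1 x.2.1 x.2.2).union
      (Set.finite_range fun x : Pt n × Pt n × Pt n => bwd x.1 x.2.1 x.2.2)).subset ?_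
    rintro r ⟨α, β, e, -, -, -, rfl | rfl⟩
    · exact Or.inl ⟨(α, β, e), rfl⟩
    · exact Or.inr ⟨(α, β, e), rfl⟩
  exact ⟨h.toFinset.toList, fun r => by simp⟩

/-- the list of all rules -/
noncomputable def rules (n : ℕ) : List (Rule (Pt n)) := (exists_rules n).choose

theorem mem_rules (r : Rule (Pt n)) : r ∈ rules n ↔ ∃ α β e,
    IsIdempotentElem e ∧ KR α e ∧ KL e β ∧ (r = fwd α β e ∨ r = bwd α β e) :=
  (exists_rules n).choose_spec r

theorem rules_symm {G : Type} (d d' : List (Pt n × ℤ × G)) (h : VStep (rules n) d d') :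
    VStep (rules n) d' d := by
  refine vstep_symm (fun r hr => ?_) d d' h
  rw [mem_rules] at hr ⊢
  obtain ⟨α, β, e, h1, h2, h3, rfl | rfl⟩ := hr
  · exact ⟨α, β, e, h1, h2, h3, Or.inr rfl⟩
  · exact ⟨α, β, e, h1, h2, h3, Or.inl rfl⟩

variable {M : Type} [Monoid M] (T : Setup (Pt n) M)

/-- the basic relations are defining relations -/
def Pres : Prop := ∀ l l', Idl l → Idl l' → T.ev l = T.ev l' → EqvGen Basic l l'

/-- a word representing `a` -/
noncomputable def wd (a : M) : List (Pt n) := (T.gen a).choose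

theorem idl_wd (a : M) : Idl (wd T a) := (T.gen a).choose_spec.1

theorem ev_wd (a : M) : T.ev (wd T a) = a := (T.gen a).choose_spec.2.symm

/-- the data of an element -/
noncomputable def dat (a : M) : Pt n × ℤ × List (Pt n) := (T.π a, tz (wd T a), gamW (wd T a))

variable {T}

theorem Pres.dat_ev (hT : Pres T) {l : List (Pt n)} (hl : Idl l) :
    dat T (T.ev l) = (l.prod, tz l, gamW l) := by
  have h := hT _ _ (idl_wd T (T.ev l)) hl (ev_wd T _)
  rw [dat, T.π_ev hl, eqvGen_const (F := tz) (fun _ _ h => Basic.tz h) h,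
    eqvGen_const (F := gamW) (fun _ _ h => Basic.gam h) h]

/-- the twist -/
noncomputable def Pres.twist (hT : Pres T) : Twist T where
  tw a := (dat T a).2.1
  tw_mul a b := by
    have h := hT.dat_ev ((idl_wd T a).append (idl_wd T b))
    rw [T.ev_append, ev_wd, ev_wd] at h
    rw [h]
    simp only [dat, tz_append]
    rw [← T.π_ev (idl_wd T a), ← T.π_ev (idl_wd T b), ev_wd, ev_wd]
  tw_ι e he := by
    have h := hT.dat_ev (l := [e]) (by simpa [Idl] using he)
    rw [T.ev_single] at h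
    rw [h]
    simp [tz_cons, tz_nil, Φ_one_right]

theorem gam_low {a : M} (h : (T.π a).Low) : (dat T a).2.2 = [] := by
  rw [← ev_wd T a, T.π_ev (idl_wd T a)] at h
  simp only [dat, gamW, if_pos h]

theorem Pres.dat_inj (hT : Pres T) {a b : M} (ha : T.Reg a) (hb : T.Reg b)
    (h : dat T a = dat T b) : a = b := by
  have h1 : T.π a = T.π b := congrArg Prod.fst h
  by_cases hl : (T.π a).Low
  · exact low_inj hT.twist ha hb h1 hl (congrArg (fun x => x.2.1) h)
  · have h2 : gamW (wd T a) = gamW (wd T b) := congrArg (fun x => x.2.2) h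
    have hl' := hl
    rw [h1, ← ev_wd T b, T.π_ev (idl_wd T b)] at hl'
    rw [← ev_wd T a, T.π_ev (idl_wd T a)] at hl
    rw [gamW, gamW, if_neg hl, if_neg hl'] at h2
    have h3 := ev_fold T _ (idl_wd T a) [] (by simp [Idl])
    have h4 := ev_fold T _ (idl_wd T b) [] (by simp [Idl])
    rw [h2, h4, ev_wd, ev_wd] at h3
    simpa [Setup.ev, ha.fixL IsIdempotentElem.one (one_mul _),
      hb.fixL IsIdempotentElem.one (one_mul _)] using h3.symm

theorem step_gam {a b : M} {e : Pt n} (he : IsIdempotentElem e) (ha : T.Reg a) (hb : T.Reg b)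
    (h1 : KR (T.π a) e) (h2 : KL e (T.π b)) (h : T.Apart b (a * T.ι e)) :
    (dat T (T.ι e * b)).2.2 = (dat T b).2.2 ∧ (dat T (a * T.ι e)).2.2 = (dat T a).2.2 := by
  by_cases he1 : e = 1
  · rw [he1, ha.fixR IsIdempotentElem.one (mul_one _), hb.fixL IsIdempotentElem.one (one_mul _)]
    exact ⟨rfl, rfl⟩
  have pe := T.π_ι e he
  rw [Setup.Apart, map_mul, pe] at h
  have la : (T.π a * e).Low := by
    by_contra h3
    exact h.2 (h2.trans ((kl_of_not_low he he1 h3).mul_right _))
  have lb : (e * T.π b).Low := by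
    by_contra h3
    exact h.1 ((kr_of_not_low he he1 h3).mul_left _)
  have la' : (T.π a).Low := by
    obtain ⟨y, hy⟩ := h1
    rw [← hy]
    exact la.mul_right y
  have lb' : (T.π b).Low := by
    obtain ⟨y, hy⟩ := h2
    rw [← hy]
    exact lb.mul_left y
  rw [gam_low la', gam_low lb', gam_low (by rwa [map_mul, pe]), gam_low (by rwa [map_mul, pe])]
  exact ⟨rfl, rfl⟩

theorem Pres.dat_step (hT : Pres T) {a b : M} {e : Pt n} (he : IsIdempotentElem e) (ha : T.Reg a)
    (hb : T.Reg b) (h1 : KR (T.π a) e) (h2 : KL e (T.π b)) (h : T.Apart b (a * T.ι e)) :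
    dat T (T.ι e * b) = (e * T.π b, (dat T b).2.1 + Φ e (T.π b) - Φ e e, (dat T b).2.2) ∧
    dat T a = (T.π a, (dat T (a * T.ι e)).2.1 + Φ e e - Φ (T.π a) e, (dat T (a * T.ι e)).2.2) := by
  have pe := T.π_ι e he
  obtain ⟨h3, h4⟩ := step_gam he ha hb h1 h2 h
  have h5 := hT.twist.tw_mul (T.ι e) b
  have h6 := hT.twist.tw_mul a (T.ι e)
  rw [hT.twist.tw_ι e he, pe] at h5 h6
  simp only [Pres.twist] at h5 h6
  refine ⟨Prod.ext (by simp [dat, pe]) (Prod.ext ?_ h3), Prod.ext rfl (Prod.ext ?_ h4.symm)⟩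
  · simp only [h5]; ring
  · simp only [h6]; ring

theorem Pres.vstep (hT : Pres T) {s s' : List M} (h : T.Step s s') (hs : T.Good s) :
    VStep (rules n) (s.map (dat T)) (s'.map (dat T)) := by
  induction h with
  | here a b e r he ha hb h1 h2 =>
    obtain ⟨h3, h4⟩ := hT.dat_step he ha hb h1 h2 (List.isChain_cons_cons.mp hs.2).1
    have := VStep.here (fwd (T.π a) (T.π b) e) (dat T b).2.1 (dat T (a * T.ι e)).2.1 (dat T b).2.2
      (dat T (a * T.ι e)).2.2 (r.map (dat T))
      ((mem_rules _).mpr ⟨_, _, e, he, h1, h2, Or.inl rfl⟩)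
    simp only [fwd] at this
    rw [← h3, ← h4] at this
    simp only [List.map_cons]
    convert this using 2
    congr 1
    simp [dat, T.π_ι e he]
  | there z _ ih => exact (ih ⟨fun x hx => hs.1 x (by simp [hx]), hs.2.tail⟩).there _

theorem Pres.lift (hT : Pres T) {d d' : List (Pt n × ℤ × List (Pt n))}
    (h : VStep (rules n) d d') : ∀ s : List M, T.Good s → s.map (dat T) = d →
    ∃ s', (T.Step s s' ∨ T.Step s' s) ∧ s'.map (dat T) = d' := by
  induction h with
  | here r j i g g' d hr =>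
    intro s hs hd
    obtain ⟨y, s1, rfl, hy, hd1⟩ := List.map_eq_cons_iff.mp hd
    obtain ⟨x, s2, rfl, hx, rfl⟩ := List.map_eq_cons_iff.mp hd1
    have ry := hs.1 y (by simp)
    have rx := hs.1 x (by simp)
    have py : T.π y = r.1.1 := congrArg Prod.fst hy
    have px : T.π x = r.1.2 := congrArg Prod.fst hx
    obtain ⟨α, β, e, he, h1, h2, rfl | rfl⟩ := (mem_rules r).mp hr
    · simp only [fwd] at hx hy py px ⊢
      obtain ⟨z, hz⟩ := h1
      set k := e * z * α.star * α with hk
      have k1 : α * k = α := by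
        rw [hk, ← mul_assoc, ← mul_assoc, ← mul_assoc, hz, mul_star_mul]
      have k2 : e * k = k := by rw [hk, ← mul_assoc, ← mul_assoc, ← mul_assoc, he.eq]
      have k3 : IsIdempotentElem k := by
        unfold IsIdempotentElem
        rw [hk, mul_assoc _ α, ← hk, k1]
      have k4 : α * e * k = α := by rw [mul_assoc, k2, k1]
      have ra := (rx.stepR k3 ⟨e, by rw [px, k4]⟩).1
      have pa : T.π (x * T.ι k) = α := by rw [map_mul, px, T.π_ι k k3, k4]
      have e1 : x * T.ι k * T.ι e = x := by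
        rw [mul_assoc, T.b3 k3 he k2, rx.fixR (idem_mul_of k3 k2) (by rw [px, ← mul_assoc, k4])]
      have h3 : KR (T.π (x * T.ι k)) e := pa ▸ ⟨z, hz⟩
      have h4 : KL e (T.π y) := py ▸ h2
      obtain ⟨h5, h6⟩ := hT.dat_step he ra ry h3 h4 (by
        rw [e1]; exact (List.isChain_cons_cons.mp hs.2).1)
      refine ⟨T.ι e * y :: x * T.ι k :: s2, Or.inl ?_, ?_⟩
      · have := Setup.Step.here _ _ e s2 he ra ry h3 h4
        rwa [e1] at this
      · rw [List.map_cons, List.map_cons, h5, h6, e1, hx, hy, pa, py]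
    · simp only [bwd] at hx hy py px ⊢
      obtain ⟨z, hz⟩ := h2
      set k := β * β.star * z * e with hk
      have k1 : k * β = β := by
        rw [hk, mul_assoc, mul_assoc, hz, mul_star_mul]
      have k2 : k * e = k := by rw [hk, mul_assoc, he.eq]
      have k3 : IsIdempotentElem k := by
        unfold IsIdempotentElem
        calc k * k = k * β * β.star * z * e := by rw [hk]; simp only [mul_assoc]
          _ = k := by rw [k1]
      have k4 : k * (e * β) = β := by rw [← mul_assoc, k2, k1]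
      have rb := (ry.stepL k3 ⟨e, by rw [py, k4]⟩).1
      have pb : T.π (T.ι k * y) = β := by rw [map_mul, py, T.π_ι k k3, k4]
      have e1 : T.ι e * (T.ι k * y) = y := by
        rw [← mul_assoc, T.b4 he k3 k2, ry.fixL (idem_mul_of' k3 k2) (by rw [py, mul_assoc, k4])]
      have h3 : KR (T.π x) e := px ▸ h1
      have h4 : KL e (T.π (T.ι k * y)) := pb ▸ ⟨z, hz⟩
      have h7 := Setup.Step.here _ _ e s2 he rx rb h3 h4
      rw [e1] at h7
      obtain ⟨h5, h6⟩ := hT.dat_step he rx rb h3 h4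
        (List.isChain_cons_cons.mp (h7.good.1.mpr hs).2).1
      refine ⟨_, Or.inr h7, ?_⟩
      rw [e1, hy, pb] at h5
      rw [hx, px] at h6
      simp only [Prod.mk.injEq, true_and] at h5 h6
      rw [List.map_cons, List.map_cons]
      congr 1
      · refine Prod.ext pb (Prod.ext ?_ h5.2.symm)
        simp only [h5.1]; ring
      · congr 1
        refine Prod.ext ?_ (Prod.ext ?_ h6.2.symm)
        · simp [dat, px, T.π_ι e he]
        · simp only [h6.1]; ring
  | there z _ ih =>
    intro s hs hd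
    obtain ⟨y, s1, rfl, rfl, hd1⟩ := List.map_eq_cons_iff.mp hd
    obtain ⟨s', h1, rfl⟩ := ih s1 ⟨fun x hx => hs.1 x (by simp [hx]), hs.2.tail⟩ hd1
    exact ⟨y :: s', h1.imp (Setup.Step.there y) (Setup.Step.there y), rfl⟩

theorem eqv_good {s s' : List M} (h : EqvGen T.Step s s') : T.Good s ↔ T.Good s' := by
  induction h with
  | rel _ _ h => exact h.good.1
  | refl => rfl
  | symm _ _ _ ih => exact ih.symm
  | trans _ _ _ _ _ ih1 ih2 => exact ih1.trans ih2

theorem Pres.map_dat_inj (hT : Pres T) (s : List M) : ∀ s' : List M, (∀ a ∈ s, T.Reg a) →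
    (∀ a ∈ s', T.Reg a) → s.map (dat T) = s'.map (dat T) → s = s' := by
  induction s with
  | nil => intro s' _ _ h; simpa using h.symm
  | cons a s ih =>
    rintro (_ | ⟨b, s'⟩) h1 h2 h
    · simp at h
    · simp only [List.map_cons, List.cons.injEq] at h
      rw [hT.dat_inj (h1 a (by simp)) (h2 b (by simp)) h.1,
        ih s' (fun x hx => h1 x (by simp [hx])) (fun x hx => h2 x (by simp [hx])) h.2]

theorem Pres.eq_iff (hT : Pres T) {l l' : List (Pt n)} (hl : Idl l) (hl' : Idl l') :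
    T.ev l = T.ev l' ↔
      EqvGen (VStep (rules n)) ((T.nf [] l).map (dat T)) ((T.nf [] l').map (dat T)) := by
  have g1 := Setup.good_nf l hl _ (Setup.good_nil (T := T))
  have g2 := Setup.good_nf l' hl' _ (Setup.good_nil (T := T))
  constructor
  · intro h
    have h1 : ∀ l l', EqvGen Basic l l' → EqvGen T.Step (T.nf [] l) (T.nf [] l') := by
      intro l l' h
      induction h with
      | rel _ _ h =>
        obtain ⟨u, v, e, f, hu, hv, he, hf, h, rfl, rfl⟩ := h
        exact Setup.nf_basic u v hu hv he hf h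
      | refl => exact EqvGen.refl _
      | symm _ _ _ ih => exact ih.symm
      | trans _ _ _ _ _ ih1 ih2 => exact ih1.trans _ _ _ ih2
    have h2 : ∀ s s', EqvGen T.Step s s' → T.Good s →
        EqvGen (VStep (rules n)) (s.map (dat T)) (s'.map (dat T)) := by
      intro s s' h
      induction h with
      | rel _ _ h => exact fun hs => EqvGen.rel _ _ (hT.vstep h hs)
      | refl => exact fun _ => EqvGen.refl _
      | symm _ _ h ih => exact fun hs => (ih ((eqv_good h).mpr hs)).symm
      | trans _ _ _ h _ ih1 ih2 => exact fun hs => (ih1 hs).trans _ _ _ (ih2 ((eqv_good h).mp hs))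
    exact h2 _ _ (h1 _ _ (hT _ _ hl hl' h)) g1
  · intro h
    have h1 : ∀ d d', EqvGen (VStep (rules n)) d d' →
        (∀ s, T.Good s → s.map (dat T) = d → ∃ s', EqvGen T.Step s s' ∧ s'.map (dat T) = d') ∧
        (∀ s, T.Good s → s.map (dat T) = d' → ∃ s', EqvGen T.Step s s' ∧ s'.map (dat T) = d) := by
      have key : ∀ d d', VStep (rules n) d d' → ∀ s, T.Good s → s.map (dat T) = d →
          ∃ s', EqvGen T.Step s s' ∧ s'.map (dat T) = d' := by
        intro d d' h s hs hd
        obtain ⟨s', h1 | h1, h2⟩ := hT.lift h s hs hd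
        · exact ⟨s', EqvGen.rel _ _ h1, h2⟩
        · exact ⟨s', (EqvGen.rel _ _ h1).symm, h2⟩
      intro d d' h
      induction h with
      | rel _ _ h => exact ⟨key _ _ h, key _ _ (rules_symm _ _ h)⟩
      | refl => exact ⟨fun s _ h => ⟨s, EqvGen.refl _, h⟩, fun s _ h => ⟨s, EqvGen.refl _, h⟩⟩
      | symm _ _ _ ih => exact ih.symm
      | trans _ _ _ _ _ ih1 ih2 =>
        constructor
        · intro s hs hd
          obtain ⟨s1, a1, a2⟩ := ih1.1 s hs hd
          obtain ⟨s2, a3, a4⟩ := ih2.1 s1 ((eqv_good a1).mp hs) a2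
          exact ⟨s2, a1.trans _ _ _ a3, a4⟩
        · intro s hs hd
          obtain ⟨s1, a1, a2⟩ := ih2.2 s hs hd
          obtain ⟨s2, a3, a4⟩ := ih1.2 s1 ((eqv_good a1).mp hs) a2
          exact ⟨s2, a1.trans _ _ _ a3, a4⟩
    obtain ⟨s', h2, h3⟩ := (h1 _ _ h).1 _ g1 rfl
    have g3 := (eqv_good h2).mp g1
    have h4 : s' = T.nf [] l' := hT.map_dat_inj _ _ g3.1 g2.1 h3
    have h5 := Setup.eqv_prod h2
    rw [h4, Setup.prod_nf, Setup.prod_nf] at h5
    simpa [Setup.ev] using h5

end Pool.Agent.Work.MP_5b5e81_al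
end

-- merged part: Pool.Agent.Work.MP_5b5e81_al.Comp
section
/-! Computability of the data of a word and of the certificates. -/

set_option autoImplicit false

namespace Pool.Agent.Work.MP_5b5e81_al

open Relation Pt Primrec

theorem ite' {α σ : Type} [Primcodable α] [Primcodable σ] {c : α → Prop}
    {d : ∀ a, Decidable (c a)} {f g : α → σ} (hc : PrimrecPred c) (hf : Primrec f)
    (hg : Primrec g) : Primrec fun a => @ite _ (c a) (d a) (f a) (g a) :=
  @Primrec.ite _ _ _ _ c d f g hc hf hg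

section vass

variable {Q G W : Type} [Primcodable Q] [Primcodable G] [Primcodable W]

theorem primrec_app : Primrec fun x : (ℕ × (Q × ℕ × G) × (Q × ℕ × G) × List (Q × ℕ × G)) × Rule Q =>
    app x.1.1 x.1.2.1 x.1.2.2.1 x.1.2.2.2 x.2 := by
  have hN : Primrec fun x : (ℕ × (Q × ℕ × G) × (Q × ℕ × G) × List (Q × ℕ × G)) × Rule Q =>
    x.1.1 := fst.comp fst
  have hy : Primrec fun x : (ℕ × (Q × ℕ × G) × (Q × ℕ × G) × List (Q × ℕ × G)) × Rule Q =>
    x.1.2.1 := fst.comp (snd.comp fst)
  have hx : Primrec fun x : (ℕ × (Q × ℕ × G) × (Q × ℕ × G) × List (Q × ℕ × G)) × Rule Q =>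
    x.1.2.2.1 := fst.comp (snd.comp (snd.comp fst))
  have hs : Primrec fun x : (ℕ × (Q × ℕ × G) × (Q × ℕ × G) × List (Q × ℕ × G)) × Rule Q =>
    x.1.2.2.2 := snd.comp (snd.comp (snd.comp fst))
  have h1 : Primrec fun x : (ℕ × (Q × ℕ × G) × (Q × ℕ × G) × List (Q × ℕ × G)) × Rule Q =>
    x.2.2.1 := fst.comp (snd.comp snd)
  have h2 : Primrec fun x : (ℕ × (Q × ℕ × G) × (Q × ℕ × G) × List (Q × ℕ × G)) × Rule Q =>
    x.2.2.2.1 := fst.comp (snd.comp (snd.comp snd))
  have h3 : Primrec fun x : (ℕ × (Q × ℕ × G) × (Q × ℕ × G) × List (Q × ℕ × G)) × Rule Q =>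
    x.2.2.2.2 := snd.comp (snd.comp (snd.comp snd))
  unfold app
  refine ite' (Primrec.eq.comp (fst.comp snd) ((fst.comp hy).pair (fst.comp hx)))
    (list_cons.comp ((fst.comp h1).pair ((nat_mod.comp (nat_add.comp (nat_add.comp
      (fst.comp (snd.comp hy)) (fst.comp h2)) (nat_mul.comp hN (snd.comp h2))) (succ.comp hN)).pair
      (snd.comp (snd.comp hy))))
      (list_cons.comp ((snd.comp h1).pair ((nat_mod.comp (nat_add.comp (nat_add.comp
      (fst.comp (snd.comp hx)) (fst.comp h3)) (nat_mul.comp hN (snd.comp h3))) (succ.comp hN)).pair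
      (snd.comp (snd.comp hx)))) hs))
    (list_cons.comp hy (list_cons.comp hx hs))

theorem primrec_loc (L : List (Rule Q)) :
    Primrec fun x : ℕ × (Q × ℕ × G) × List (Q × ℕ × G) => loc L x.1 x.2.1 x.2.2 := by
  unfold loc
  refine list_casesOn (snd.comp snd) (const [])
    (h := fun (x : ℕ × (Q × ℕ × G) × List (Q × ℕ × G)) (p : (Q × ℕ × G) × List (Q × ℕ × G)) =>
      L.map (app x.1 x.2.1 p.1 p.2)) ?_
  refine list_map (const L) ?_
  exact (primrec_app.comp (((fst.comp (fst.comp fst)).pair ((fst.comp (snd.comp (fst.comp fst))).pair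
    (snd.comp fst))).pair snd)).to₂

theorem primrec_succs (L : List (Rule Q)) :
    Primrec₂ fun (N : ℕ) (s : List (Q × ℕ × G)) => succs L N s := by
  unfold succs
  refine list_rec (snd (α := ℕ)) (const [])
    (h := fun (x : ℕ × List (Q × ℕ × G))
      (p : (Q × ℕ × G) × List (Q × ℕ × G) × List (List (Q × ℕ × G))) =>
      loc L x.1 p.1 p.2.1 ++ p.2.2.map (p.1 :: ·)) ?_
  refine list_append.comp ((primrec_loc L).comp ((fst.comp fst).pair ((fst.comp snd).pair
    (fst.comp (snd.comp snd))))) (list_map (snd.comp (snd.comp snd)) ?_)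
  exact (list_cons.comp (fst.comp (snd.comp fst)) snd).to₂

/-- the integer counter as a difference -/
def toZ (y : Q × (ℕ × ℕ) × G) : Q × ℤ × G := (y.1, (y.2.1.1 : ℤ) - y.2.1.2, y.2.2)

/-- reduction of a difference modulo `N + 1` -/
def redN (N : ℕ) (y : Q × (ℕ × ℕ) × G) : Q × ℕ × G :=
  (y.1, (y.2.1.1 + N * y.2.1.2) % (N + 1), y.2.2)

omit [Primcodable Q] [Primcodable G] in
theorem red_toZ (N : ℕ) (y : Q × (ℕ × ℕ) × G) : red N (toZ y) = redN N y := by
  have := toNat_step N 0 y.2.1.1 y.2.1.2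
  simp only [zero_add, Int.zero_emod, Int.toNat_zero] at this
  simp only [red, toZ, redN, this]

theorem primrec_redN : Primrec₂ (redN : ℕ → Q × (ℕ × ℕ) × G → Q × ℕ × G) := by
  unfold redN
  exact ((fst.comp snd).pair ((nat_mod.comp (nat_add.comp (fst.comp (fst.comp (snd.comp snd)))
    (nat_mul.comp fst (snd.comp (fst.comp (snd.comp snd))))) (succ.comp fst)).pair
    (snd.comp (snd.comp snd)))).to₂

theorem vass_core [Finite Q] (L : List (Rule Q))
    (hsym : ∀ d d' : List (Q × ℤ × G), VStep L d d' → VStep L d' d)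
    {D D' : W → List (Q × (ℕ × ℕ) × G)} (hD : Primrec D) (hD' : Primrec D') :
    REPred fun w => ¬ EqvGen (VStep L) ((D w).map toZ) ((D' w).map toZ) := by
  have h1 : ∀ {D : W → List (Q × (ℕ × ℕ) × G)}, Primrec D → PrimrecPred
      fun x : W × ℕ × List (List (Q × ℕ × G)) => (D x.1).map (redN x.2.1) ∈ x.2.2 := fun hD =>
    primrec_mem.comp (list_map (hD.comp fst)
      (primrec_redN.comp (fst.comp (snd.comp fst)) snd).to₂) (snd.comp snd)
  have h2 : PrimrecRel fun (a : List (Q × ℕ × G)) (c : ℕ × List (List (Q × ℕ × G))) =>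
      ∀ b ∈ succs L c.1 a, b ∈ c.2 :=
    (PrimrecRel.forall_mem_list primrec_mem).comp
      ((primrec_succs L).comp (fst.comp snd) fst) (snd.comp snd)
  have h3 : PrimrecPred fun x : W × ℕ × List (List (Q × ℕ × G)) =>
      ∀ a ∈ x.2.2, ∀ b ∈ succs L x.2.1 a, b ∈ x.2.2 :=
    (PrimrecRel.forall_mem_list h2).comp (snd.comp snd) snd
  refine (re_of_cert (R := fun (w : W) (c : ℕ × List (List (Q × ℕ × G))) =>
    (D w).map (redN c.1) ∈ c.2 ∧ (D' w).map (redN c.1) ∉ c.2 ∧
      ∀ a ∈ c.2, ∀ b ∈ succs L c.1 a, b ∈ c.2) ((h1 hD).and ((h1 hD').not.and h3))).of_eq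
    fun w => ?_
  rw [vass_cert hsym]
  simp only [List.map_map, Function.comp_def, red_toZ]

end vass

section rewriting

variable {A : Type}

open Classical in
/-- one step of a derivation -/
noncomputable def drv (R : List (List A × List A)) (s : List A)
    (c : List A × List A × List A × List A) : List A :=
  if ((c.2.1, c.2.2.1) ∈ R ∨ (c.2.2.1, c.2.1) ∈ R) ∧ s = c.1 ++ c.2.1 ++ c.2.2.2 then
    c.1 ++ c.2.2.1 ++ c.2.2.2 else s

theorem eqv_iff_drv (R : List (List A × List A)) (s t : List A) :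
    EqvGen (fun s t => ∃ u v, ∃ r ∈ R, s = u ++ r.1 ++ v ∧ t = u ++ r.2 ++ v) s t ↔
      ∃ c : List (List A × List A × List A × List A), c.foldl (drv R) s = t := by
  constructor
  · intro h
    have : (∃ c : List (List A × List A × List A × List A), c.foldl (drv R) s = t) ∧
        ∃ c : List (List A × List A × List A × List A), c.foldl (drv R) t = s := by
      induction h with
      | rel _ _ h =>
        obtain ⟨u, v, r, hr, rfl, rfl⟩ := h
        exact ⟨⟨[(u, r.1, r.2, v)], by simp [drv, hr]⟩, ⟨[(u, r.2, r.1, v)], by simp [drv, hr]⟩⟩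
      | refl => exact ⟨⟨[], rfl⟩, ⟨[], rfl⟩⟩
      | symm _ _ _ ih => exact ih.symm
      | trans _ _ _ _ _ ih1 ih2 =>
        obtain ⟨⟨a, ha⟩, b, hb⟩ := ih1
        obtain ⟨⟨c, hc⟩, d, hd⟩ := ih2
        exact ⟨⟨a ++ c, by rw [List.foldl_append, ha, hc]⟩,
          ⟨d ++ b, by rw [List.foldl_append, hd, hb]⟩⟩
    exact this.1
  · rintro ⟨c, rfl⟩
    induction c generalizing s with
    | nil => exact EqvGen.refl _
    | cons x c ih =>
      refine EqvGen.trans _ _ _ ?_ (ih _)
      unfold drv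
      split_ifs with h
      · obtain ⟨h1 | h1, rfl⟩ := h
        · exact EqvGen.rel _ _ ⟨_, _, _, h1, rfl, rfl⟩
        · exact (EqvGen.rel _ _ ⟨_, _, _, h1, rfl, rfl⟩).symm
      · exact EqvGen.refl _

theorem re_eqv [Primcodable A] (R : List (List A × List A)) :
    REPred fun w : List A × List A =>
      EqvGen (fun s t => ∃ u v, ∃ r ∈ R, s = u ++ r.1 ++ v ∧ t = u ++ r.2 ++ v) w.1 w.2 := by
  have h1 : Primrec₂ (drv R) := by
    have hu : Primrec fun x : List A × List A × List A × List A × List A => x.2.1 := fst.comp snd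
    have hl : Primrec fun x : List A × List A × List A × List A × List A => x.2.2.1 :=
      fst.comp (snd.comp snd)
    have hr : Primrec fun x : List A × List A × List A × List A × List A => x.2.2.2.1 :=
      fst.comp (snd.comp (snd.comp snd))
    have hv : Primrec fun x : List A × List A × List A × List A × List A => x.2.2.2.2 :=
      snd.comp (snd.comp (snd.comp snd))
    unfold drv
    exact ite' (((primrec_mem.comp (hl.pair hr) (const R)).or
      (primrec_mem.comp (hr.pair hl) (const R))).and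
      (Primrec.eq.comp fst (list_append.comp (list_append.comp hu hl) hv)))
      (list_append.comp (list_append.comp hu hr) hv) fst
  refine (re_of_cert (R := fun (w : List A × List A)
    (c : List (List A × List A × List A × List A)) => c.foldl (drv R) w.1 = w.2) ?_).of_eq
    fun w => (eqv_iff_drv R _ _).symm
  exact Primrec.eq.comp (list_foldl snd (fst.comp fst)
    (h := fun _ p => drv R p.1 p.2) (h1.comp (fst.comp snd) (snd.comp snd)).to₂) (snd.comp fst)

end rewriting

section words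

variable {S M : Type} [Monoid S] [Monoid M]

open Classical in
/-- one step of the absorption -/
noncomputable def stepA (p : List S × List (List S)) (a : List S) : List S × List (List S) :=
  if p.2 = [] ∧ KL a.prod p.1.prod then (a ++ p.1, []) else (p.1, p.2 ++ [a])

/-- absorption on words -/
noncomputable def absorbW (s : List (List S)) (c : List S) : List (List S) :=
  (s.foldl stepA (c, [])).1 :: (s.foldl stepA (c, [])).2

open Classical in
/-- pushing on words -/
noncomputable def actW (s : List (List S)) (b : List S) : List (List S) :=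
  List.casesOn s [b] fun a s' => if KR a.prod b.prod then (a ++ b) :: s' else absorbW (a :: s') b

/-- the stack of words -/
noncomputable def nfW (l : List S) : List (List S) := l.foldl (fun s e => actW s [e]) []

theorem foldl_stepA (s : List (List S)) (c : List S) : ∀ acc, acc ≠ [] →
    s.foldl stepA (c, acc) = (c, acc ++ s) := by
  induction s with
  | nil => simp
  | cons a s ih =>
    intro acc h
    rw [List.foldl_cons, stepA, if_neg (by simp [h]), ih _ (by simp)]
    simp

theorem absorbW_spec (T : Setup S M) (s : List (List S)) : ∀ c, (∀ a ∈ s, Idl a) → Idl c →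
    (∀ a ∈ absorbW s c, Idl a) ∧ (absorbW s c).map T.ev = T.absorb (s.map T.ev) (T.ev c) := by
  induction s with
  | nil => intro c _ hc; simpa [absorbW, Setup.absorb] using hc
  | cons a s ih =>
    intro c hs hc
    have ha := hs a (by simp)
    by_cases h : KL a.prod c.prod
    · have h1 : absorbW (a :: s) c = absorbW s (a ++ c) := by
        simp only [absorbW, List.foldl_cons, stepA, h, and_self, if_true]
      rw [h1, List.map_cons, Setup.absorb_pos _ (by rwa [T.π_ev ha, T.π_ev hc]), ← T.ev_append]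
      exact ih _ (fun x hx => hs x (by simp [hx])) (ha.append hc)
    · have h1 : absorbW (a :: s) c = c :: a :: s := by
        simp only [absorbW, List.foldl_cons, stepA, h, and_false, if_false, List.nil_append]
        rw [foldl_stepA s c [a] (by simp)]
        rfl
      rw [h1, List.map_cons, List.map_cons,
        Setup.absorb_neg _ (by rwa [T.π_ev ha, T.π_ev hc])]
      refine ⟨fun x hx => ?_, rfl⟩
      rcases List.mem_cons.mp hx with rfl | hx
      · exact hc
      · exact hs x hx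

theorem actW_spec (T : Setup S M) (s : List (List S)) (b : List S) (hs : ∀ a ∈ s, Idl a)
    (hb : Idl b) :
    (∀ a ∈ actW s b, Idl a) ∧ (actW s b).map T.ev = T.act (s.map T.ev) (T.ev b) := by
  rcases s with _ | ⟨a, s⟩
  · simpa [actW, Setup.act] using hb
  · have ha := hs a (by simp)
    by_cases h : KR a.prod b.prod
    · have h1 : actW (a :: s) b = (a ++ b) :: s := by simp only [actW, h, if_true]
      rw [h1, List.map_cons, List.map_cons, Setup.act_pos _ (by rwa [T.π_ev ha, T.π_ev hb]),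
        T.ev_append]
      refine ⟨fun x hx => ?_, rfl⟩
      rcases List.mem_cons.mp hx with rfl | hx
      · exact ha.append hb
      · exact hs x (by simp [hx])
    · have h1 : actW (a :: s) b = absorbW (a :: s) b := by simp only [actW, h, if_false]
      rw [h1, List.map_cons, Setup.act_neg _ (by rwa [T.π_ev ha, T.π_ev hb])]
      exact absorbW_spec T _ _ hs hb

theorem nfW_spec (T : Setup S M) (l : List S) (hl : Idl l) :
    (∀ a ∈ nfW l, Idl a) ∧ (nfW l).map T.ev = T.nf [] l := by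
  have key : ∀ s : List (List S), (∀ a ∈ s, Idl a) →
      (∀ a ∈ l.foldl (fun s e => actW s [e]) s, Idl a) ∧
        (l.foldl (fun s e => actW s [e]) s).map T.ev = T.nf (s.map T.ev) l := by
    induction l with
    | nil => exact fun s hs => ⟨hs, rfl⟩
    | cons e l ih =>
      intro s hs
      have h1 := actW_spec T s [e] hs (by simpa [Idl] using hl e (by simp))
      have h2 := ih (fun f hf => hl f (by simp [hf])) _ h1.1
      rw [h1.2, T.ev_single] at h2
      exact h2
  exact key [] (by simp)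

variable [Primcodable S] [Finite S]

omit [Monoid S] in
theorem primrec_fin₂ {B : Type} [Primcodable B] (f : S → S → B) : Primrec₂ f :=
  dom_finite fun x : S × S => f x.1 x.2

omit [Monoid S] in
theorem primrec_rel_fin (r : S → S → Prop) : PrimrecRel r := by
  classical
  exact Primrec₂.primrecRel (primrec_fin₂ _)

theorem primrec_prod : Primrec (List.prod : List S → S) :=
  list_foldr Primrec.id (const 1) (h := fun _ p => p.1 * p.2)
    ((primrec_fin₂ fun a b : S => a * b).comp (fst.comp snd) (snd.comp snd)).to₂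

theorem primrec_absorbW : Primrec₂ (absorbW : List (List S) → List S → List (List S)) := by
  have h1 : Primrec₂ (stepA : List S × List (List S) → List S → List S × List (List S)) := by
    unfold stepA
    exact ite' ((Primrec.eq.comp (snd.comp fst) (const [])).and
      ((primrec_rel_fin KL).comp (primrec_prod.comp snd) (primrec_prod.comp (fst.comp fst))))
      ((list_append.comp snd (fst.comp fst)).pair (const []))
      ((fst.comp fst).pair (list_concat.comp (snd.comp fst) snd))
  have h2 : Primrec fun x : List (List S) × List S => x.1.foldl stepA (x.2, []) :=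
    list_foldl fst (snd.pair (const [])) (h := fun _ p => stepA p.1 p.2)
      (h1.comp (fst.comp snd) (snd.comp snd)).to₂
  exact list_cons.comp (fst.comp h2) (snd.comp h2)

theorem primrec_actW : Primrec₂ (actW : List (List S) → List S → List (List S)) := by
  classical
  unfold actW
  refine list_casesOn fst (list_cons.comp snd (const []))
    (h := fun (x : List (List S) × List S) (p : List S × List (List S)) =>
      if KR p.1.prod x.2.prod then (p.1 ++ x.2) :: p.2
      else absorbW (p.1 :: p.2) x.2) ?_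
  exact ite' ((primrec_rel_fin KR).comp (primrec_prod.comp (fst.comp snd))
    (primrec_prod.comp (snd.comp fst)))
    (list_cons.comp (list_append.comp (fst.comp snd) (snd.comp fst)) (snd.comp snd))
    (primrec_absorbW.comp (list_cons.comp (fst.comp snd) (snd.comp snd)) (snd.comp fst))

theorem primrec_nfW : Primrec (nfW : List S → List (List S)) :=
  list_foldl Primrec.id (const []) (h := fun _ p => actW p.1 [p.2])
    (primrec_actW.comp (fst.comp snd) (list_cons.comp (snd.comp snd) (const []))).to₂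

theorem primrec_push1 : Primrec₂ (push1 : List S → S → List S) := by
  classical
  have h1 : Primrec₂ (push : List S → S → List S) := by
    unfold push
    refine list_rec fst (list_cons.comp snd (const []))
      (h := fun (x : List S × S) (p : S × List S × List S) =>
        if p.1 * x.2 = p.1 then p.1 :: p.2.1 else if p.1 * x.2 = x.2 then p.2.2
        else x.2 :: p.1 :: p.2.1) ?_
    exact ite' ((primrec_rel_fin fun a b : S => a * b = a).comp (fst.comp snd)
      (snd.comp fst)) (list_cons.comp (fst.comp snd) (fst.comp (snd.comp snd)))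
      (ite' ((primrec_rel_fin fun a b : S => a * b = b).comp (fst.comp snd)
      (snd.comp fst)) (snd.comp (snd.comp snd))
      (list_cons.comp (snd.comp fst) (list_cons.comp (fst.comp snd) (fst.comp (snd.comp snd)))))
  unfold push1
  exact ite' (Primrec.eq.comp snd (const 1)) fst h1

end words

variable {n : ℕ}

/-- the data of a word -/
noncomputable def datW (l : List (Pt n)) : Pt n × (ℕ × ℕ) × List (Pt n) :=
  (l.prod, (plus l, minus l), gamW l)

theorem primrec_datW [Primcodable (Pt n)] : Primrec (datW : List (Pt n) → _) := by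
  classical
  have h1 : Primrec (plus : List (Pt n) → ℕ) := by
    unfold plus
    exact list_rec Primrec.id (const 0) (h := fun _ p => p.2.2 + Φ p.1 p.2.1.prod)
      (nat_add.comp (snd.comp (snd.comp snd)) ((primrec_fin₂ Φ).comp (fst.comp snd)
        (primrec_prod.comp (fst.comp (snd.comp snd))))).to₂
  have h2 : Primrec (minus : List (Pt n) → ℕ) := by
    unfold minus
    exact list_rec Primrec.id (const 0) (h := fun _ p => p.2.2 + Φ p.1 p.1)
      (nat_add.comp (snd.comp (snd.comp snd)) ((primrec_fin₂ Φ).comp (fst.comp snd)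
        (fst.comp snd))).to₂
  have h3 : Primrec (gamW : List (Pt n) → List (Pt n)) := by
    unfold gamW
    exact ite' ((primrec_rel_fin fun a _ : Pt n => a.Low).comp primrec_prod primrec_prod)
      (const []) (list_foldl Primrec.id (const []) (h := fun _ p => push1 p.1 p.2)
        (primrec_push1.comp (fst.comp snd) (snd.comp snd)).to₂)
  exact primrec_prod.pair ((h1.pair h2).pair h3)

theorem Pres.core {M W : Type} [Monoid M] [Primcodable W] [Primcodable (Pt n)]
    {T : Setup (Pt n) M} (hT : Pres T) {f f' : W → List (Pt n)} (hf : Primrec f)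
    (hf' : Primrec f') (h : ∀ w, Idl (f w)) (h' : ∀ w, Idl (f' w)) :
    REPred fun w => ¬ T.ev (f w) = T.ev (f' w) := by
  have h1 : Primrec fun l : List (Pt n) => (nfW l).map datW :=
    list_map primrec_nfW (primrec_datW.comp snd).to₂
  have h2 : ∀ l, Idl l → ((nfW l).map datW).map toZ = (T.nf [] l).map (dat T) := by
    intro l hl
    obtain ⟨h3, h4⟩ := nfW_spec T l hl
    rw [← h4, List.map_map, List.map_map]
    exact List.map_congr_left fun a ha => (hT.dat_ev (h3 a ha)).symm
  refine (vass_core (rules n) rules_symm (h1.comp hf) (h1.comp hf')).of_eq fun w => ?_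
  rw [h2 _ (h w), h2 _ (h' w), hT.eq_iff (h w) (h' w)]

end Pool.Agent.Work.MP_5b5e81_al
end

-- merged part: Pool.Agent.Work.MP_5b5e81_al.Final
section
/-! The presented monoid and the solution of the word problem. -/

set_option autoImplicit false

namespace Pool.Agent.Work.MP_5b5e81_al

open Relation Pt

section present

variable {S A : Type} [Monoid S] (g : A → S)

/-- one application of a basic relation to a word in the generators -/
def Rel (s t : List A) : Prop := ∃ (u v : List A) (a b c : A),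
  (g a * g b = g a ∨ g a * g b = g b ∨ g b * g a = g a ∨ g b * g a = g b) ∧
    g a * g b = g c ∧ s = u ++ [a, b] ++ v ∧ t = u ++ [c] ++ v

theorem eqv_ctx {s t : List A} (h : EqvGen (Rel g) s t) (x y : List A) :
    EqvGen (Rel g) (x ++ s ++ y) (x ++ t ++ y) := by
  induction h with
  | rel _ _ h =>
    obtain ⟨u, v, a, b, c, h1, h2, rfl, rfl⟩ := h
    exact EqvGen.rel _ _ ⟨x ++ u, v ++ y, a, b, c, h1, h2, by simp, by simp⟩
  | refl => exact EqvGen.refl _
  | symm _ _ _ ih => exact ih.symm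
  | trans _ _ _ _ _ ih1 ih2 => exact ih1.trans _ _ _ ih2

/-- the congruence generated by the basic relations -/
def con : Con (FreeMonoid A) where
  r s t := EqvGen (Rel g) s.toList t.toList
  iseqv := ⟨fun _ => EqvGen.refl _, fun h => h.symm, fun h h' => h.trans _ _ _ h'⟩
  mul' {w x y z} h h' := by
    have h1 := eqv_ctx g h [] y.toList
    have h2 := eqv_ctx g h' x.toList []
    simp only [List.nil_append, List.append_nil] at h1 h2
    exact h1.trans _ _ _ h2

theorem con_le : con g ≤ Con.ker (FreeMonoid.lift g) := by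
  intro s t h
  rw [Con.ker_rel, FreeMonoid.lift_apply, FreeMonoid.lift_apply]
  refine eqvGen_const (F := fun l : List A => (l.map g).prod) ?_ h
  rintro _ _ ⟨u, v, a, b, c, -, h2, rfl, rfl⟩
  simp [← h2, mul_assoc]

open Classical in
/-- the generator of an idempotent -/
noncomputable def gι (e : S) : (con g).Quotient :=
  if h : ∃ a, g a = e then (con g).mk' (FreeMonoid.of h.choose) else 1

variable {g}

theorem gι_eq (hg : Function.Injective g) (a : A) : gι g (g a) = (con g).mk' (FreeMonoid.of a) := by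
  have h : ∃ b, g b = g a := ⟨a, rfl⟩
  rw [gι, dif_pos h, hg h.choose_spec]

theorem prod_gι (hg : Function.Injective g) (w : List A) :
    ((w.map g).map (gι g)).prod = (con g).mk' (FreeMonoid.ofList w) := by
  induction w with
  | nil => simp
  | cons a w ih => rw [List.map_cons, List.map_cons, List.prod_cons, ih, gι_eq hg,
      FreeMonoid.ofList_cons, map_mul]

/-- the presented monoid -/
noncomputable def setup (hg : Function.Injective g) (hi : ∀ e, IsIdempotentElem e ↔ ∃ a, g a = e) :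
    Setup S (con g).Quotient where
  π := (con g).lift (FreeMonoid.lift g) (con_le g)
  ι := gι g
  π_ι e he := by
    obtain ⟨a, rfl⟩ := (hi e).mp he
    rw [gι_eq hg, Con.lift_mk', FreeMonoid.lift_eval_of]
  basic e f he hf h := by
    have hef : IsIdempotentElem (e * f) := by
      rcases h with h | h | h | h
      · rwa [h]
      · rwa [h]
      · exact idem_mul_of he h
      · exact idem_mul_of' hf h
    obtain ⟨a, rfl⟩ := (hi e).mp he
    obtain ⟨b, rfl⟩ := (hi f).mp hf
    obtain ⟨c, hc⟩ := (hi _).mp hef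
    rw [← hc, gι_eq hg, gι_eq hg, gι_eq hg, ← map_mul]
    exact (con g).eq.mpr (EqvGen.rel _ _ ⟨[], [], a, b, c, h, hc.symm, rfl, rfl⟩)
  gen x := by
    obtain ⟨w, rfl⟩ := (con g).mk'_surjective x
    refine ⟨w.toList.map g, ?_, (prod_gι hg w.toList).symm⟩
    intro e he
    obtain ⟨a, -, rfl⟩ := List.mem_map.mp he
    exact (hi _).mpr ⟨a, rfl⟩

theorem setup_ev (hg : Function.Injective g) (hi : ∀ e, IsIdempotentElem e ↔ ∃ a, g a = e)
    (w w' : List A) :
    (setup hg hi).ev (w.map g) = (setup hg hi).ev (w'.map g) ↔ EqvGen (Rel g) w w' := by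
  change ((w.map g).map (gι g)).prod = ((w'.map g).map (gι g)).prod ↔ _
  rw [prod_gι hg, prod_gι hg]
  exact (con g).eq

theorem idl_map (hi : ∀ e, IsIdempotentElem e ↔ ∃ a, g a = e) (w : List A) : Idl (w.map g) := by
  intro e he
  obtain ⟨a, -, rfl⟩ := List.mem_map.mp he
  exact (hi _).mpr ⟨a, rfl⟩

end present

theorem setup_pres {n : ℕ} {A : Type} {g : A → Pt n} (hg : Function.Injective g)
    (hi : ∀ e, IsIdempotentElem e ↔ ∃ a, g a = e) : Pres (setup hg hi) := by
  have h0 : ∀ l, Idl l → ∃ w : List A, l = w.map g := by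
    intro l hl
    induction l with
    | nil => exact ⟨[], rfl⟩
    | cons e l ih =>
      obtain ⟨a, rfl⟩ := (hi e).mp (hl e (by simp))
      obtain ⟨w, rfl⟩ := ih fun f hf => hl f (by simp [hf])
      exact ⟨a :: w, rfl⟩
  intro l l' hl hl' h
  obtain ⟨w, rfl⟩ := h0 l hl
  obtain ⟨w', rfl⟩ := h0 l' hl'
  rw [setup_ev] at h
  clear hl hl'
  induction h with
  | rel _ _ h =>
    obtain ⟨u, v, a, b, c, h1, h2, rfl, rfl⟩ := h
    exact EqvGen.rel _ _ ⟨u.map g, v.map g, g a, g b, idl_map hi u, idl_map hi v,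
      (hi _).mpr ⟨a, rfl⟩, (hi _).mpr ⟨b, rfl⟩, h1, by simp, by simp [h2]⟩
  | refl => exact EqvGen.refl _
  | symm _ _ _ ih => exact ih.symm
  | trans _ _ _ _ _ ih1 ih2 => exact ih1.trans _ _ _ ih2

theorem word_problem {n k : ℕ} {g : Fin k → Pt n} (hg : Function.Injective g)
    (hi : ∀ e, IsIdempotentElem e ↔ ∃ a, g a = e) :
    ComputablePred fun w : List (Fin k) × List (Fin k) => EqvGen (Rel g) w.1 w.2 := by
  classical
  rw [ComputablePred.computable_iff_re_compl_re']
  constructor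
  · let R : List (List (Fin k) × List (Fin k)) :=
      ((Finset.univ.filter fun x : Fin k × Fin k × Fin k =>
        (g x.1 * g x.2.1 = g x.1 ∨ g x.1 * g x.2.1 = g x.2.1 ∨ g x.2.1 * g x.1 = g x.1 ∨
          g x.2.1 * g x.1 = g x.2.1) ∧ g x.1 * g x.2.1 = g x.2.2).toList).map
        fun x => ([x.1, x.2.1], [x.2.2])
    have h : (fun s t => ∃ u v, ∃ r ∈ R, s = u ++ r.1 ++ v ∧ t = u ++ r.2 ++ v) = Rel g := by
      ext s t
      simp only [R, Rel, List.mem_map, Finset.mem_toList, Finset.mem_filter, Finset.mem_univ,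
        true_and]
      constructor
      · rintro ⟨u, v, _, ⟨⟨a, b, c⟩, ⟨h1, h2⟩, rfl⟩, h3, h4⟩
        exact ⟨u, v, a, b, c, h1, h2, h3, h4⟩
      · rintro ⟨u, v, a, b, c, h1, h2, h3, h4⟩
        exact ⟨u, v, _, ⟨(a, b, c), ⟨h1, h2⟩, rfl⟩, h3, h4⟩
    rw [← h]
    exact re_eqv R
  · obtain ⟨m, ⟨e⟩⟩ := Finite.exists_equiv_fin (Pt n)
    let _ : Primcodable (Pt n) := Primcodable.ofEquiv _ e
    have h1 : Primrec fun w : List (Fin k) => w.map g :=
      Primrec.list_map Primrec.id ((Primrec.dom_finite g).comp Primrec.snd).to₂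
    refine ((setup_pres hg hi).core (h1.comp Primrec.fst) (h1.comp Primrec.snd)
      (fun w => idl_map hi _) (fun w => idl_map hi _)).of_eq fun w => ?_
    rw [setup_ev]

end Pool.Agent.Work.MP_5b5e81_al
end
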